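import Mathlib
import Pool.Agent.Work.MP_841263_al.Top
import Pool.Agent.Work.MP_841263_pt.Interface
import Pool.Agent.Work.MP_841263_mv.Interface2
import Pool.Agent.Work.MP_841263_r3.Block2

/-!
# From the closed to the half open interval: statements of the blocks (helper78)

MP_841263_ag, path connectedness of `Stab`, proof of `Pool.Align.Stmt_HLF` (`MP_841263_al/Top.lean`). Table `sr_blocks`.

Notation. `X` is the direct sum of the `S l` (`Good`). `σ` with `X ∈ P[ψ, ψ + N]`, a rational direction `ψ` (`Pos`). The part of `X` of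
phase `ψ + N` is `(A ⊞ B)[N]`, `B` in the block `J` of `P(ψ)`, `A` orthogonal to `J` (`Top`). `LowOrth k`: the part of `X` with phases
`< ψ + k` is orthogonal to `J`. `H` = the part of `X` with phases in `[ψ + k, ψ + k + 1)`, shifted by `-k` (`Piece`).
Proof: either one block `J` is removed from the top part of `X` (`Rem`), or the rank of `ker im` gets smaller (`Prog`), or we are done.

RULES: one file `Pool/Agent/Work/MP_841263_sr/B_<ID>.lean` per block, `import Pool.Agent.Work.MP_841263_sr.Interface`, the `open`,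
`set_option`, `namespace Pool.SR` and `universe` lines of this file, theorem `p_<ID> : Stmt_X C → Stmt_Y C → Stmt_<ID> C` with
exactly the statements of the column `uses` as hypotheses, in this order. Statements of other interfaces: `RR2 PRK` are
`Pool.Align.Stmt_RR2 C`, `Pool.Align.Stmt_PRK`; `MVS IBK SLI` are `Pool.Move.Stmt_MVS C`, ...; `GRM` is `Pool.WS.Stmt_GRM`, `LWS WSF` are
`Pool.WS.Stmt_LWS C`, `Pool.WS.Stmt_WSF C`. The theorems of `MP_841263_r3/Block.lean` are proved and free (read them: `finCat_P`, `IsBlock`,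
`exists_block`, `block_eq`, `IsBlock.compl_orth`, `IsBlock.split`, `IsBlock.gen_P`, `IsBlock.quot`, `IsBlock.dich`, `IsBlock.localSetting`, and in
`Block2.lean` `finite_blocks`, `exists_part`, `IsBlock.affine`, `IsBlock.exists_root`, `P_shift_int`, `im_P`, `orth_zero`).
`MVS` and `WSF` have a universe of the index type: write `Pool.WS.Stmt_WSF.{u, v, u} C` in STS (`Pool.Move.Idx` lives in `Type u`, check with
`#check`). Auxiliary lemmas with the name of the block in front. No straight double quotes.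

LIBRARY: `Slicing.exists_trunc` (upper sets `Ici`, `Ioi`), `Slicing.In` (`.mono .iso .hom_zero .inter .ext_upper .ext_lower .shift
.shift_one .shift_neg_one .P_of_singleton`), `in_of_P`, `hom_zero_of_ext₁`, `hom_zero_of_ext₂`, `exists_octa`, `exists_octa_cocone`, `exists_invrot`,
`rot_mk`, `tri_mid_iso`, `Orth.iso`, `Orth.ext`, `orth_shift`, `hom_shift_zero` (r/Ab), `finrank_ext_symm`, `finrank_of_forall_zero`,
`forall_zero_of_finrank`, `AbSub` (r/Ab), `FinCat` (r/Fin), `SES.mono`, `SES.epi`, `AbSub.schur`, `gen_multiset`.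
-/

open CategoryTheory CategoryTheory.Limits CategoryTheory.Pretriangulated
open scoped ZeroObject Topology RealInnerProductSpace
open Filter

set_option backward.isDefEq.respectTransparency false
set_option backward.defeqAttrib.useBackward true
set_option linter.unusedSectionVars false

namespace Pool.SR

open Pool.Stab Pool.Tube Pool.Align Pool.Blk

universe v u

section Defs

variable {C : Type u} [Category.{v} C] [Preadditive C] [HasZeroObject C] [HasShift C ℤ]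
  [∀ n : ℤ, (shiftFunctor C n).Additive] [Pretriangulated C] [IsTriangulated C] [Linear ℂ C]
  [∀ n : ℤ, (shiftFunctor C n).Linear ℂ]

/-- There is a triangle `U → X → Y`. -/
def Tri (U X Y : C) : Prop :=
  ∃ (f : U ⟶ X) (g : X ⟶ Y) (k : Y ⟶ U⟦(1 : ℤ)⟧), Triangle.mk f g k ∈ distTriang C

/-- Objects isomorphic to `S`. -/
def Iso1 (S : C) : C → Prop := fun Y => Nonempty (Y ≅ S)

/-- `Y` is orthogonal to `J`. -/
def OrthG (J : C → Prop) (Y : C) : Prop := ∀ S, J S → Orth Y S ∧ Orth S Y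

/-- The properties of the direct sum of the `S l`. -/
structure Good (X : C) : Prop where
  neg : ∀ p : ℤ, p < 0 → ∀ f : X ⟶ X⟦p⟧, f = 0
  red : ∀ e : X ⟶ X, e ≫ e = 0 → e = 0
  con : ∀ X₁ X₂ : C, Nonempty (X ≅ X₁ ⊞ X₂) → Orth X₁ X₂ → Orth X₂ X₁ → IsZero X₁ ∨ IsZero X₂

/-- `X ∈ P[ψ, ψ + N]`, the direction `ψ` is rational. -/
structure Pos (h : EllipticSetting C) (σ : StabCond C) (ψ : ℝ) (N : ℕ) (X : C) : Prop where
  rat : ∃ r ∈ radical (eulerForm h.k3), r ≠ 0 ∧ σ.im ψ r = 0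
  mem : σ.sl.In (Set.Icc ψ (ψ + N)) X

/-- The goal for one object. -/
def Done (σ : StabCond C) (N : ℕ) (X : C) : Prop :=
  ∃ (σ' : StabCond C) (φ : ℝ), Joined σ σ' ∧ σ'.sl.In (Set.Ioc φ (φ + N)) X

/-- Done, or the rank of `ker im` gets smaller. -/
def Prog (h : EllipticSetting C) (σ : StabCond C) (ψ : ℝ) (N : ℕ) (X : C) : Prop :=
  Done σ N X ∨ ∃ σ' : StabCond C, Joined σ σ' ∧ Pos h σ' ψ N X ∧
    Module.finrank ℤ (σ'.im ψ).ker < Module.finrank ℤ (σ.im ψ).ker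

/-- A spherical block: all stable objects in it are spherical. -/
structure SBlk (σ : StabCond C) (ψ : ℝ) (J : C → Prop) : Prop extends IsBlock σ ψ J where
  sph : ∀ S, J S → Spherical S

/-- The part of `X` with phases below `ψ + k` is orthogonal to `J`. -/
def LowOrth (σ : StabCond C) (ψ : ℝ) (J : C → Prop) (X : C) (k : ℕ) : Prop :=
  ∃ U Y : C, Tri U X Y ∧ σ.sl.In (Set.Ici (ψ + k)) U ∧ σ.sl.In (Set.Iio (ψ + k)) Y ∧ OrthG J Y

/-- `H[k]` is the part of `X` with phases in `[ψ + k, ψ + k + 1)`, the part `Y` below is orthogonal to `J`. -/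
def Piece (σ : StabCond C) (ψ : ℝ) (J : C → Prop) (X : C) (k : ℕ) (H : C) : Prop :=
  ∃ V R Y : C, Tri V X R ∧ Tri (H⟦(k : ℤ)⟧) R Y ∧ σ.sl.In (Set.Ici (ψ + k + 1)) V ∧
    σ.sl.In (Set.Ico ψ (ψ + 1)) H ∧ σ.sl.In (Set.Iio (ψ + k)) Y ∧ OrthG J Y

/-- The part of `X` of phase `ψ + N` is `(A ⊞ B)[N]`. -/
def Top (σ : StabCond C) (ψ : ℝ) (N : ℕ) (J : C → Prop) (X A B : C) : Prop :=
  ∃ R : C, Tri ((A ⊞ B)⟦(N : ℤ)⟧) X R ∧ σ.sl.In (Set.Iio (ψ + N)) R ∧ σ.sl.P ψ A ∧ OrthG J A ∧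
    Gen J B

/-- `M` is the largest quotient of `X` in `Gen J`. -/
def Mq (J : C → Prop) (X M : C) : Prop :=
  ∃ K : C, Tri K X M ∧ Gen J M ∧ ∀ T, Gen J T → ∀ f : K ⟶ T, f = 0

/-- The turn of `S` between the phase `t` for `σ₀` and the phase `t + 1` for `σ₁`. -/
structure Tn (σ₀ σ₁ : StabCond C) (t : ℝ) (S : C) : Prop where
  sph : Spherical S
  s₀ : σ₀.Stable t S
  s₁ : σ₁.Stable (t + 1) S
  im : ∀ x, σ₁.im t x = σ₀.im t x
  lo : ∀ E, σ₀.sl.In (Set.Ico t (t + 1)) E → (∀ f : S ⟶ E, f = 0) →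
    σ₁.sl.In (Set.Ico t (t + 1)) E
  hi : ∀ E, σ₁.sl.In (Set.Ioc t (t + 1)) E → (∀ f : E ⟶ S, f = 0) →
    σ₀.sl.In (Set.Ioc t (t + 1)) E

/-- `(σ', J')` is the lowering of `(σ, J)` at `S`. -/
structure LoStep (h : EllipticSetting C) (ψ : ℝ) (σ : StabCond C) (J : C → Prop) (S : C)
    (σ' : StabCond C) (J' : C → Prop) : Prop where
  joined : Joined σ σ'
  blk : SBlk σ' ψ J'
  tn : Tn σ σ' ψ S
  re : ∀ x, σ'.re ψ x = σ.re ψ x - (eulerForm h.k3 x (cls S) : ℝ) * σ.re ψ (cls S)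
  down : Pool.WS.Down (Gen J) S (Gen J')

/-- `(σ', J')` is the raising of `(σ, J)` at `S`. -/
structure HiStep (h : EllipticSetting C) (ψ : ℝ) (σ : StabCond C) (J : C → Prop) (S : C)
    (σ' : StabCond C) (J' : C → Prop) : Prop where
  joined : Joined σ σ'
  blk : SBlk σ' ψ J'
  tn : Tn σ' σ (ψ - 1) S
  re : ∀ x, σ'.re ψ x = σ.re ψ x - (eulerForm h.k3 x (cls S) : ℝ) * σ.re ψ (cls S)
  up : Pool.WS.Up (Gen J) S (Gen J')

/-- The stable objects of phase `ψ` that are not in `J`. -/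
def Oth (σ : StabCond C) (ψ : ℝ) (J : C → Prop) : C → Prop := fun T => σ.Stable ψ T ∧ ¬ J T

/-- `(σ', J')` arises from `(σ, J)` by moves in the block. -/
structure Rel (ψ : ℝ) (σ : StabCond C) (J : C → Prop) (σ' : StabCond C) (J' : C → Prop) :
    Prop where
  joined : Joined σ σ'
  im : ∀ x, σ'.im ψ x = σ.im ψ x
  oth : ∀ T, Oth σ' ψ J' T ↔ Oth σ ψ J T
  orth : ∀ Y, OrthG J Y → OrthG J' Y

/-- The block `J` is removed from the top part of `X`, the other blocks of the top part are blocks for `σ'`. -/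
structure Rem (h : EllipticSetting C) (ψ : ℝ) (N : ℕ) (X : C) (σ : StabCond C) (J : C → Prop)
    (σ' : StabCond C) : Prop where
  joined : Joined σ σ'
  pos : Pos h σ' ψ N X
  im : ∀ x, σ'.im ψ x = σ.im ψ x
  oth : ∀ T, σ'.Stable ψ T → (∃ f : T⟦(N : ℤ)⟧ ⟶ X, f ≠ 0) → Oth σ ψ J T ∧
    ∀ J₁, IsBlock σ ψ J₁ → J₁ T → IsBlock σ' ψ J₁

/-- The top part of `X` is covered by `n` blocks. -/
def Cov (σ : StabCond C) (ψ : ℝ) (N : ℕ) (X : C) (n : ℕ) : Prop :=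
  ∃ F : Finset (C → Prop), F.card ≤ n ∧ ∀ T, σ.Stable ψ T → (∃ f : T⟦(N : ℤ)⟧ ⟶ X, f ≠ 0) →
    ∃ J ∈ F, IsBlock σ ψ J ∧ J T

end Defs

variable (C : Type u) [Category.{v} C] [Preadditive C] [HasZeroObject C] [HasShift C ℤ]
  [∀ n : ℤ, (shiftFunctor C n).Additive] [Pretriangulated C] [IsTriangulated C] [Linear ℂ C]
  [∀ n : ℤ, (shiftFunctor C n).Linear ℂ]

/-! ### The object `X` -/

/-- SUM (200 lines). `X = ⨁ S l` (`biproduct`, or by induction on `n`). `e : X ⟶ X` is a diagonal matrix of scalars (`orth`; `Hom(S l, S l) = ℂ`), `e² = 0` gives `e = 0`. `con`: the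
projection to `X₁` is an idempotent, diagonal with entries 0 or 1, `I` = the set of entries 1; `S i`, `i ∈ I`, is a retract of `X₁` and `S j`, `j ∉ I`, of
`X₂`, so they are orthogonal; `Semi.conn`. `In`: for retracts with `Slicing.In.inter` and truncations (see `MP_841263_c`, `MP_841263_st` for
direct summands; `Hom(P(> b), S l) = 0` characterises `In (Iic b)`, dually for `≥ a`, `> a`), for sums with `ext_upper`, `ext_lower`. -/
def Stmt_SUM : Prop := ∀ (_ : EllipticSetting C) (n : ℕ) (S : Fin n → C), Semi S →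
  ∃ X : C, Good X ∧ ∀ (σ : StabCond C) (a b : ℝ),
    (σ.sl.In (Set.Icc a b) X ↔ ∀ l, σ.sl.In (Set.Icc a b) (S l)) ∧
    (σ.sl.In (Set.Ioc a b) X ↔ ∀ l, σ.sl.In (Set.Ioc a b) (S l))

/-! ### Parts of `X` -/

/-- OGN (20 lines): induction on `Gen` (`Orth.ext` and its dual). -/
def Stmt_OGN : Prop := ∀ (J : C → Prop) (Y : C), OrthG J Y → ∀ E, Gen J E → Orth Y E ∧ Orth E Y

/-- HKP (50 lines): truncate `U` at `Ici (ψ + k + 1)`: `V → U → H₁`, octahedron for `V → U → X`; `H = H₁[-k]`. -/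
def Stmt_HKP : Prop := ∀ (σ : StabCond C) (ψ : ℝ) (J : C → Prop) (X : C) (k : ℕ),
  LowOrth σ ψ J X k → ∃ H, Piece σ ψ J X k H

/-- HFM (80 lines; uses OGN). (1) `f : X ⟶ E[k]` is zero on `V` (phases), so it comes from `R`; restrict to `H[k]`: `H[k] → R → Y`, `Hom(Y, E[k]) = 0`.
Conversely a map `H[k] → E[k]` extends to `R` (`Hom(Y[-1], E[k]) = 0`) and gives `X → R → E[k]`, zero only if `R → E[k]` is zero (`Hom(V[1], E[k]) = 0`).
(2) for `j < k`: `X → E[j]` comes from `R`, is zero on `H[k]`, so it comes from `Y`. -/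
def Stmt_HFM : Prop := ∀ (h : EllipticSetting C) (σ : StabCond C) (ψ : ℝ) (J : C → Prop)
  (X : C) (k : ℕ) (H : C), IsBlock σ ψ J → Piece σ ψ J X k H → ∀ E, Gen J E →
  ((∀ f : X ⟶ E⟦(k : ℤ)⟧, f = 0) ↔ ∀ f : H ⟶ E, f = 0) ∧
  ∀ j : ℤ, j < k → ∀ f : X ⟶ E⟦j⟧, f = 0

/-- LOP (30 lines; uses OGN): `H[k]` and `Y` are orthogonal to `J`, so `R` is. -/
def Stmt_LOP : Prop := ∀ (σ : StabCond C) (ψ : ℝ) (J : C → Prop) (X : C) (k : ℕ) (H : C),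
  Piece σ ψ J X k H → OrthG J H → LowOrth σ ψ J X (k + 1)

/-- TPX (60 lines; uses OGN). Truncate `X` at `Ici (ψ + N)`, shift the upper part by `-N`, `IsBlock.split`, `IsBlock.compl_orth`. -/
def Stmt_TPX : Prop := ∀ (h : EllipticSetting C) (σ : StabCond C) (ψ : ℝ) (N : ℕ)
  (J : C → Prop) (X : C), IsBlock σ ψ J → σ.sl.In (Set.Icc ψ (ψ + N)) X →
  ∃ A B, Top σ ψ N J X A B

/-- HNX (40 lines; uses OGN). `E[N] → X → R` is zero by phases, so `f` comes from `E[N] → (A ⊞ B)[N]`; `Hom(E, A) = 0`. Conversely `E → B → A ⊞ B → X[-N]` is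
zero only if `E → B` is zero (`Hom(E[N], R[-1]) = 0`). -/
def Stmt_HNX : Prop := ∀ (h : EllipticSetting C) (σ : StabCond C) (ψ : ℝ) (N : ℕ)
  (J : C → Prop) (X A B : C), IsBlock σ ψ J → Top σ ψ N J X A B → ∀ E, Gen J E →
  ((∀ f : E⟦(N : ℤ)⟧ ⟶ X, f = 0) ↔ ∀ f : E ⟶ B, f = 0)

/-- EXH (150 lines; uses OGN). `f : H ⟶ B[j]` (`j = 0, 1`), not 0. `f[k] : H[k] → B[k + j]` extends to `R → B[k + j]` (`Hom(Y[-1], B[k + j]) = 0`), let `g : X → R → B[k + j]`. `g ≠ 0`: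
`Hom(V[1], B[k + j]) = 0` if `j = 0` and also if `j = 1` (`V[1]` has phases `≥ ψ + k + 2`). With `c = k + j ≤ N` consider `g' : X → B[c] → (A ⊞ B)[c] → X[c - N]`. If `c < N`,
`g' = 0` by `Good.neg`. If `c = N` (`j = 1`, `k = N - 1`): `g' ≫ g' = 0`, as `(A ⊞ B)[N] → X → R_k → B[N]` is zero: `R_k` has phases `< ψ + N`, `Hom(P(ψ + N), R_k) = 0`; so
`g' = 0` by `Good.red`. So `X → B[c] → (A ⊞ B)[c]` factors through `R_N[c - N - 1] → (A ⊞ B)[c]` (`R_N` of `Top`), which has phases `< ψ + c - 1 ≤ ψ + k`. So `X → R_N[c - N - 1]`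
factors through `Y` (`V` and `H[k]` have phases `≥ ψ + k`), and `Y → R_N[..] → (A ⊞ B)[c] → B[c]` is 0. So `g = 0`. -/
def Stmt_EXH : Prop := ∀ (h : EllipticSetting C) (σ : StabCond C) (ψ : ℝ) (N : ℕ)
  (J : C → Prop) (X A B : C) (k : ℕ) (H : C), Good X → IsBlock σ ψ J → Top σ ψ N J X A B →
  k < N → Piece σ ψ J X k H → (∀ f : H ⟶ B, f = 0) ∧ ∀ f : H ⟶ B⟦(1 : ℤ)⟧, f = 0

/-- SPT (100 lines; uses OGN TPX HNX). `X ∈ P(≤ ψ + N)`, so `U ∈ P(ψ + N)`, `U ≅ (A ⊞ B)[N]`, `Y` orthogonal to `J`: `Y[-1] → U → B[N]` is 0, so `B[N] → U → X` is split mono: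
`X ≅ B[N] ⊞ X'`, `X'` is an extension of `Y` by `A[N]` (octahedron), orthogonal to `J`. `B` is not zero (HNX, `T`); `Good.con`: `X' = 0`, `X ≅ B[N]`
has phase `ψ + N`: `φ = ψ`. -/
def Stmt_SPT : Prop := ∀ (h : EllipticSetting C) (σ : StabCond C) (ψ : ℝ) (N : ℕ)
  (J : C → Prop) (X : C), Good X → 1 ≤ N → IsBlock σ ψ J → σ.sl.In (Set.Icc ψ (ψ + N)) X →
  LowOrth σ ψ J X N → (∃ T, J T ∧ ∃ f : T⟦(N : ℤ)⟧ ⟶ X, f ≠ 0) → Done σ N X

/-- NTP (50 lines). The part of phase `ψ + N` is `L[N]`, `L ∈ P(ψ)`; if `L` is not zero it has a stable subobject `T` (`FinCat.exists_simple_sub`), `T[N] → L[N] → X` is not zero. So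
`X` has (finitely many) phases in `[ψ, ψ + N - ε]`: `φ = ψ - ε`. -/
def Stmt_NTP : Prop := ∀ (h : EllipticSetting C) (σ : StabCond C) (ψ : ℝ) (N : ℕ) (X : C),
  σ.sl.In (Set.Icc ψ (ψ + N)) X → (∀ T, σ.Stable ψ T → ∀ f : T⟦(N : ℤ)⟧ ⟶ X, f = 0) →
  Done σ N X

/-- FCV (60 lines). `L[N] → X → R`, `L ∈ P(ψ)`, `R ∈ P(< ψ + N)`; a nonzero `T[N] → X` gives a nonzero `T → L`. `L` is in `Gen` of finitely many stable
objects (`FinCat.gen_simple`, induction on `Gen`), `T` is isomorphic to one of them; `exists_block` for each. -/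
def Stmt_FCV : Prop := ∀ (h : EllipticSetting C) (σ : StabCond C) (ψ : ℝ) (N : ℕ) (X : C),
  σ.sl.In (Set.Icc ψ (ψ + N)) X → ∃ n, Cov σ ψ N X n

/-! ### A single move -/

/-- TPL (100 lines), the torsion pair of `S`. By induction on `dim Hom(S, E)`: if `f : S ⟶ E` is not 0, `S → E → Q`: `Q ∈ P[t, t + 1)` and
`dim Hom(S, Q) = dim Hom(S, E) - 1`. `Q ∈ P[t, t + 1]` as an extension of `E` and `S[1]`; let `y : W ⟶ Q`, `W ∈ P(t + 1)`; `W → Q → S[1]` is zero or an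
epimorphism of `P(t + 1)` with kernel `K`; the composite `W → S[1] → E[1]` is 0, so `S[1] → E[1]` factors through `K[1] → E[1]`, zero by phases (`K[1] ∈ P(t + 2)`):
contradiction. So `W → Q` comes from `E` and is 0. `Hom(S, S[1]) = 0`, `Hom(S, S)` has dimension 1, `Hom(S, E[-1]) = 0`. The fibre of `E → Q → F` is an
extension of `T` and `S`. -/
def Stmt_TPL : Prop := ∀ (h : EllipticSetting C) (σ : StabCond C) (t : ℝ) (S : C),
  Spherical S → σ.Stable t S → ∀ E, σ.sl.In (Set.Ico t (t + 1)) E →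
  ∃ T F, Tri T E F ∧ Gen (Iso1 S) T ∧ σ.sl.In (Set.Ico t (t + 1)) F ∧ ∀ f : S ⟶ F, f = 0

/-- TPR (100 lines), dual to TPL, for `P(t, t + 1]` and `S` of phase `t + 1`. -/
def Stmt_TPR : Prop := ∀ (h : EllipticSetting C) (σ : StabCond C) (t : ℝ) (S : C),
  Spherical S → σ.Stable (t + 1) S → ∀ E, σ.sl.In (Set.Ioc t (t + 1)) E →
  ∃ F T, Tri F E T ∧ Gen (Iso1 S) T ∧ σ.sl.In (Set.Ioc t (t + 1)) F ∧ ∀ f : F ⟶ S, f = 0

/-- TRL (100 lines; uses SLI TPL). TPL and `lo`: `P₀[t, t + 1) ⊆ P₁[t, t + 1]` (`T ∈ P₁(t + 1)`, `F ∈ P₁[t, t + 1)`), so `P₀(θ) ⊆ P₁[t + m, t + m + 1]` for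
`θ ∈ [t + m, t + m + 1)`. (1) Induction on the HN filtration. (2) truncate `E` at `Ici t`: `E' → E → E''`, `E' ∈ P₀(t)`, `Hom(S, E') = 0` (`Hom(S, E''[-1]) = 0`), so
`E' ∈ P₁[t, t + 1)`, `im = 0`, `E' ∈ P₁(t)` (SLI); the HN factors of `E''` are in `P₁[t + m, t + m + 1]`, `m ≤ -1`. (3) the same, truncating at `Ici (t - 1)`: `E' ∈ P₀[t - 1, t)`,
`Hom(S[-1], E') = 0`, so `E'[1] ∈ P₁[t, t + 1)`; `m ≤ -2`. -/
def Stmt_TRL : Prop := ∀ (h : EllipticSetting C) (σ₀ σ₁ : StabCond C) (t : ℝ) (S : C),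
  Tn σ₀ σ₁ t S → (∀ E, σ₀.sl.In (Set.Ici t) E → σ₁.sl.In (Set.Ici t) E) ∧
  (∀ E, σ₀.sl.In (Set.Iic t) E → (∀ f : S ⟶ E, f = 0) → σ₁.sl.In (Set.Iic t) E) ∧
  ∀ E, σ₀.sl.In (Set.Iio t) E → (∀ f : S⟦(-1 : ℤ)⟧ ⟶ E, f = 0) → σ₁.sl.In (Set.Iio t) E

/-- TRR (100 lines; uses SLI TPR), dual to TRL. -/
def Stmt_TRR : Prop := ∀ (h : EllipticSetting C) (σ₀ σ₁ : StabCond C) (t : ℝ) (S : C),
  Tn σ₀ σ₁ t S → (∀ E, σ₁.sl.In (Set.Iic (t + 1)) E → σ₀.sl.In (Set.Iic (t + 1)) E) ∧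
  ∀ E, σ₁.sl.In (Set.Ici (t + 1)) E → (∀ f : E ⟶ S, f = 0) → σ₀.sl.In (Set.Ici (t + 1)) E

/-- OTC (120 lines; uses OGN). The hypotheses are symmetric, so one direction. `Gen (Oth σ ψ J)` is the class of the objects of `P(ψ)` orthogonal to `J` (`IsBlock.split`: the
part in `Gen J` is a direct summand orthogonal to itself; `retract_mem`), so it is the same for `σ'`, `J'`. `T` stable for `σ`, not in `J`: `T ∈ P'(ψ)`. Let `T' → T → T''` be a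
triangle in `P'(ψ)`, `T' ≠ 0 ≠ T''`; take a stable `V' ⊆ T'` of `σ'`; `V'` is not in `J'` (else `Orth`), so `V' ∈ Gen (Oth σ ψ J)`. `V' → T` is not zero, so an epimorphism of `P(ψ)` with kernel `K`
orthogonal to `J` (`V'`, `T` are), so `K ∈ P'(ψ)`: in the triangle `K → V' → T` in `P'(ψ)` `K = 0` (or `T = 0`), so `V' ≅ T`, so `V' → T' → T` is iso and `T'' = 0`. -/
def Stmt_OTC : Prop := ∀ (h : EllipticSetting C) (σ σ' : StabCond C) (ψ : ℝ)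
  (J J' : C → Prop), IsBlock σ ψ J → IsBlock σ' ψ J' → (∀ Y, OrthG J Y ↔ OrthG J' Y) →
  (∀ Y, OrthG J Y → (σ.sl.P ψ Y ↔ σ'.sl.P ψ Y)) → ∀ T, Oth σ' ψ J' T ↔ Oth σ ψ J T

/-- RLO (80 lines; uses SLI OGN OTC). `J'` objects have a triangle `F → X → T[-1]` (`down`), so `OrthG J` gives `OrthG J'`. `S₁ ∈ J` not isomorphic to `S` is in `Gen J'` (`F = S₁`, `T = 0`), `S[-1]` too
(`F = 0`). For `Y` orthogonal to `J` (so to `S`): `tn.lo`, `im = 0`, SLI (4); conversely `tn.hi` for `Y[1]`, SLI (2). -/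
def Stmt_RLO : Prop := ∀ (h : EllipticSetting C) (ψ : ℝ) (σ σ' : StabCond C)
  (J J' : C → Prop) (S : C), SBlk σ ψ J → J S → LoStep h ψ σ J S σ' J' → Rel ψ σ J σ' J'

/-- RHI (80 lines; uses SLI OGN OTC), dual to RLO. -/
def Stmt_RHI : Prop := ∀ (h : EllipticSetting C) (ψ : ℝ) (σ σ' : StabCond C)
  (J J' : C → Prop) (S : C), SBlk σ ψ J → J S → HiStep h ψ σ J S σ' J' → Rel ψ σ J σ' J'

/-- STL (80 lines; uses TRL RLO). `X ∈ P'(≥ ψ)`: TRL (1); `X[-N] ∈ P(≤ ψ)`, `Hom(S, X[-N]) = 0`: TRL (2). `U[-k]`: (1), `Y[-k]`: (3). `rat`: `im`. -/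
def Stmt_STL : Prop := ∀ (h : EllipticSetting C) (ψ : ℝ) (N : ℕ) (X : C) (k : ℕ)
  (σ σ' : StabCond C) (J J' : C → Prop) (S : C), SBlk σ ψ J → J S → LoStep h ψ σ J S σ' J' →
  Pos h σ ψ N X → LowOrth σ ψ J X k → (∀ f : S⟦(N : ℤ)⟧ ⟶ X, f = 0) →
  Pos h σ' ψ N X ∧ LowOrth σ' ψ J' X k

/-- STR (60 lines; uses TRL TRR). `t = ψ - 1`, `σ₀ = σ'`, `σ₁ = σ`: TRR (2) for `X`, TRR (1) for `X[-N]`. Third: TRL (1), shifted by 1. -/
def Stmt_STR : Prop := ∀ (h : EllipticSetting C) (ψ : ℝ) (N : ℕ) (X : C)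
  (σ σ' : StabCond C) (J J' : C → Prop) (S : C), HiStep h ψ σ J S σ' J' →
  Pos h σ ψ N X → (∀ f : X ⟶ S, f = 0) →
  Pos h σ' ψ N X ∧ ∀ E, σ'.sl.In (Set.Ici ψ) E → σ.sl.In (Set.Ici ψ) E

/-! ### Chains of moves -/

/-- BKI (80 lines). `→`: `IsBlock.localSetting`.`conn`. `←`: for `G'` as in `IsBlock.conn` take the set of classes of `G'`: for `S ∈ G'`, `T ∈ J` with class not in this set
`χ = 0` (`AbSub.simple_form_le`). So every `T ∈ J` has the class of some `S ∈ G'`, `χ(S, T) = 2 > 0`, so there is a nonzero map and `S ≅ T`. -/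
def Stmt_BKI : Prop := ∀ (h : EllipticSetting C) (σ : StabCond C) (ψ : ℝ) (J : C → Prop),
  SBlk σ ψ J ↔ Pool.Move.Blk h.k3 σ ψ J ∧ ∃ S, J S

/-- LSC (80 lines; uses BKI), the moves of `MP_841263_mv/Interface2.lean` are steps. `blk`: `J'` is not empty as `S[-1]` (resp. `S[1]`) is in `Gen J'` and not zero. `im`, `re`: from the formula for
`Z`, `im (cls S) = 0`; for `HiM` `t = ψ - 1` (`im (ψ - 1) = - im ψ`). -/
def Stmt_LSC : Prop := ∀ (h : EllipticSetting C) (ψ : ℝ) (σ₀ : StabCond C)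
  (i j : Pool.Move.Idx h σ₀ ψ) (S : C), i.J S →
  (Pool.Move.LoM i S j → LoStep h ψ i.σ i.J S j.σ j.J) ∧
  (Pool.Move.HiM i S j → HiStep h ψ i.σ i.J S j.σ j.J)

/-- CHL (100 lines; uses LWS BKI LSC RLO STL). Induction on the chain; `Rel` is transitive. `Lowd W W` (`T = 0`). LWS for `A = Gen J_i` (`FinCat`, `AbSub`: `IsBlock.localSetting`). -/
def Stmt_CHL : Prop := ∀ (h : EllipticSetting C) (ψ : ℝ) (N : ℕ) (X : C) (k : ℕ)
  (σ₀ : StabCond C) (i₀ j : Pool.Move.Idx h σ₀ ψ) (T : C → Prop),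
  Pool.WS.Chain (fun i : Pool.Move.Idx h σ₀ ψ => i.J) Pool.Move.LoM T i₀ j →
  (∀ S, T S → Gen i₀.J S ∧ ∀ f : S⟦(N : ℤ)⟧ ⟶ X, f = 0) → (∃ S, i₀.J S) →
  Pos h i₀.σ ψ N X → LowOrth i₀.σ ψ i₀.J X k →
  Pos h j.σ ψ N X ∧ LowOrth j.σ ψ j.J X k ∧ SBlk j.σ ψ j.J ∧ Rel ψ i₀.σ i₀.J j.σ j.J ∧
    Pool.WS.Lowd (Gen i₀.J) (Gen j.J)

/-- CHR (60 lines; uses BKI LSC RHI STR). Induction on the chain. -/
def Stmt_CHR : Prop := ∀ (h : EllipticSetting C) (ψ : ℝ) (N : ℕ) (X : C)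
  (σ₀ : StabCond C) (i₀ j : Pool.Move.Idx h σ₀ ψ) (T : C → Prop),
  Pool.WS.Chain (fun i : Pool.Move.Idx h σ₀ ψ => i.J) Pool.Move.HiM T i₀ j →
  (∀ S, T S → ∀ f : X ⟶ S, f = 0) → (∃ S, i₀.J S) → Pos h i₀.σ ψ N X →
  Pos h j.σ ψ N X ∧ SBlk j.σ ψ j.J ∧ Rel ψ i₀.σ i₀.J j.σ j.J ∧
    ∀ E, j.σ.sl.In (Set.Ici ψ) E → i₀.σ.sl.In (Set.Ici ψ) E

/-- RLB (60 lines). A block `J₁` of `σ` containing a `T ∈ Oth σ ψ J` is disjoint from `J` (`block_eq`), so it is contained in `Oth σ ψ J = Oth σ' ψ J'`; `orth`: for `T'` stable for `σ'`, in `J'` or not.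
`conn` is the same condition. -/
def Stmt_RLB : Prop := ∀ (h : EllipticSetting C) (ψ : ℝ) (σ σ' : StabCond C)
  (J J' : C → Prop), IsBlock σ ψ J → IsBlock σ' ψ J' → Rel ψ σ J σ' J' →
  ∀ J₁ T, IsBlock σ ψ J₁ → J₁ T → Oth σ ψ J T → IsBlock σ' ψ J₁

/-- RMR (40 lines; uses OGN RLB), end of a raising chain. Let `T` be stable for `σ'`, `f : T[N] ⟶ X` not zero. `T ∈ J'`: `T ∈ P'(ψ) ⊆ P(≥ ψ)`, so `T[N] → X → R` is 0 and `f` comes from a nonzero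
`T → A ⊞ B`; `Hom(T, A) = 0` (`Rel.orth`), `Hom(T, B) = 0` as `B ∈ P'(ψ - 1)`. So `T ∈ Oth`. -/
def Stmt_RMR : Prop := ∀ (h : EllipticSetting C) (ψ : ℝ) (N : ℕ) (X A B : C)
  (σ σ' : StabCond C) (J J' : C → Prop), IsBlock σ ψ J → IsBlock σ' ψ J' → Rel ψ σ J σ' J' →
  Pos h σ' ψ N X → Top σ ψ N J X A B → Gen J' (B⟦(1 : ℤ)⟧) →
  (∀ E, σ'.sl.In (Set.Ici ψ) E → σ.sl.In (Set.Ici ψ) E) → Rem h ψ N X σ J σ'

/-- HZR (80 lines; uses OGN HFM), end of a lowering chain: `Hom(H', Gen J') = 0`. By HFM (1) for `σ'`: show `Hom(X, E[k]) = 0` for `E ∈ Gen J'`. `F → E → T[-1]` (`Lowd.obj`). `Hom(X, T[k - 1]) = 0`: HFM (2) for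
`σ`. `Hom(X, F[k]) = 0`: HFM (1) for `σ`, `H → F` factors through `M` (`Hom(K, F) = 0`), and `Hom(M, F) = Hom(M[-1], F[-1]) = 0`: `M[-1]`, `F ∈ P'(ψ)`. -/
def Stmt_HZR : Prop := ∀ (h : EllipticSetting C) (ψ : ℝ) (X : C) (k : ℕ) (H M H' : C)
  (σ σ' : StabCond C) (J J' : C → Prop), IsBlock σ ψ J → IsBlock σ' ψ J' →
  Piece σ ψ J X k H → Mq J H M → Pool.WS.Lowd (Gen J) (Gen J') → Gen J' (M⟦(-1 : ℤ)⟧) →
  Piece σ' ψ J' X k H' → ∀ E, Gen J' E → ∀ f : H' ⟶ E, f = 0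

/-! ### The case `M = 0` -/

/-- MZ1 (100 lines). (1) `Hom(H, A'[1]) = 0` as `Hom(H, A'') = 0`. (2) `Hom(H, A'[i]) = 0` for `i ≤ 1` and for `i ≥ 3` (`Hom(A', H[2 - i]) = 0` by phases, `finrank_ext_symm`), so
`χ(H, A') = dim Hom(A', H)` (`eulerForm` as a sum of `finrank`; see `AbSub.eulerChar`, `form_cls`). (3) all vanish. -/
def Stmt_MZ1 : Prop := ∀ (h : EllipticSetting C) (σ : StabCond C) (ψ : ℝ) (J : C → Prop)
  (H A' B A'' : C), IsBlock σ ψ J → σ.sl.In (Set.Ico ψ (ψ + 1)) H →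
  (∀ E, Gen J E → ∀ f : H ⟶ E, f = 0) → Tri A' B A'' → Gen J A' → Gen J A'' →
  (∀ f : H ⟶ B⟦(1 : ℤ)⟧, f = 0) → (∀ f : H ⟶ A'⟦(1 : ℤ)⟧, f = 0) ∧
  0 ≤ eulerForm h.k3 (cls H) (cls A') ∧
  (eulerForm h.k3 (cls H) (cls A') = 0 → Orth H A' ∧ Orth A' H)

/-- MZ2 (100 lines; uses MZ1). If `χ(H, E) = 0` for all `E ∈ Gen J`: all subobjects of `B` in `Gen J` are orthogonal to `H`, so all quotients of subobjects (`FinCat.induction`: `B ∈ Gen J₀`, `J₀` = the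
objects of `J` orthogonal to `H`; every subobject too). `T₀ ∈ J` not orthogonal to `H`: no object of `J₀` is isomorphic to `T₀`, so `χ(T₀, T) ≤ 0` for `T ∈ J₀` (`simple_form_le`). -/
def Stmt_MZ2 : Prop := ∀ (h : EllipticSetting C) (σ : StabCond C) (ψ : ℝ) (J : C → Prop)
  (H B T₀ : C), IsBlock σ ψ J → σ.sl.In (Set.Ico ψ (ψ + 1)) H →
  (∀ E, Gen J E → ∀ f : H ⟶ E, f = 0) → Gen J B → (∀ f : H ⟶ B⟦(1 : ℤ)⟧, f = 0) →
  (∀ E, Gen J E → eulerForm h.k3 (cls H) (cls E) = 0) → J T₀ → ¬ (Orth H T₀ ∧ Orth T₀ H) →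
  ∀ A' A'', Tri A' B A'' → Gen J A' → Gen J A'' → eulerForm h.k3 (cls T₀) (cls A') ≤ 0

/-- MZE (80 lines; uses MZ1 MZ2). `x` = the orthogonal projection of `- ρ (cls H)` to `EW (Gen J) ρ` (`Submodule.orthogonalProjection`, now `Submodule.starProjection`): `⟪x, ρ (cls E)⟫ = - χ(H, E)` for
`E ∈ Gen J`, so MZ1 gives `FB`. If `x = 0`, MZ2 with a `T₀` from `¬ OrthG J H`, `x = ρ (cls T₀)`, not 0 (norm 2). -/
def Stmt_MZE : Prop := ∀ (h : EllipticSetting C) (n : ℕ) (ρ : K0 C →+ Pool.WS.EU n),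
  Pool.WS.Gram h.k3 ρ → ∀ (σ : StabCond C) (ψ : ℝ) (J : C → Prop) (H B : C), SBlk σ ψ J →
  σ.sl.In (Set.Ico ψ (ψ + 1)) H → (∀ E, Gen J E → ∀ f : H ⟶ E, f = 0) → Gen J B →
  (∀ f : H ⟶ B⟦(1 : ℤ)⟧, f = 0) → ¬ OrthG J H →
  ∃ x ∈ Pool.WS.EW (Gen J) ρ, x ≠ 0 ∧ Pool.WS.FB (Gen J) (Pool.WS.fn ρ x) B

/-- RDB (80 lines; uses MZ1), radical block. `B` has a subobject `≅ S₀` with quotient in `Gen J` and (`Hom(H, B) = 0`) `Hom(H, S₀) = 0`, so `Hom(H, Gen J) = 0`. MZ1 with `A' ≅ S₀`: `χ = 0`. -/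
def Stmt_RDB : Prop := ∀ (h : EllipticSetting C) (σ : StabCond C) (ψ : ℝ) (J : C → Prop)
  (S₀ H B : C), IsBlock σ ψ J → J S₀ → cls S₀ ∈ radical (eulerForm h.k3) →
  (∀ S, J S → Nonempty (S ≅ S₀)) → σ.sl.In (Set.Ico ψ (ψ + 1)) H → Gen J B → ¬ IsZero B →
  (∀ f : H ⟶ B, f = 0) → (∀ f : H ⟶ B⟦(1 : ℤ)⟧, f = 0) → OrthG J H

/-! ### Perturbation -/

/-- TCX (100 lines; uses OGN). A `P(ψ + N)`-subobject `A'[N]` of `(A ⊞ B)[N]`: `A' ≅ A₁ ⊞ A₂` (`IsBlock.split`), `w A₂ = 0` for the part orthogonal to `J` (`w = fn ρ x`, `x` in the span of the `ρ (cls E)`, `χ(E, A₂) = 0`),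
and `A₁ → A' → A ⊞ B → B` is a monomorphism of `Gen J` (a kernel in `Gen J` maps to 0 in `A ⊞ B`): `w A₁ ≤ 0` by `FB`. `cls (A'[N]) = (-1)^N cls A'`. -/
def Stmt_TCX : Prop := ∀ (h : EllipticSetting C) (n : ℕ) (ρ : K0 C →+ Pool.WS.EU n),
  Pool.WS.Gram h.k3 ρ → ∀ (σ : StabCond C) (ψ : ℝ) (N : ℕ) (J : C → Prop) (X A B : C),
  SBlk σ ψ J → Top σ ψ N J X A B → ∀ x ∈ Pool.WS.EW (Gen J) ρ,
  Pool.WS.FB (Gen J) (Pool.WS.fn ρ x) B →
  TopCond σ (ψ + N) ((-1 : ℤ) ^ N • Pool.WS.fn ρ x) X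

/-- BCX (120 lines; uses OGN). Truncate `X` at `Ioi ψ`: `U → X → A₀`, `A₀ ∈ P(ψ)`. `A₀ → A''` a quotient in `P(ψ)`, `A'' ≅ A₁ ⊞ A₂`, `A₁ ∈ Gen J`, `w A₂ = 0`. `X → A₀ → A'' → A₁` factors through `M` (`Mq`), and `M → A₁` is an
epimorphism of `Gen J`: if `A₁ → Q` kills it, `X → A₀ → A₁ → Q` is 0, so `A₀ → A₁ → Q` is 0 (`Hom(U[1], Q) = 0`), so `A₁ → Q` is 0. `TB`: `0 ≤ w A₁`. -/
def Stmt_BCX : Prop := ∀ (h : EllipticSetting C) (n : ℕ) (ρ : K0 C →+ Pool.WS.EU n),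
  Pool.WS.Gram h.k3 ρ → ∀ (σ : StabCond C) (ψ : ℝ) (J : C → Prop) (X M : C),
  SBlk σ ψ J → σ.sl.In (Set.Ici ψ) X → Mq J X M → ∀ x ∈ Pool.WS.EW (Gen J) ρ,
  Pool.WS.TB (Gen J) (Pool.WS.fn ρ x) M → BotCond σ ψ (Pool.WS.fn ρ x) X

/-- RRX (60 lines; uses RR2 PRK TCX BCX). RR2 for `n = 1`. `x ≠ 0` is in `EW`, so `⟪x, ρ (cls E)⟫ ≠ 0` for some `E ∈ Gen J`, `im (cls E) = 0`: PRK. `rat`: `ρ r = 0` for `r` in the radical. -/
def Stmt_RRX : Prop := ∀ (h : EllipticSetting C) (n : ℕ) (ρ : K0 C →+ Pool.WS.EU n),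
  Pool.WS.Gram h.k3 ρ → ∀ (σ : StabCond C) (ψ : ℝ) (N : ℕ) (J : C → Prop) (X A B M : C),
  SBlk σ ψ J → Pos h σ ψ N X → Top σ ψ N J X A B → Mq J X M →
  ∀ x ∈ Pool.WS.EW (Gen J) ρ, x ≠ 0 → Pool.WS.FB (Gen J) (Pool.WS.fn ρ x) B →
  Pool.WS.TB (Gen J) (Pool.WS.fn ρ x) M → Prog h σ ψ N X

/-- MQX (60 lines; uses OGN HFM). `k = 0`: octahedron for `X → H → M` (`R = H`, as `Y = 0`: `Y ∈ P(< ψ)` is zero because `R ∈ P(≥ ψ)`..., or directly: `X → R`, `H → R` with cone `Y` orthogonal to `J`). `k > 0`: `M = 0`, `K = X`, HFM (2). -/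
def Stmt_MQX : Prop := ∀ (h : EllipticSetting C) (σ : StabCond C) (ψ : ℝ) (J : C → Prop)
  (X : C) (k : ℕ) (H M : C), IsBlock σ ψ J → σ.sl.In (Set.Ici ψ) X → Piece σ ψ J X k H →
  Mq J H M → (k = 0 → Mq J X M) ∧ (0 < k → Mq J X 0)

/-! ### Assembly -/

/-- MZF (60 lines; uses GRM TPX EXH LOP MZE MQX RRX), the case `Hom(H, Gen J) = 0`. If `OrthG J H`: LOP. Otherwise MZE with `B` from TPX, EXH; RRX with `M = 0` (`Mq J H 0` with `K = H`, MQX). -/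
def Stmt_MZF : Prop := ∀ (h : EllipticSetting C) (σ : StabCond C) (ψ : ℝ) (N : ℕ)
  (J : C → Prop) (X : C) (k : ℕ) (H : C), Good X → SBlk σ ψ J → Pos h σ ψ N X → k < N →
  Piece σ ψ J X k H → (∀ E, Gen J E → ∀ f : H ⟶ E, f = 0) →
  Prog h σ ψ N X ∨ LowOrth σ ψ J X (k + 1)

/-- STS (150 lines; uses GRM WSF MVS BKI HKP TPX HNX EXH CHL CHR RMR HZR RRX MQX MZF), the step for a spherical block. `Piece H`, `Top A B`, `IsBlock.quot` for `H`: `K → H → M`. `Hom(M, B) = 0`: EXH, `Hom(K[1], B) = 0` by phases. WSF for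
`i₀ = (σ, J)` (`σ₀ = σ`; `aff`: `IsBlock.affine` of `r3/Block2.lean`), `L = B`. (i) CHL (HNX), HKP for `σ_j`, HZR, MZF; `Prog` for `σ_j` gives `Prog` for `σ` (`Rel`). (ii) `S ∈ F`: `Hom(X, S) = 0`: for `k = 0` `Hom(H, S) = 0` as `Hom(M, S) = 0` (`M` is in the torsion class) (HFM is not needed: MQX
gives `Mq J X M`), for `k > 0` `Mq J X 0`. CHR, RMR. (iii) RRX, MQX (`k > 0`: `TB` of 0). -/
def Stmt_STS : Prop := ∀ (h : EllipticSetting C) (σ : StabCond C) (ψ : ℝ) (N : ℕ)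
  (J : C → Prop) (X : C) (k : ℕ), Good X → SBlk σ ψ J → Pos h σ ψ N X → k < N →
  LowOrth σ ψ J X k → Prog h σ ψ N X ∨ (∃ σ', Rem h ψ N X σ J σ') ∨
  ∃ σ' J', Rel ψ σ J σ' J' ∧ Pos h σ' ψ N X ∧ IsBlock σ' ψ J' ∧ LowOrth σ' ψ J' X (k + 1)

/-- STP (80 lines; uses HKP LOP TPX HNX EXH RDB STS), the step: `IsBlock.dich`. Radical block: if `B = 0` then `Rem` with `σ' = σ` (HNX); otherwise EXH, RDB, LOP with `σ' = σ`, `J' = J`.
Rigid objects of norm 2 stable of phase `ψ` are spherical (`AbSub.eulerChar`, `finrank_ext_symm`, phases). -/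
def Stmt_STP : Prop := ∀ (h : EllipticSetting C) (σ : StabCond C) (ψ : ℝ) (N : ℕ)
  (J : C → Prop) (X : C) (k : ℕ), Good X → IsBlock σ ψ J → Pos h σ ψ N X → k < N →
  LowOrth σ ψ J X k → Prog h σ ψ N X ∨ (∃ σ', Rem h ψ N X σ J σ') ∨
  ∃ σ' J', Rel ψ σ J σ' J' ∧ Pos h σ' ψ N X ∧ IsBlock σ' ψ J' ∧ LowOrth σ' ψ J' X (k + 1)

/-- INN (80 lines; uses SPT RLB STP). Induction on `N - k` for `LowOrth k`; `k = N`: SPT, or `Rem` with `σ' = σ` if no `T ∈ J` has a nonzero `T[N] → X`. `Rel` and then `Rem` give `Rem`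
(RLB); `Prog` goes back along `Rel`. `k = 0`: `U = X`, `Y = 0`. -/
def Stmt_INN : Prop := ∀ (h : EllipticSetting C) (σ : StabCond C) (ψ : ℝ) (N : ℕ)
  (J : C → Prop) (X : C), Good X → 1 ≤ N → IsBlock σ ψ J → Pos h σ ψ N X →
  Prog h σ ψ N X ∨ ∃ σ', Rem h ψ N X σ J σ'

/-- NUL (80 lines; uses NTP FCV INN). Strong induction on the rank of `ker im` and induction on `n` in `Cov n`: if no stable `T` has a nonzero `T[N] → X`, NTP; otherwise `J ∈ F` with `J T`, INN; in the case `Rem`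
`F.erase J` is a cover for `σ'`, the rank is the same. -/
def Stmt_NUL : Prop := ∀ (h : EllipticSetting C) (ψ : ℝ) (N : ℕ) (X : C), Good X → 1 ≤ N →
  ∀ σ : StabCond C, Pos h σ ψ N X → Done σ N X

/-- HLF (20 lines; uses SUM NUL): `Pool.Align.Stmt_HLF C`. -/
def Stmt_HLF : Prop := Pool.Align.Stmt_HLF C

end Pool.SR
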