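import Mathlib
import Pool.Agent.Work.MP_841263_sr.Interface

open CategoryTheory CategoryTheory.Limits CategoryTheory.Pretriangulated
open scoped ZeroObject Topology RealInnerProductSpace
open Filter

set_option backward.isDefEq.respectTransparency false
set_option backward.defeqAttrib.useBackward true
set_option linter.unusedSectionVars false

namespace Pool.SR

open Pool.Stab Pool.Tube Pool.Align Pool.Blk

universe v u

variable {C : Type u} [Category.{v} C] [Preadditive C] [HasZeroObject C] [HasShift C ℤ]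
  [∀ n : ℤ, (shiftFunctor C n).Additive] [Pretriangulated C] [IsTriangulated C] [Linear ℂ C]
  [∀ n : ℤ, (shiftFunctor C n).Linear ℂ]

theorem TCX_fn_zero {hK : IsK3 C} {n : ℕ} {ρ : K0 C →+ Pool.WS.EU n}
    (hG : Pool.WS.Gram hK ρ) {J : C → Prop} {x : Pool.WS.EU n}
    (hx : x ∈ Pool.WS.EW (Gen J) ρ) {y : K0 C}
    (hy : ∀ E, Gen J E → eulerForm hK (cls E) y = 0) : Pool.WS.fn ρ x y = 0 := by
  change ⟪x, ρ y⟫ = (0 : ℝ)
  unfold Pool.WS.EW at hx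
  induction hx using Submodule.span_induction with
  | mem v hv =>
    obtain ⟨E, hE, rfl⟩ := hv
    rw [hG.gram, hy E hE]
    simp
  | zero => simp
  | add a b _ _ ha hb => rw [inner_add_left, ha, hb, add_zero]
  | smul c a _ ha => rw [real_inner_smul_left, ha, mul_zero]

/-- The functional of a vector in the span of a block only sees the part in the block. -/
theorem TCX_split (h : EllipticSetting C) {n : ℕ} {ρ : K0 C →+ Pool.WS.EU n}
    (hG : Pool.WS.Gram h.k3 ρ) {σ : StabCond C} {ψ : ℝ} {J : C → Prop} (hJ : IsBlock σ ψ J)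
    {x : Pool.WS.EU n} (hx : x ∈ Pool.WS.EW (Gen J) ρ) {D : C} (hD : σ.sl.P ψ D) :
    ∃ A₁ A₂ : C, Gen J A₁ ∧ σ.sl.P ψ A₂ ∧ Nonempty (D ≅ A₁ ⊞ A₂) ∧
      Pool.WS.fn ρ x (cls D) = Pool.WS.fn ρ x (cls A₁) ∧
      (∀ E, Gen J E → ∀ f : A₂ ⟶ E, f = 0) ∧ ∀ E, Gen J E → ∀ f : E ⟶ A₂, f = 0 := by
  obtain ⟨A₁, A₂, hA₁, hA₂, ⟨e⟩⟩ := hJ.split h hD
  refine ⟨A₁, A₂, hA₁, (finCat_P h σ ψ).toAbSub.gen_mem (fun S hS => hS.1) hA₂, ⟨e⟩, ?_, ?_, ?_⟩
  · rw [cls_iso e, cls_biprod, map_add,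
      TCX_fn_zero hG hx (fun E hE => hJ.form_zero h hE hA₂), add_zero]
  · intro E hE f
    exact orth_zero (hJ.compl_orth hE hA₂).2 f
  · intro E hE f
    exact orth_zero (hJ.compl_orth hE hA₂).1 f

theorem p_TCX : Stmt_OGN C → Stmt_TCX C := by
  intro hOGN h n ρ hG σ ψ N J X A B hJ hTop x hx hFB
  obtain ⟨R, ⟨f, g, k, hT⟩, hR, hA, hAJ, hB⟩ := hTop
  have hfc := finCat_P h σ ψ
  have hAb := (hJ.toIsBlock.localSetting h (fun S hS => (hJ.sph S hS).2 1 (by norm_num) (by norm_num))).toFinCat.toAbSub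
  have hBP : σ.sl.P ψ B := hJ.toIsBlock.gen_P h hB
  have hABP : σ.sl.P ψ (A ⊞ B) := hfc.toAbSub.biprod_mem hA hBP
  have hABN : σ.sl.P (ψ + N) ((A ⊞ B)⟦(N : ℤ)⟧) := by
    simpa using P_shift_int σ hABP (N : ℤ)
  refine ⟨(A ⊞ B)⟦(N : ℤ)⟧, R, f, g, k, hT, hABN, hR, ?_⟩
  intro A' A'' a b c hT' hA' hA''
  obtain ⟨D, ⟨e⟩, hD⟩ : ∃ D : C, Nonempty (D⟦(N : ℤ)⟧ ≅ A') ∧ σ.sl.P ψ D := by
    refine ⟨A'⟦-(N : ℤ)⟧, ⟨shiftNegShift A' (N : ℤ)⟩, ?_⟩
    have := P_shift_int σ hA' (-(N : ℤ))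
    simpa using this
  have hcls : cls A' = ((N : ℤ).negOnePow : ℤ) • cls D := by rw [← cls_iso e, cls_shift]
  have hval : ((-1 : ℤ) ^ N • Pool.WS.fn ρ x) (cls A') = Pool.WS.fn ρ x (cls D) := by
    change (-1 : ℤ) ^ N • (Pool.WS.fn ρ x (cls A')) = _
    have h1 : (((N : ℤ).negOnePow : ℤˣ) : ℤ) = (-1) ^ N := by
      simp [Int.negOnePow_def]
    rw [hcls, map_zsmul, h1, smul_smul, ← mul_pow]
    simp
  rw [hval]
  obtain ⟨A₁, A₂, hA₁, hA₂, ⟨e'⟩, hw, -, -⟩ := TCX_split h hG hJ.toIsBlock hx hD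
  rw [hw]
  -- the map to `A ⊞ B`
  obtain ⟨m, hm⟩ : ∃ m : A₁ ⟶ A ⊞ B, m⟦(N : ℤ)⟧' =
      (biprod.inl ≫ e'.inv)⟦(N : ℤ)⟧' ≫ e.hom ≫ a :=
    ⟨(shiftFunctor C (N : ℤ)).preimage _, Functor.map_preimage _ _⟩
  obtain ⟨K, I, Q, k', p, i, q, hs1, hs2, hpi⟩ := hAb.kiq hA₁ hB (m ≫ biprod.snd)
  have hk1 : k' ≫ m = 0 := by
    apply biprod.hom_ext
    · rw [zero_comp]
      exact orth_zero (hOGN J A hAJ K hs1.1).2 _
    · rw [zero_comp, Category.assoc, ← hpi, ← Category.assoc, hs1.comp_zero, zero_comp]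
  have hk2 : k' ≫ biprod.inl ≫ e'.inv = 0 := by
    apply (shiftFunctor C (N : ℤ)).map_injective
    rw [Functor.map_zero]
    have h1 : ((shiftFunctor C (N : ℤ)).map (k' ≫ biprod.inl ≫ e'.inv) ≫ e.hom) ≫ a = 0 := by
      rw [Functor.map_comp, Category.assoc, Category.assoc, ← hm, ← Functor.map_comp, hk1,
        Functor.map_zero]
    obtain ⟨a', c', hinv⟩ := exists_invrot hT'
    obtain ⟨r, hr⟩ := Triangle.coyoneda_exact₂ _ hinv _ h1
    have hKP : σ.sl.P (ψ + N) ((shiftFunctor C (N : ℤ)).obj K) := by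
      simpa using P_shift_int σ (hJ.toIsBlock.gen_P h hs1.1) (N : ℤ)
    have hA1 : σ.sl.P (ψ + N - 1) (A''⟦(-1 : ℤ)⟧) := by
      have := P_shift_int σ hA'' (-1)
      simpa [sub_eq_add_neg] using this
    have hr0 : r = 0 := Slicing.In.hom_zero (Slicing.in_of_P hKP (Set.mem_singleton _))
      (Slicing.in_of_P hA1 (Set.mem_singleton _)) (by
        rintro φ hφ φ' hφ'
        rw [Set.mem_singleton_iff] at hφ hφ'
        rw [hφ, hφ']
        linarith) r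
    rw [hr0, zero_comp] at hr
    rw [← cancel_mono e.hom, hr, zero_comp]
  have hk3 : k' = 0 := by
    have : k' ≫ (biprod.inl ≫ e'.inv) ≫ (e'.hom ≫ biprod.fst) = k' := by simp
    rw [← this, ← Category.assoc, hk2, zero_comp]
  have hK0 : IsZero K := isZero_of_SES_left hAb hs1 hk3
  have hcI : cls A₁ = cls I := by rw [hs1.cls_eq, cls_of_isZero hK0, zero_add]
  rw [hcI]
  exact hFB.2 _ hs2.left_mem

end Pool.SR
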