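import Mathlib
import Pool.Agent.Work.MP_841263_sr.B_TCX

open CategoryTheory CategoryTheory.Limits CategoryTheory.Pretriangulated
open scoped ZeroObject Topology RealInnerProductSpace
open Filter

set_option backward.isDefEq.respectTransparency false
set_option backward.defeqAttrib.useBackward true
set_option linter.unusedSectionVars false

namespace Pool.SR

open Pool.Stab Pool.Tube Pool.Align Pool.Blk

universe v u

variable {C : Type u} [Category.{v} C] [Preadditive C] [HasZeroObject C] [HasShift C ℤ]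
  [∀ n : ℤ, (shiftFunctor C n).Additive] [Pretriangulated C] [IsTriangulated C] [Linear ℂ C]
  [∀ n : ℤ, (shiftFunctor C n).Linear ℂ]

theorem p_BCX : Stmt_OGN C → Stmt_BCX C := by
  intro _ h n ρ hG σ ψ J X M hJ hX hMq x hx hTB
  obtain ⟨K, ⟨a, m, w, hKM⟩, hM, hK⟩ := hMq
  have hfc := finCat_P h σ ψ
  have hAb := (hJ.toIsBlock.localSetting h
    (fun S hS => (hJ.sph S hS).2 1 (by norm_num) (by norm_num))).toFinCat.toAbSub
  obtain ⟨U, A₀, f, g, k, hT, hU, hA₀⟩ := σ.sl.exists_trunc X (isUpperSet_Ioi ψ)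
  have hA3 : σ.sl.In (Set.Ici ψ) A₀ := by
    refine Slicing.In.ext_upper (isUpperSet_Ici ψ) (rot_mk hT) hX ?_
    refine (hU.shift_one).mono ?_
    rintro _ ⟨y, hy, rfl⟩
    have hy' : ψ < y := hy
    show ψ ≤ y + 1
    linarith
  have hAP : σ.sl.P ψ A₀ := by
    refine Slicing.In.P_of_singleton
      ((Slicing.In.inter (isUpperSet_Ici ψ) (isUpperSet_Ioi ψ) hA3 hA₀).mono ?_)
    rintro y ⟨hy1, hy2⟩
    have a1 : ψ ≤ y := hy1
    have a2 : ¬ ψ < y := hy2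
    rw [Set.mem_singleton_iff]
    linarith [not_lt.1 a2]
  refine ⟨U, A₀, f, g, k, hT, hU, hAP, ?_⟩
  intro A' A'' a' b c hT' hA' hA''
  obtain ⟨A₁, A₂, hA₁, hA₂, ⟨e⟩, hw, -, -⟩ := TCX_split h hG hJ.toIsBlock hx hA''
  rw [hw]
  have hA₁P : σ.sl.P ψ A₁ := hJ.toIsBlock.gen_P h hA₁
  -- the map from `M`
  obtain ⟨r, hr⟩ := Triangle.yoneda_exact₂ _ hKM (g ≫ b ≫ e.hom ≫ biprod.fst)
    (hK A₁ hA₁ _)
  have hr' : g ≫ b ≫ e.hom ≫ biprod.fst = m ≫ r := hr
  obtain ⟨K', I, Q, k', p, i, q, hs1, hs2, hpi⟩ := hAb.kiq hM hA₁ r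
  have hQP : σ.sl.P ψ Q := hJ.toIsBlock.gen_P h hs2.2.2.1
  have h1 : g ≫ (b ≫ e.hom ≫ biprod.fst ≫ q) = 0 := by
    have : g ≫ (b ≫ e.hom ≫ biprod.fst ≫ q) = (g ≫ b ≫ e.hom ≫ biprod.fst) ≫ q := by
      simp only [Category.assoc]
    rw [this, hr', ← hpi, Category.assoc, Category.assoc, hs2.comp_zero, comp_zero, comp_zero]
  have h2 : b ≫ e.hom ≫ biprod.fst ≫ q = 0 := by
    obtain ⟨r', hr'⟩ := Triangle.yoneda_exact₂ _ (rot_mk hT) _ h1
    have hr0 : r' = 0 := by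
      refine Slicing.In.hom_zero (hU.shift_one) (Slicing.in_of_P hQP (Set.mem_singleton _)) ?_ r'
      rintro _ ⟨y, hy, rfl⟩ z hz
      have hy' : ψ < y := hy
      rw [Set.mem_singleton_iff] at hz
      rw [hz]
      show ψ < y + 1
      linarith
    rw [hr', hr0, comp_zero]
  have hSE : SES (σ.sl.P ψ) a' b := ⟨hA', hAP, hA'', c, hT'⟩
  have h3 : e.hom ≫ biprod.fst ≫ q = 0 := hSE.epi hfc.toAbSub hQP _ h2
  have h4 : q = 0 := by
    have : (biprod.inl ≫ e.inv) ≫ (e.hom ≫ biprod.fst ≫ q) = q := by simp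
    rw [← this, h3, comp_zero]
  have hQ0 : IsZero Q := isZero_of_SES_right hAb hs2 h4
  have hcI : cls A₁ = cls I := by rw [hs2.cls_eq, cls_of_isZero hQ0, add_zero]
  rw [hcI]
  exact hTB.2 _ ⟨K', I, k', p, hs1, rfl⟩

end Pool.SR
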