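import Mathlib
import Pool.Agent.Work.MP_841263_sr.Interface

/-!
# Common lemmas for the blocks of helper42: orthogonality, truncations
-/

open CategoryTheory CategoryTheory.Limits CategoryTheory.Pretriangulated
open scoped ZeroObject Topology RealInnerProductSpace
open Filter

set_option backward.isDefEq.respectTransparency false
set_option backward.defeqAttrib.useBackward true
set_option linter.unusedSectionVars false

namespace Pool.SR

open Pool.Stab Pool.Tube Pool.Align Pool.Blk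

universe v u

variable {C : Type u} [Category.{v} C] [Preadditive C] [HasZeroObject C] [HasShift C ℤ]
  [∀ n : ℤ, (shiftFunctor C n).Additive] [Pretriangulated C] [IsTriangulated C] [Linear ℂ C]
  [∀ n : ℤ, (shiftFunctor C n).Linear ℂ]

lemma orthL_iso {X Y E : C} (h : Orth X E) (e : X ≅ Y) : Orth Y E := by
  intro n f
  rw [← cancel_epi e.hom, h n (e.hom ≫ f), comp_zero]

lemma orthL_ext {E X Y Z : C} {f : X ⟶ Y} {g : Y ⟶ Z} {h : Z ⟶ X⟦(1 : ℤ)⟧}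
    (hT : Triangle.mk f g h ∈ distTriang C) (hX : Orth X E) (hZ : Orth Z E) : Orth Y E := by
  intro n a
  exact hom_zero_of_ext₁ hT (fun b => hX n b) (fun b => hZ n b) a

lemma orthL_shift {X E : C} (h : Orth X E) (m : ℤ) : Orth (X⟦m⟧) E :=
  fun n f => orth_shift h m n f

lemma orthL_third {E X Y Z : C} {f : X ⟶ Y} {g : Y ⟶ Z} {h : Z ⟶ X⟦(1 : ℤ)⟧}
    (hT : Triangle.mk f g h ∈ distTriang C) (hX : Orth X E) (hY : Orth Y E) : Orth Z E :=
  orthL_ext (rot_mk hT) hY (orthL_shift hX 1)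

lemma orthL_first {E X Y Z : C} {f : X ⟶ Y} {g : Y ⟶ Z} {h : Z ⟶ X⟦(1 : ℤ)⟧}
    (hT : Triangle.mk f g h ∈ distTriang C) (hY : Orth Y E) (hZ : Orth Z E) : Orth X E := by
  obtain ⟨a', c', hinv⟩ := exists_invrot hT
  exact orthL_ext hinv (orthL_shift hZ (-1)) hY

lemma OrthG.iso {J : C → Prop} {X Y : C} (h : OrthG J X) (e : X ≅ Y) : OrthG J Y :=
  fun S hS => ⟨orthL_iso (h S hS).1 e, (h S hS).2.iso e⟩

lemma OrthG.shift {J : C → Prop} {X : C} (h : OrthG J X) (m : ℤ) : OrthG J (X⟦m⟧) :=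
  fun S hS => ⟨orthL_shift (h S hS).1 m, (h S hS).2.shift m⟩

lemma OrthG.ext {J : C → Prop} {X Y Z : C} {f : X ⟶ Y} {g : Y ⟶ Z} {k : Z ⟶ X⟦(1 : ℤ)⟧}
    (hT : Triangle.mk f g k ∈ distTriang C) (hX : OrthG J X) (hZ : OrthG J Z) : OrthG J Y :=
  fun S hS => ⟨orthL_ext hT (hX S hS).1 (hZ S hS).1, (hX S hS).2.ext hT (hZ S hS).2⟩

lemma OrthG.third {J : C → Prop} {X Y Z : C} {f : X ⟶ Y} {g : Y ⟶ Z} {k : Z ⟶ X⟦(1 : ℤ)⟧}
    (hT : Triangle.mk f g k ∈ distTriang C) (hX : OrthG J X) (hY : OrthG J Y) : OrthG J Z :=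
  OrthG.ext (rot_mk hT) hY (hX.shift 1)

lemma OrthG.first {J : C → Prop} {X Y Z : C} {f : X ⟶ Y} {g : Y ⟶ Z} {k : Z ⟶ X⟦(1 : ℤ)⟧}
    (hT : Triangle.mk f g k ∈ distTriang C) (hY : OrthG J Y) (hZ : OrthG J Z) : OrthG J X := by
  obtain ⟨a', c', hinv⟩ := exists_invrot hT
  exact OrthG.ext hinv (hZ.shift (-1)) hY

lemma orth_of_isZero_left {X E : C} (h : IsZero X) : Orth X E :=
  fun _ _ => h.eq_of_src _ _

lemma OrthG.of_isZero {J : C → Prop} {X : C} (h : IsZero X) : OrthG J X :=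
  fun _ _ => ⟨orth_of_isZero_left h, Orth.of_isZero h⟩

/-- Truncations are unique. -/
lemma trunc_iso (σ : StabCond C) {s : ℝ} {X U Y U' Y' : C} {u : U ⟶ X} {y : X ⟶ Y}
    {k : Y ⟶ U⟦(1 : ℤ)⟧} (hT : Triangle.mk u y k ∈ distTriang C) {u' : U' ⟶ X} {y' : X ⟶ Y'}
    {k' : Y' ⟶ U'⟦(1 : ℤ)⟧} (hT' : Triangle.mk u' y' k' ∈ distTriang C)
    (hU : σ.sl.In (Set.Ici s) U) (hY : σ.sl.In (Set.Iio s) Y)
    (hU' : σ.sl.In (Set.Ici s) U') (hY' : σ.sl.In (Set.Iio s) Y') :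
    ∃ e : Y ≅ Y', y ≫ e.hom = y' := by
  have key : ∀ {U Y U' Y' : C} {u : U ⟶ X} {y : X ⟶ Y}
    {k : Y ⟶ U⟦(1 : ℤ)⟧} (_ : Triangle.mk u y k ∈ distTriang C) {y' : X ⟶ Y'}
    (_ : σ.sl.In (Set.Ici s) U) (_ : σ.sl.In (Set.Iio s) Y'), ∃ g : Y ⟶ Y', y' = y ≫ g := by
    intro U Y U' Y' u y k hT y' hU hY'
    have h1 : u ≫ y' = 0 := by
      refine hU.hom_zero hY' ?_ _
      intro a ha b hb
      have ha' : s ≤ a := ha
      have hb' : b < s := hb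
      linarith
    exact Triangle.yoneda_exact₂ _ hT y' h1
  have key2 : ∀ {U Y : C} {u : U ⟶ X} {y : X ⟶ Y} {k : Y ⟶ U⟦(1 : ℤ)⟧}
    (_ : Triangle.mk u y k ∈ distTriang C) (_ : σ.sl.In (Set.Ici s) U)
    (_ : σ.sl.In (Set.Iio s) Y) (g : Y ⟶ Y), y ≫ g = y → g = 𝟙 Y := by
    intro U Y u y k hT hU hY g hg
    have h1 : y ≫ (g - 𝟙 Y) = 0 := by
      rw [Preadditive.comp_sub, hg, Category.comp_id, sub_self]
    obtain ⟨g', hg'⟩ := Triangle.yoneda_exact₃ _ hT (g - 𝟙 Y) h1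
    have h2 : g' = 0 := by
      refine (hU.shift_upper (isUpperSet_Ici s)).hom_zero hY ?_ _
      intro a ha b hb
      have ha' : s ≤ a := ha
      have hb' : b < s := hb
      linarith
    rw [h2, comp_zero] at hg'
    exact sub_eq_zero.1 hg'
  obtain ⟨g, hg⟩ := key (U' := U') hT hU hY'
  obtain ⟨g', hg'⟩ := key (U' := U) hT' hU' hY
  refine ⟨⟨g, g', ?_, ?_⟩, hg.symm⟩
  · refine key2 hT hU hY _ ?_
    rw [← Category.assoc, ← hg, ← hg']
  · refine key2 hT' hU' hY' _ ?_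
    rw [← Category.assoc, ← hg', ← hg]

end Pool.SR
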