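import Mathlib
import Pool.Agent.Work.MP_841263_sr.Lem42

open CategoryTheory CategoryTheory.Limits CategoryTheory.Pretriangulated
open scoped ZeroObject Topology RealInnerProductSpace
open Filter

set_option backward.isDefEq.respectTransparency false
set_option backward.defeqAttrib.useBackward true
set_option linter.unusedSectionVars false

namespace Pool.SR

open Pool.Stab Pool.Tube Pool.Align Pool.Blk

universe v u

variable {C : Type u} [Category.{v} C] [Preadditive C] [HasZeroObject C] [HasShift C ℤ]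
  [∀ n : ℤ, (shiftFunctor C n).Additive] [Pretriangulated C] [IsTriangulated C] [Linear ℂ C]
  [∀ n : ℤ, (shiftFunctor C n).Linear ℂ]

theorem p_BKI : Stmt_BKI C := by
  intro h σ ψ J
  have hfc := finCat_P h σ ψ
  constructor
  · intro hJ
    refine ⟨⟨fun X Y e hX => hJ.iso X Y ⟨e⟩ hX, hJ.stable, hJ.sph, hJ.orth,
      hJ.toIsBlock.connCls h⟩, hJ.ne⟩
  · rintro ⟨hJ, hne⟩
    have hrig : ∀ S, J S → Rigid S := fun S hS f => (hJ.sph S hS).2 1 (by norm_num) (by norm_num) f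
    refine ⟨⟨hne, hJ.stable, fun S S' ⟨e⟩ hS => hJ.iso S S' e hS, hJ.orth, ?_⟩, hJ.sph⟩
    intro G' hsub hiso ⟨S₀, hS₀⟩ hext T hT
    have h1 : {x | ∃ S, G' S ∧ cls S = x} = {x | ∃ S, J S ∧ cls S = x} := by
      refine hJ.conn _ ?_ ⟨cls S₀, S₀, hS₀, rfl⟩ ?_
      · rintro x ⟨S, hS, rfl⟩
        exact ⟨S, hsub S hS, rfl⟩
      · rintro _ ⟨S, hS, rfl⟩ _ ⟨U, hU, rfl⟩ hnU
        have hGU : ¬ G' U := fun hc => hnU ⟨U, hc, rfl⟩
        have hni : ¬ Nonempty (S ≅ U) := fun e => hGU (hiso S U e hS)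
        obtain ⟨h2, -, -⟩ := hfc.toAbSub.simple_form_le h.k3 (hJ.stable S (hsub S hS))
          (hJ.stable U hU) hni
        rw [h2, finrank_of_forall_zero (hext S U hS hU hGU)]
        simp
    have h2 : cls T ∈ {x | ∃ S, G' S ∧ cls S = x} := by
      rw [h1]
      exact ⟨T, hT, rfl⟩
    obtain ⟨S, hS, hc⟩ := h2
    have h3 := hfc.toAbSub.iso_of_cls h.k3 (hJ.stable S (hsub S hS)) (hJ.stable T hT)
      (hrig S (hsub S hS)) hc
    exact hiso S T h3 hS

end Pool.SR
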