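import Pool.Agent.Work.MP_841263_sr.B_CHR

/-! # From the closed to the half open interval, block CHL (helper49): a chain of lowerings -/

open CategoryTheory CategoryTheory.Limits CategoryTheory.Pretriangulated
open scoped ZeroObject Topology RealInnerProductSpace
open Filter

set_option backward.isDefEq.respectTransparency false
set_option backward.defeqAttrib.useBackward true
set_option linter.unusedSectionVars false

namespace Pool.SR

open Pool.Stab Pool.Tube Pool.Align Pool.Blk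

universe v u

variable {C : Type u} [Category.{v} C] [Preadditive C] [HasZeroObject C] [HasShift C ℤ]
  [∀ n : ℤ, (shiftFunctor C n).Additive] [Pretriangulated C] [IsTriangulated C] [Linear ℂ C]
  [∀ n : ℤ, (shiftFunctor C n).Linear ℂ]

lemma CHL_tri (X Z : C) (hZ : IsZero Z) :
    Triangle.mk (𝟙 X) (0 : X ⟶ Z) (0 : Z ⟶ X⟦(1 : ℤ)⟧) ∈ distTriang C := by
  refine isomorphic_distinguished _ (contractible_distinguished X) _ ?_
  exact Triangle.isoMk _ _ (Iso.refl X) (Iso.refl X) (hZ.iso (isZero_zero C))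
    (by simp) (by simp) (by simp)

lemma CHL_zero : IsZero ((0 : C)⟦(-1 : ℤ)⟧) :=
  (shiftFunctor C (-1 : ℤ)).map_isZero (isZero_zero C)

lemma CHL_refl (A : C → Prop) (hA : AbSub A) : Pool.WS.Lowd A A := by
  constructor
  · intro X hX
    exact ⟨X, 0, 𝟙 X, 0, 0, CHL_tri X _ CHL_zero, hX, hX, hA.zero_mem (isZero_zero C),
      hA.zero_mem CHL_zero⟩
  · intro M hM
    exact ⟨0, M, 0, 𝟙 M, 0, contractible_distinguished₁ M, hA.zero_mem (isZero_zero C),
      hA.zero_mem CHL_zero, hM, hM⟩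

lemma CHL_rigid {σ : StabCond C} {ψ : ℝ} {J : C → Prop} (hJ : SBlk σ ψ J) :
    ∀ S, J S → Rigid S := fun S hS f => (hJ.sph S hS).2 1 (by norm_num) (by norm_num) f

theorem p_CHL : Pool.WS.Stmt_LWS C → Stmt_BKI C → Stmt_LSC C → Stmt_RLO C → Stmt_STL C →
    Stmt_CHL C := by
  intro hLWS hBKI hLSC hRLO hSTL h ψ N X k σ₀ i₀ j T hch hT hne hpos hlow
  have hb₀ : SBlk i₀.σ ψ i₀.J := (hBKI h i₀.σ ψ i₀.J).2 ⟨i₀.blk, hne⟩
  have hL₀ := hb₀.toIsBlock.localSetting h (CHL_rigid hb₀)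
  induction hch with
  | refl =>
    exact ⟨hpos, hlow, hb₀, CHR_refl ψ i₀.σ i₀.J, CHL_refl _ hL₀.toFinCat.toAbSub⟩
  | @step i j S _ hG hTS hm ih =>
    obtain ⟨hp, hl, hb, hr, hw⟩ := ih
    have hs := (hLSC h ψ σ₀ i j S hG).1 hm
    have hLi := hb.toIsBlock.localSetting h (CHL_rigid hb)
    have hLj := hs.blk.toIsBlock.localSetting h (CHL_rigid hs.blk)
    obtain ⟨hp', hl'⟩ := hSTL h ψ N X k i.σ j.σ i.J j.J S hb hG hs hp hl (hT S hTS).2
    exact ⟨hp', hl', hs.blk, CHR_trans hr (hRLO h ψ i.σ j.σ i.J j.J S hb hG hs),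
      hLWS (Gen i₀.J) (Gen i.J) (Gen j.J) _ hL₀.toFinCat.toAbSub hLi.toFinCat
        hLj.toFinCat.toAbSub hw S (hLi.simple S hG) (hT S hTS).1 hs.down⟩

end Pool.SR
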