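import Pool.Agent.Work.MP_841263_sr.Interface

/-! # From the closed to the half open interval, block CHR (helper77): a chain of raisings -/

open CategoryTheory CategoryTheory.Limits CategoryTheory.Pretriangulated
open scoped ZeroObject Topology RealInnerProductSpace
open Filter

set_option backward.isDefEq.respectTransparency false
set_option backward.defeqAttrib.useBackward true
set_option linter.unusedSectionVars false

namespace Pool.SR

open Pool.Stab Pool.Tube Pool.Align Pool.Blk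

universe v u

variable {C : Type u} [Category.{v} C] [Preadditive C] [HasZeroObject C] [HasShift C ℤ]
  [∀ n : ℤ, (shiftFunctor C n).Additive] [Pretriangulated C] [IsTriangulated C] [Linear ℂ C]
  [∀ n : ℤ, (shiftFunctor C n).Linear ℂ]

theorem CHR_refl (ψ : ℝ) (σ : StabCond C) (J : C → Prop) : Rel ψ σ J σ J :=
  ⟨Joined.refl σ, fun _ => rfl, fun _ => Iff.rfl, fun _ h => h⟩

theorem CHR_trans {ψ : ℝ} {σ₁ σ₂ σ₃ : StabCond C} {J₁ J₂ J₃ : C → Prop}
    (h : Rel ψ σ₁ J₁ σ₂ J₂) (h' : Rel ψ σ₂ J₂ σ₃ J₃) : Rel ψ σ₁ J₁ σ₃ J₃ :=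
  ⟨h.joined.trans h'.joined, fun x => (h'.im x).trans (h.im x),
    fun T => (h'.oth T).trans (h.oth T), fun Y hY => h'.orth Y (h.orth Y hY)⟩

theorem p_CHR : Stmt_BKI C → Stmt_LSC C → Stmt_RHI C → Stmt_STR C → Stmt_CHR C := by
  intro hBKI hLSC hRHI hSTR h ψ N X σ₀ i₀ j T hch hT hne hpos
  induction hch with
  | refl => exact ⟨hpos, (hBKI h i₀.σ ψ i₀.J).2 ⟨i₀.blk, hne⟩, CHR_refl ψ i₀.σ i₀.J, fun _ hE => hE⟩
  | @step i j S _ hG hTS hm ih =>
    obtain ⟨hp, hb, hr, hge⟩ := ih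
    have hs := (hLSC h ψ σ₀ i j S hG).2 hm
    obtain ⟨hp', hge'⟩ := hSTR h ψ N X i.σ j.σ i.J j.J S hs hp (hT S hTS)
    exact ⟨hp', hs.blk, CHR_trans hr (hRHI h ψ i.σ j.σ i.J j.J S hb hG hs),
      fun E hE => hge E (hge' E hE)⟩

end Pool.SR
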