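import Mathlib
import Pool.Agent.Work.MP_841263_sr.Interface

/-!
# EXH: no morphisms from the first piece meeting the block to the top part
-/

open CategoryTheory CategoryTheory.Limits CategoryTheory.Pretriangulated
open scoped ZeroObject Topology RealInnerProductSpace
open Filter

set_option backward.isDefEq.respectTransparency false
set_option backward.defeqAttrib.useBackward true
set_option linter.unusedSectionVars false

namespace Pool.SR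

open Pool.Stab Pool.Tube Pool.Align Pool.Blk

universe v u

variable {C : Type u} [Category.{v} C] [Preadditive C] [HasZeroObject C] [HasShift C ℤ]
  [∀ n : ℤ, (shiftFunctor C n).Additive] [Pretriangulated C] [IsTriangulated C] [Linear ℂ C]
  [∀ n : ℤ, (shiftFunctor C n).Linear ℂ]

lemma EXH_in_shift_int (σ : StabCond C) {I : Set ℝ} {X : C} (h : σ.sl.In I X) (n : ℤ) :
    σ.sl.In ((· + (n : ℝ)) '' I) (X⟦n⟧) := by
  obtain ⟨l, hl, hI⟩ := h
  refine ⟨_, hl.shift_int (fun φ X n hX => P_shift_int σ hX n) n, ?_⟩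
  intro χ hχ
  obtain ⟨ω, hω, rfl⟩ := List.mem_map.1 hχ
  exact ⟨ω, hI ω hω, rfl⟩

lemma EXH_in_shift_Ici (σ : StabCond C) {s : ℝ} {X : C} (h : σ.sl.In (Set.Ici s) X) (n : ℤ) {r : ℝ}
    (hr : r ≤ s + n) : σ.sl.In (Set.Ici r) (X⟦n⟧) := by
  refine (EXH_in_shift_int σ h n).mono ?_
  rintro _ ⟨x, hx, rfl⟩
  have hx' : s ≤ x := hx
  show r ≤ x + n
  linarith

lemma EXH_in_shift_Iio (σ : StabCond C) {s : ℝ} {X : C} (h : σ.sl.In (Set.Iio s) X) (n : ℤ) {r : ℝ}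
    (hr : s + n ≤ r) : σ.sl.In (Set.Iio r) (X⟦n⟧) := by
  refine (EXH_in_shift_int σ h n).mono ?_
  rintro _ ⟨x, hx, rfl⟩
  have hx' : x < s := hx
  show x + n < r
  linarith

/-- A morphism from `X` to an object `Y` with `Hom(U, Y) = 0` factors through `D`. -/
lemma EXH_factor {X U D Y : C} {u : U ⟶ X} {d : X ⟶ D} {c : D ⟶ U⟦(1 : ℤ)⟧}
    (hT : Triangle.mk u d c ∈ distTriang C) {g : X ⟶ Y} (hg : u ≫ g = 0) :
    ∃ g' : D ⟶ Y, g = d ≫ g' :=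
  Triangle.yoneda_exact₂ _ hT g hg

/-- The core of (1): `D`, `D'` are the parts of `X` with phases `< s`, `< s + 1`; `Z` is the part of
`X'` of the largest phase `z`, `Zw` a direct summand of `Z`. -/
theorem EXH_hom_zero_core (σ : StabCond C) {s z : ℝ} {j : ℤ} (hj : z + j ≤ s + 1)
    {X X' U D U' D' Z B Zw : C} {u : U ⟶ X} {d : X ⟶ D} {c : D ⟶ U⟦(1 : ℤ)⟧}
    (hT : Triangle.mk u d c ∈ distTriang C) (hU : σ.sl.In (Set.Ici s) U)
    {u' : U' ⟶ X} {d' : X ⟶ D'} {c' : D' ⟶ U'⟦(1 : ℤ)⟧}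
    (hT' : Triangle.mk u' d' c' ∈ distTriang C) (hU' : σ.sl.In (Set.Ici (s + 1)) U')
    {a : Z ⟶ X'} {b : X' ⟶ B} {c'' : B ⟶ Z⟦(1 : ℤ)⟧}
    (hZ : Triangle.mk a b c'' ∈ distTriang C) (hB : σ.sl.In (Set.Iio z) B)
    (i : Zw ⟶ Z) (p : Z ⟶ Zw) (hip : i ≫ p = 𝟙 Zw) (hZw : σ.sl.P z Zw)
    (horth : ∀ f : D ⟶ Zw⟦j⟧, f = 0) (e : D' ⟶ Zw⟦j⟧)
    (he : d' ≫ e ≫ i⟦j⟧' ≫ a⟦j⟧' = 0) : e = 0 := by
  obtain ⟨β, γ, hinv⟩ := exists_invrot (Triangle.shift_distinguished _ hZ j)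
  set f : X ⟶ Z⟦j⟧ := d' ≫ e ≫ i⟦j⟧' with hf
  have h1 : f ≫ (j.negOnePow • (a⟦j⟧')) = 0 := by
    rw [Units.smul_def, Preadditive.comp_zsmul, hf, Category.assoc, Category.assoc, he, smul_zero]
  obtain ⟨g, hg⟩ := Triangle.coyoneda_exact₂ _ hinv f h1
  have h2 : u ≫ g = 0 := by
    refine hU.hom_zero (EXH_in_shift_Iio σ (EXH_in_shift_Iio σ hB j le_rfl) (-1) (r := s) ?_) ?_ _
    · push_cast
      linarith
    · intro x hx y hy
      have hx' : s ≤ x := hx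
      have hy' : y < s := hy
      linarith
  obtain ⟨g', hg'⟩ := EXH_factor hT h2
  have h3 : d' ≫ e = 0 := by
    have h4 : f ≫ p⟦j⟧' = d' ≫ e := by
      rw [hf, Category.assoc, Category.assoc, ← Functor.map_comp, hip,
        CategoryTheory.Functor.map_id, Category.comp_id]
    rw [← h4, hg, hg']
    have h5 : g' ≫ β ≫ p⟦j⟧' = 0 := horth _
    show ((d ≫ g') ≫ β) ≫ p⟦j⟧' = 0
    rw [Category.assoc, Category.assoc, h5, comp_zero]
  obtain ⟨e', he'⟩ := Triangle.yoneda_exact₃ _ hT' e h3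
  have h6 : e' = 0 := by
    refine (EXH_in_shift_Ici σ hU' 1 (r := s + 2) ?_).hom_zero
      (Slicing.in_of_P (I := Set.Iio (s + 2)) (P_shift_int σ hZw j) ?_) ?_ e'
    · push_cast
      linarith
    · show z + j < s + 2
      linarith
    · intro x hx y hy
      have hx' : s + 2 ≤ x := hx
      have hy' : y < s + 2 := hy
      linarith
  rw [he', h6, comp_zero]

/-- The self morphism of `X` in the critical degree vanishes. -/
lemma EXH_self {X R Z : C} (hX : Good X) {j : ℤ} (hj : j ≤ 0) {a : Z ⟶ X} {d' : X ⟶ R}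
    (had : a ≫ d' = 0) (q : R ⟶ Z⟦j⟧) : d' ≫ q ≫ a⟦j⟧' = 0 := by
  rcases lt_or_eq_of_le hj with h1 | rfl
  · exact hX.neg j h1 _
  · set z : Z⟦(0 : ℤ)⟧ ⟶ Z := (shiftFunctorZero C ℤ).hom.app Z with hz
    have h2 : a⟦(0 : ℤ)⟧' ≫ (shiftFunctorZero C ℤ).hom.app X = z ≫ a :=
      (shiftFunctorZero C ℤ).hom.naturality a
    have h3 : (d' ≫ q ≫ a⟦(0 : ℤ)⟧') ≫ (shiftFunctorZero C ℤ).hom.app X = 0 := by
      have h4 : (d' ≫ q ≫ a⟦(0 : ℤ)⟧') ≫ (shiftFunctorZero C ℤ).hom.app X =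
          (d' ≫ q ≫ z) ≫ a := by
        simp only [Category.assoc, h2]
      rw [h4]
      refine hX.red _ ?_
      have h5 : ((d' ≫ q ≫ z) ≫ a) ≫ (d' ≫ q ≫ z) ≫ a =
          (d' ≫ q ≫ z) ≫ (a ≫ d') ≫ q ≫ z ≫ a := by
        simp only [Category.assoc]
      rw [h5, had]
      simp
    rw [← cancel_mono ((shiftFunctorZero C ℤ).hom.app X), h3, zero_comp]

lemma EXH_main (hOGN : Stmt_OGN C) (h : EllipticSetting C) (σ : StabCond C) (ψ : ℝ) (N : ℕ)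
    (J : C → Prop) (X A B : C) (k : ℕ) (H : C) (hX : Good X) (hJ : IsBlock σ ψ J)
    (hT : Top σ ψ N J X A B) (hkN : k < N) (hP : Piece σ ψ J X k H) (j₀ : ℤ) (hj₀ : j₀ ≤ 1)
    (f : H ⟶ B⟦j₀⟧) : f = 0 := by
  obtain ⟨RN, ⟨a, b, c, hTri⟩, hRN, hA, hAJ, hB⟩ := hT
  obtain ⟨V, R, Y, ⟨v, r, w, hVR⟩, ⟨x, y, z, hHR⟩, hV, hH, hY, hYJ⟩ := hP
  have hBP : σ.sl.P ψ B := hJ.gen_P h hB
  have hYB : Orth Y B := (hOGN J Y hYJ B hB).1
  -- the upper part of `X`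
  obtain ⟨U, u, ζ, hU⟩ := distinguished_cocone_triangle₁ (r ≫ y)
  obtain ⟨m, n, s, hmn, -⟩ := exists_octa_cocone hVR hHR hU
  have hHk : σ.sl.In (Set.Ico (ψ + k) (ψ + k + 1)) (H⟦(k : ℤ)⟧) := by
    refine (EXH_in_shift_int σ hH k).mono ?_
    rintro _ ⟨x, hx, rfl⟩
    have h1 : ψ ≤ x := hx.1
    have h2 : x < ψ + 1 := hx.2
    constructor
    · show ψ + k ≤ x + ((k : ℤ) : ℝ)
      push_cast
      linarith
    · show x + ((k : ℤ) : ℝ) < ψ + k + 1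
      push_cast
      linarith
  have hUI : σ.sl.In (Set.Ici (ψ + k)) U := by
    refine Slicing.In.ext_upper (isUpperSet_Ici _) hmn (hV.mono ?_) (hHk.mono ?_)
    · intro x hx
      have hx' : ψ + k + 1 ≤ x := hx
      show ψ + k ≤ x
      linarith
    · intro x hx
      exact hx.1
  have hRI : σ.sl.In (Set.Ici (ψ + k + 1))ᶜ R := by
    refine Slicing.In.ext_lower (isUpperSet_Ici _) hHR (hHk.mono ?_) (hY.mono ?_)
    · intro x hx hc
      have h1 : x < ψ + k + 1 := hx.2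
      have h2 : ψ + k + 1 ≤ x := hc
      linarith
    · intro x hx hc
      have h1 : x < ψ + k := hx
      have h2 : ψ + k + 1 ≤ x := hc
      linarith
  have hkN' : (k : ℝ) + 1 ≤ N := by exact_mod_cast hkN
  have har : a ≫ r = 0 := by
    refine Slicing.In.hom_zero (I := Set.Ici (ψ + N)) ?_ hRI ?_ _
    · refine EXH_in_shift_Ici σ (s := ψ) (Slicing.In.ext_upper (isUpperSet_Ici _)
        (binaryBiproductTriangle_distinguished A B)
        (Slicing.in_of_P hA ?_) (Slicing.in_of_P hBP ?_)) N ?_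
      · show ψ ≤ ψ
        exact le_rfl
      · show ψ ≤ ψ
        exact le_rfl
      · push_cast
        exact le_rfl
    · intro x hx y hy
      have h1 : ψ + N ≤ x := hx
      have h2 : ¬ (ψ + k + 1 ≤ y) := hy
      linarith [not_le.1 h2]
  set j : ℤ := k + j₀ - N with hj
  have hj0 : j ≤ 0 := by omega
  have e1 : (B⟦j₀⟧)⟦(k : ℤ)⟧ ≅ (B⟦(N : ℤ)⟧)⟦j⟧ :=
    ((shiftFunctorAdd' C j₀ (k : ℤ) (j₀ + k) rfl).app B).symm ≪≫
      (shiftFunctorAdd' C (N : ℤ) j (j₀ + k) (by omega)).app B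
  have hY0 : ∀ (m : ℤ) (g : Y ⟶ (B⟦(N : ℤ)⟧)⟦m⟧), g = 0 := (hYB.shift N)
  -- extend to `R`
  obtain ⟨g, hg⟩ : ∃ g : R ⟶ (B⟦(N : ℤ)⟧)⟦j⟧, f⟦(k : ℤ)⟧' ≫ e1.hom = x ≫ g := by
    obtain ⟨α, β, hinv⟩ := exists_invrot hHR
    have h1 : α ≫ f⟦(k : ℤ)⟧' ≫ e1.hom = 0 := by
      exact orth_shift hY0 (-1) j _
    exact Triangle.yoneda_exact₂ _ hinv _ h1
  have hg0 : g = 0 := by
    refine EXH_hom_zero_core σ (s := ψ + k) (z := ψ + N) (j := j) ?_ hU hUI hVR hV hTri hRN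
      ((biprod.inr : B ⟶ A ⊞ B)⟦(N : ℤ)⟧') ((biprod.snd : A ⊞ B ⟶ B)⟦(N : ℤ)⟧') ?_ ?_
      (hY0 j) g ?_
    · rw [hj]
      push_cast
      have : (j₀ : ℝ) ≤ 1 := by exact_mod_cast hj₀
      linarith
    · rw [← Functor.map_comp, biprod.inr_snd, CategoryTheory.Functor.map_id]
    · have := P_shift_int σ hBP N
      simpa using this
    · have := EXH_self hX hj0 har (g ≫ ((biprod.inr : B ⟶ A ⊞ B)⟦(N : ℤ)⟧')⟦j⟧')
      simpa only [Category.assoc] using this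
  have h2 : f⟦(k : ℤ)⟧' = 0 := by
    rw [← cancel_mono e1.hom, hg, hg0]
    simp
  apply (shiftFunctor C (k : ℤ)).map_injective
  rw [h2]
  simp

theorem p_EXH : Stmt_OGN C → Stmt_EXH C := by
  intro hOGN h σ ψ N J X A B k H hX hJ hT hkN hP
  refine ⟨fun f => ?_, fun f => EXH_main hOGN h σ ψ N J X A B k H hX hJ hT hkN hP 1 le_rfl f⟩
  have h1 := EXH_main hOGN h σ ψ N J X A B k H hX hJ hT hkN hP 0 (by norm_num)
    (f ≫ ((shiftFunctorZero C ℤ).app B).inv)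
  rw [← cancel_mono ((shiftFunctorZero C ℤ).app B).inv, h1, zero_comp]

end Pool.SR
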