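import Mathlib
import Pool.Agent.Work.MP_841263_sr.Lem42

open CategoryTheory CategoryTheory.Limits CategoryTheory.Pretriangulated
open scoped ZeroObject Topology RealInnerProductSpace
open Filter

set_option backward.isDefEq.respectTransparency false
set_option backward.defeqAttrib.useBackward true
set_option linter.unusedSectionVars false

namespace Pool.SR

open Pool.Stab Pool.Tube Pool.Align Pool.Blk

universe v u

variable {C : Type u} [Category.{v} C] [Preadditive C] [HasZeroObject C] [HasShift C ℤ]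
  [∀ n : ℤ, (shiftFunctor C n).Additive] [Pretriangulated C] [IsTriangulated C] [Linear ℂ C]
  [∀ n : ℤ, (shiftFunctor C n).Linear ℂ]

theorem p_FCV : Stmt_FCV C := by
  classical
  intro h σ ψ N X hX
  have hfc := finCat_P h σ ψ
  obtain ⟨U, R, u, r, k, hT, hU, hR⟩ := σ.sl.exists_trunc X (isUpperSet_Ici (ψ + N))
  have hUP : σ.sl.P (ψ + N) U := by
    have h1 : σ.sl.In (Set.Ioi (ψ + N))ᶜ U := by
      obtain ⟨a', c', hinv⟩ := exists_invrot hT
      refine Slicing.In.ext_lower (isUpperSet_Ioi (ψ + N)) hinv ?_ (hX.mono ?_)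
      · refine (hR.shift_neg_one).mono ?_
        rintro _ ⟨x, hx, rfl⟩ hcon
        have hx' : ¬ (ψ + N ≤ x) := hx
        have hc' : ψ + N < x - 1 := hcon
        apply hx'
        linarith
      · intro x hx hcon
        have hc' : ψ + N < x := hcon
        have hx' : x ≤ ψ + N := hx.2
        linarith
    refine Slicing.In.P_of_singleton
      ((Slicing.In.inter (isUpperSet_Ici (ψ + N)) (isUpperSet_Ioi (ψ + N)) hU h1).mono ?_)
    rintro x ⟨hx1, hx2⟩
    have a1 : ψ + N ≤ x := hx1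
    have a2 : ¬ ψ + N < x := hx2
    show x = ψ + N
    linarith [not_lt.1 a2]
  have hLP : σ.sl.P ψ (U⟦(-(N : ℤ))⟧) := by
    have h1 := P_shift_int σ hUP (-(N : ℤ))
    have h2 : ψ + (N : ℝ) + ((-(N : ℤ) : ℤ) : ℝ) = ψ := by push_cast; ring
    rwa [h2] at h1
  obtain ⟨Bs, hBs, hGen⟩ := finite_blocks h σ ψ hLP
  refine ⟨Bs.toFinset.card, Bs.toFinset, le_rfl, ?_⟩
  rintro T hTs ⟨f, hf⟩
  have hTP := P_shift_int σ hTs.1 (N : ℤ)
  -- `f` comes from `U`
  have h1 : f ≫ r = 0 := by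
    refine (Slicing.in_of_P (I := Set.Ici (ψ + N)) hTP ?_).hom_zero hR
      (IsUpperSet.sep (isUpperSet_Ici _)) _
    show ψ + (N : ℝ) ≤ ψ + ((N : ℤ) : ℝ)
    push_cast
    exact le_rfl
  obtain ⟨g, hg⟩ := Triangle.coyoneda_exact₂ _ hT f h1
  have hg0 : g ≠ 0 := by
    rintro rfl
    apply hf
    rw [hg]
    exact zero_comp
  -- a stable object of `Bs` isomorphic to `T`
  obtain ⟨S, ⟨G, hG, hGS⟩, hSne⟩ : ∃ S, (∃ G ∈ Bs, G S) ∧ ∃ a : T ⟶ S, a ≠ 0 := by
    by_contra hcon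
    push Not at hcon
    have h2 : ∀ a : T ⟶ U⟦(-(N : ℤ))⟧, a = 0 := by
      intro a
      refine Gen.hom_zero (G := fun Z => Nonempty (Z ≅ T)) (G' := fun S => ∃ G ∈ Bs, G S) ?_
        (Gen.of ⟨Iso.refl _⟩) hGen a
      rintro Z S ⟨e⟩ hS b
      have := hcon S hS (e.inv ≫ b)
      rw [← cancel_epi e.inv, this, comp_zero]
    apply hg0
    have h3 : ∀ b : T ⟶ (U⟦(-(N : ℤ))⟧), b = 0 := h2
    have e1 : (T⟦(N : ℤ)⟧)⟦(-(N : ℤ))⟧ ≅ T :=
      (shiftFunctorCompIsoId C (N : ℤ) (-(N : ℤ)) (by ring)).app T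
    have h4 := h3 (e1.inv ≫ g⟦(-(N : ℤ))⟧')
    have h5 : g⟦(-(N : ℤ))⟧' = 0 := by
      rw [← cancel_epi e1.inv, h4, comp_zero]
    apply (shiftFunctor C (-(N : ℤ))).map_injective
    rw [h5]
    simp
  obtain ⟨a, ha⟩ := hSne
  have hSs := (hBs G hG).stable S hGS
  have := hfc.toAbSub.schur hTs hSs a ha
  exact ⟨G, List.mem_toFinset.2 hG, hBs G hG, (hBs G hG).iso S T ⟨(asIso a).symm⟩ hGS⟩

end Pool.SR
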