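import Mathlib
import Pool.Agent.Work.MP_841263_sr.Lem42

open CategoryTheory CategoryTheory.Limits CategoryTheory.Pretriangulated
open scoped ZeroObject Topology RealInnerProductSpace
open Filter

set_option backward.isDefEq.respectTransparency false
set_option backward.defeqAttrib.useBackward true
set_option linter.unusedSectionVars false

namespace Pool.SR

open Pool.Stab Pool.Tube Pool.Align Pool.Blk

universe v u

variable {C : Type u} [Category.{v} C] [Preadditive C] [HasZeroObject C] [HasShift C ℤ]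
  [∀ n : ℤ, (shiftFunctor C n).Additive] [Pretriangulated C] [IsTriangulated C] [Linear ℂ C]
  [∀ n : ℤ, (shiftFunctor C n).Linear ℂ]

theorem p_HFM : Stmt_OGN C → Stmt_HFM C := by
  intro hOGN h σ ψ J X k H hJ hP E hE
  obtain ⟨V, R, Y, ⟨v, r, w, hVR⟩, ⟨x, y, z, hHR⟩, hV, hH, hY, hYJ⟩ := hP
  have hEP : ∀ j : ℤ, σ.sl.P (ψ + j) (E⟦j⟧) := fun j => P_shift_int σ (hJ.gen_P h hE) j
  have hYE : Orth Y E := (hOGN J Y hYJ E hE).1
  have hHk : σ.sl.In (Set.Ici (ψ + k)) (H⟦(k : ℤ)⟧) := by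
    obtain ⟨l, hl, hI⟩ := hH
    refine ⟨_, hl.shift_int (fun φ X n hX => P_shift_int σ hX n) (k : ℤ), ?_⟩
    intro χ hχ
    obtain ⟨ω, hω, rfl⟩ := List.mem_map.1 hχ
    have h1 := (hI ω hω).1
    show ψ + k ≤ ω + ((k : ℤ) : ℝ)
    push_cast
    linarith
  -- morphisms from `V`
  have hVE : ∀ j : ℤ, j ≤ k → ∀ f : V ⟶ E⟦j⟧, f = 0 := by
    intro j hj f
    refine hV.hom_zero (Slicing.in_of_P (I := Set.Iic (ψ + k)) (hEP j) ?_) ?_ f
    · have : (j : ℝ) ≤ k := by exact_mod_cast hj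
      show ψ + (j : ℝ) ≤ ψ + k
      linarith
    · intro x hx y hy
      have hx' : ψ + k + 1 ≤ x := hx
      have hy' : y ≤ ψ + k := hy
      linarith
  have hfac : ∀ j : ℤ, j ≤ k → (∀ f : H⟦(k : ℤ)⟧ ⟶ E⟦j⟧, f = 0) → ∀ f : X ⟶ E⟦j⟧, f = 0 := by
    intro j hj hH0 f
    obtain ⟨f', hf'⟩ := Triangle.yoneda_exact₂ _ hVR f (hVE j hj _)
    obtain ⟨f'', hf''⟩ := Triangle.yoneda_exact₂ _ hHR f' (hH0 _)
    have h0 : f'' = 0 := hYE j f''
    rw [hf', hf'', h0]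
    simp
  refine ⟨⟨?_, ?_⟩, ?_⟩
  · intro h0 g
    obtain ⟨α, β, hinv⟩ := exists_invrot hHR
    have h1 : α ≫ g⟦(k : ℤ)⟧' = 0 := orth_shift hYE (-1) k _
    obtain ⟨G, hG⟩ := Triangle.yoneda_exact₂ _ hinv _ h1
    have h2 : r ≫ G = 0 := h0 _
    obtain ⟨G', hG'⟩ := Triangle.yoneda_exact₃ _ hVR G h2
    have h3 : G' = 0 := by
      refine (hV.shift_one).hom_zero (Slicing.in_of_P (I := Set.Iic (ψ + k)) (hEP k) ?_) ?_ G'
      · show ψ + ((k : ℤ) : ℝ) ≤ ψ + k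
        push_cast
        exact le_rfl
      · rintro _ ⟨x, hx, rfl⟩ y hy
        have hx' : ψ + k + 1 ≤ x := hx
        have hy' : y ≤ ψ + k := hy
        show y < x + 1
        linarith
    have h4 : g⟦(k : ℤ)⟧' = 0 := by
      rw [hG, hG', h3]
      simp
    apply (shiftFunctor C (k : ℤ)).map_injective
    rw [h4]
    simp
  · intro h0
    refine hfac k le_rfl ?_
    intro f
    obtain ⟨f₀, hf₀⟩ : ∃ f₀ : H ⟶ E, f₀⟦(k : ℤ)⟧' = f :=
      ⟨(shiftFunctor C (k : ℤ)).preimage f, Functor.map_preimage _ _⟩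
    rw [← hf₀, h0 f₀]
    simp
  · intro j hj
    refine hfac j hj.le ?_
    intro f
    refine hHk.hom_zero (Slicing.in_of_P (I := Set.Iio (ψ + k)) (hEP j) ?_) ?_ f
    · have : (j : ℝ) < k := by exact_mod_cast hj
      show ψ + (j : ℝ) < ψ + k
      linarith
    · intro x hx y hy
      have hx' : ψ + k ≤ x := hx
      have hy' : y < ψ + k := hy
      linarith

end Pool.SR
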