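import Mathlib
import Pool.Agent.Work.MP_841263_sr.Lem42

open CategoryTheory CategoryTheory.Limits CategoryTheory.Pretriangulated
open scoped ZeroObject Topology RealInnerProductSpace
open Filter

set_option backward.isDefEq.respectTransparency false
set_option backward.defeqAttrib.useBackward true
set_option linter.unusedSectionVars false

namespace Pool.SR

open Pool.Stab Pool.Tube Pool.Align Pool.Blk

universe v u

variable {C : Type u} [Category.{v} C] [Preadditive C] [HasZeroObject C] [HasShift C ℤ]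
  [∀ n : ℤ, (shiftFunctor C n).Additive] [Pretriangulated C] [IsTriangulated C] [Linear ℂ C]
  [∀ n : ℤ, (shiftFunctor C n).Linear ℂ]

theorem p_HKP : Stmt_HKP C := by
  intro σ ψ J X k hL
  obtain ⟨U, Y, ⟨u, y, w, hUY⟩, hU, hY, hYJ⟩ := hL
  obtain ⟨V, H₁, v, g, d, hVH, hV, hH₁⟩ := σ.sl.exists_trunc U (isUpperSet_Ici (ψ + k + 1))
  have hH₁' : σ.sl.In (Set.Ici (ψ + k)) H₁ := by
    refine Slicing.In.ext_upper (isUpperSet_Ici _) (rot_mk hVH) hU ?_
    refine (hV.shift_one).mono ?_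
    rintro _ ⟨x, hx, rfl⟩
    have hx' : ψ + k + 1 ≤ x := hx
    show ψ + k ≤ x + 1
    linarith
  have hH₁'' : σ.sl.In (Set.Ico (ψ + k) (ψ + k + 1)) H₁ := by
    refine (Slicing.In.inter (isUpperSet_Ici _) (isUpperSet_Ici _) hH₁' hH₁).mono ?_
    rintro x ⟨hx1, hx2⟩
    have a2 : ¬ ψ + k + 1 ≤ x := hx2
    exact ⟨hx1, not_le.1 a2⟩
  obtain ⟨R, r, s, hVX⟩ := distinguished_cocone_triangle (v ≫ u)
  obtain ⟨m, n, p, hmn, -⟩ := exists_octa hVH hUY hVX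
  have e : (H₁⟦(-(k : ℤ))⟧)⟦(k : ℤ)⟧ ≅ H₁ :=
    (shiftFunctorCompIsoId C (-(k : ℤ)) (k : ℤ) (by ring)).app H₁
  refine ⟨H₁⟦(-(k : ℤ))⟧, V, R, Y, ⟨v ≫ u, r, s, hVX⟩, ?_, hV, ?_, hY, hYJ⟩
  · refine ⟨e.hom ≫ m, n, p ≫ e.inv⟦(1 : ℤ)⟧', ?_⟩
    refine isomorphic_distinguished _ hmn _ ?_
    refine Triangle.isoMk _ _ e (Iso.refl _) (Iso.refl _) ?_ ?_ ?_
    · simp
    · simp
    · simp only [Triangle.mk_mor₃, Category.assoc, ← Functor.map_comp, Iso.inv_hom_id,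
        CategoryTheory.Functor.map_id, Category.comp_id, Iso.refl_hom, Category.id_comp]
  · obtain ⟨l, hl, hI⟩ := hH₁''
    refine ⟨_, hl.shift_int (fun φ X n hX => P_shift_int σ hX n) (-(k : ℤ)), ?_⟩
    intro χ hχ
    obtain ⟨ω, hω, rfl⟩ := List.mem_map.1 hχ
    obtain ⟨h1, h2⟩ := hI ω hω
    constructor
    · show ψ ≤ ω + ((-(k : ℤ) : ℤ) : ℝ)
      push_cast
      linarith
    · show ω + ((-(k : ℤ) : ℤ) : ℝ) < ψ + 1
      push_cast
      linarith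

end Pool.SR
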