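import Mathlib
import Pool.Agent.Work.MP_841263_sr.Interface

open CategoryTheory CategoryTheory.Limits CategoryTheory.Pretriangulated
open scoped ZeroObject Topology RealInnerProductSpace
open Filter

set_option backward.isDefEq.respectTransparency false
set_option backward.defeqAttrib.useBackward true
set_option linter.unusedSectionVars false

namespace Pool.SR

open Pool.Stab Pool.Tube Pool.Align Pool.Blk

universe v u

variable (C : Type u) [Category.{v} C] [Preadditive C] [HasZeroObject C] [HasShift C ℤ]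
  [∀ n : ℤ, (shiftFunctor C n).Additive] [Pretriangulated C] [IsTriangulated C] [Linear ℂ C]
  [∀ n : ℤ, (shiftFunctor C n).Linear ℂ]

theorem p_HLF : Stmt_SUM C → Stmt_NUL C → Stmt_HLF C := by
  intro gSUM gNUL h n S hS σ ψ N hN hr hI
  obtain ⟨X, hX, hXI⟩ := gSUM h n S hS
  obtain ⟨σ', φ, h1, h2⟩ := gNUL h ψ N X hX hN σ ⟨hr, ((hXI σ ψ (ψ + N)).1).2 hI⟩
  exact ⟨σ', φ, h1, ((hXI σ' φ (φ + N)).2).1 h2⟩

end Pool.SR
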