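import Mathlib
import Pool.Agent.Work.MP_841263_sr.Lem42

open CategoryTheory CategoryTheory.Limits CategoryTheory.Pretriangulated
open scoped ZeroObject Topology RealInnerProductSpace
open Filter

set_option backward.isDefEq.respectTransparency false
set_option backward.defeqAttrib.useBackward true
set_option linter.unusedSectionVars false

namespace Pool.SR

open Pool.Stab Pool.Tube Pool.Align Pool.Blk

universe v u

variable {C : Type u} [Category.{v} C] [Preadditive C] [HasZeroObject C] [HasShift C ℤ]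
  [∀ n : ℤ, (shiftFunctor C n).Additive] [Pretriangulated C] [IsTriangulated C] [Linear ℂ C]
  [∀ n : ℤ, (shiftFunctor C n).Linear ℂ]

theorem p_HNX : Stmt_OGN C → Stmt_HNX C := by
  intro hOGN h σ ψ N J X A B hJ hTop E hE
  obtain ⟨R, ⟨a, r, c, hTri⟩, hR, hA, hAJ, hB⟩ := hTop
  have hEP : σ.sl.P (ψ + N) (E⟦(N : ℤ)⟧) := by
    have := P_shift_int σ (hJ.gen_P h hE) (N : ℤ)
    simpa using this
  constructor
  · intro h0 g
    have h1 : (g ≫ (biprod.inr : B ⟶ A ⊞ B))⟦(N : ℤ)⟧' ≫ a = 0 := h0 _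
    obtain ⟨α, β, hinv⟩ := exists_invrot hTri
    obtain ⟨w, hw⟩ := Triangle.coyoneda_exact₂ _ hinv _ h1
    have hw0 : w = 0 := by
      refine (Slicing.in_of_P (I := Set.Ici (ψ + N)) hEP (Set.mem_Ici.2 le_rfl)).hom_zero
        (hR.shift_neg_one) ?_ w
      rintro x hx _ ⟨y, hy, rfl⟩
      have hx' : ψ + N ≤ x := hx
      have hy' : y < ψ + N := hy
      show y - 1 < x
      linarith
    rw [hw0, zero_comp] at hw
    have h2 : g ≫ (biprod.inr : B ⟶ A ⊞ B) = 0 := by
      apply (shiftFunctor C (N : ℤ)).map_injective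
      rw [hw]
      simp
    rw [← Category.comp_id g, ← biprod.inr_snd (X := A) (Y := B), ← Category.assoc, h2, zero_comp]
  · intro h0 f
    have h1 : f ≫ r = 0 := by
      refine (Slicing.in_of_P (I := Set.Ici (ψ + N)) hEP (Set.mem_Ici.2 le_rfl)).hom_zero hR ?_ _
      intro x hx y hy
      have hx' : ψ + N ≤ x := hx
      have hy' : y < ψ + N := hy
      linarith
    obtain ⟨g, hg⟩ := Triangle.coyoneda_exact₂ _ hTri f h1
    obtain ⟨g₀, hg₀⟩ : ∃ g₀ : E ⟶ A ⊞ B, g₀⟦(N : ℤ)⟧' = g :=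
      ⟨(shiftFunctor C (N : ℤ)).preimage g, Functor.map_preimage _ _⟩
    have h2 : g₀ = 0 := by
      apply biprod.hom_ext
      · rw [zero_comp]
        exact orth_zero (hOGN J A hAJ E hE).2 _
      · rw [zero_comp]
        exact h0 _
    rw [hg, ← hg₀, h2]
    simp

end Pool.SR
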