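import Mathlib
import Pool.Agent.Work.MP_841263_sr.Lem42

open CategoryTheory CategoryTheory.Limits CategoryTheory.Pretriangulated
open scoped ZeroObject Topology RealInnerProductSpace
open Filter

set_option backward.isDefEq.respectTransparency false
set_option backward.defeqAttrib.useBackward true
set_option linter.unusedSectionVars false

namespace Pool.SR

open Pool.Stab Pool.Tube Pool.Align Pool.Blk

universe v u

variable {C : Type u} [Category.{v} C] [Preadditive C] [HasZeroObject C] [HasShift C ℤ]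
  [∀ n : ℤ, (shiftFunctor C n).Additive] [Pretriangulated C] [IsTriangulated C] [Linear ℂ C]
  [∀ n : ℤ, (shiftFunctor C n).Linear ℂ]

theorem p_HZR : Stmt_OGN C → Stmt_HFM C → Stmt_HZR C := by
  intro _ hHFM h ψ X k H M H' σ σ' J J' hJ hJ' hP hM hL hM1 hP' E hE
  rw [← (hHFM h σ' ψ J' X k H' hJ' hP' E hE).1]
  intro f
  obtain ⟨F, T, a, g, d, hTri, hWF, hAF, hWT, hAT⟩ := hL.obj E hE
  have h1 : f ≫ g⟦(k : ℤ)⟧' = 0 := by
    have e : (T⟦(-1 : ℤ)⟧)⟦(k : ℤ)⟧ ≅ T⟦(k - 1 : ℤ)⟧ :=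
      ((shiftFunctorAdd' C (-1 : ℤ) (k : ℤ) (k - 1) (by ring)).app T).symm
    have h2 := (hHFM h σ ψ J X k H hJ hP T hWT).2 (k - 1) (by omega) ((f ≫ g⟦(k : ℤ)⟧') ≫ e.hom)
    rw [← cancel_mono e.hom, h2, zero_comp]
  have hTk := Triangle.shift_distinguished _ hTri (k : ℤ)
  obtain ⟨b, hb⟩ := Triangle.coyoneda_exact₂ _ hTk f (by
    show f ≫ ((k : ℤ).negOnePow • (g⟦(k : ℤ)⟧')) = 0
    rw [Linear.comp_units_smul, h1, smul_zero])
  have h3 : ∀ c : H ⟶ F, c = 0 := by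
    intro c
    obtain ⟨K, ⟨x, y, z, hK⟩, hGM, hK0⟩ := hM
    obtain ⟨c', hc'⟩ := Triangle.yoneda_exact₂ _ hK c (hK0 F hWF _)
    have h4 : c' = 0 := by
      have h5 : c'⟦(-1 : ℤ)⟧' = 0 := σ'.sl.hom_zero (ψ := ψ - 1) (φ := ψ) (by linarith)
        (hJ'.gen_P h hM1) (Slicing.P_shift_neg_one _ _ (hJ'.gen_P h hAF)) _
      apply (shiftFunctor C (-1 : ℤ)).map_injective
      rw [h5]
      simp
    rw [hc', h4, comp_zero]
  have h6 : b = 0 := (hHFM h σ ψ J X k H hJ hP F hWF).1.2 h3 b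
  rw [hb, h6, zero_comp]

end Pool.SR
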