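import Mathlib
import Pool.Agent.Work.MP_841263_sr.Interface

/-! # Block INN (helper11): induction on the level for one block -/

open CategoryTheory CategoryTheory.Limits CategoryTheory.Pretriangulated
open scoped ZeroObject Topology RealInnerProductSpace
open Filter

set_option backward.isDefEq.respectTransparency false
set_option backward.defeqAttrib.useBackward true
set_option linter.unusedSectionVars false

namespace Pool.SR

open Pool.Stab Pool.Tube Pool.Align Pool.Blk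

universe v u

section

variable {C : Type u} [Category.{v} C] [Preadditive C] [HasZeroObject C] [HasShift C ℤ]
  [∀ n : ℤ, (shiftFunctor C n).Additive] [Pretriangulated C] [IsTriangulated C] [Linear ℂ C]
  [∀ n : ℤ, (shiftFunctor C n).Linear ℂ]

lemma INN_orth_zero_left (S : C) : Orth (0 : C) S :=
  fun _ f => (isZero_zero C).eq_of_src f 0

lemma INN_orth_zero_right (S : C) : Orth S (0 : C) :=
  fun n f => ((isZero_shift_iff (0 : C) n).2 (isZero_zero C)).eq_of_tgt f 0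

lemma INN_prog {h : EllipticSetting C} {ψ : ℝ} {N : ℕ} {X : C} {σ σ' : StabCond C}
    {J J' : C → Prop} (hR : Rel ψ σ J σ' J') (hP : Prog h σ' ψ N X) : Prog h σ ψ N X := by
  rcases hP with ⟨τ, φ, hj, hI⟩ | ⟨τ, hj, hpos, hlt⟩
  · exact Or.inl ⟨τ, φ, hR.joined.trans hj, hI⟩
  · refine Or.inr ⟨τ, hR.joined.trans hj, hpos, ?_⟩
    have h1 : σ'.im ψ = σ.im ψ := AddMonoidHom.ext hR.im
    rwa [h1] at hlt

lemma INN_rem {h : EllipticSetting C} {ψ : ℝ} {N : ℕ} {X : C} {σ σ' τ : StabCond C}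
    {J J' : C → Prop} (hRLB : ∀ J₁ T, IsBlock σ ψ J₁ → J₁ T → Oth σ ψ J T → IsBlock σ' ψ J₁)
    (hR : Rel ψ σ J σ' J') (hP : Rem h ψ N X σ' J' τ) : Rem h ψ N X σ J τ := by
  refine ⟨hR.joined.trans hP.joined, hP.pos, fun x => (hP.im x).trans (hR.im x), ?_⟩
  intro T hT hf
  obtain ⟨h1, h2⟩ := hP.oth T hT hf
  have h3 : Oth σ ψ J T := (hR.oth T).1 h1
  exact ⟨h3, fun J₁ hJ₁ hT₁ => h2 J₁ (hRLB J₁ T hJ₁ hT₁ h3) hT₁⟩

lemma INN_start {σ : StabCond C} {ψ : ℝ} {N : ℕ} {J : C → Prop} {X : C}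
    (hX : σ.sl.In (Set.Icc ψ (ψ + N)) X) : LowOrth σ ψ J X 0 := by
  refine ⟨X, 0, ⟨𝟙 X, 0, 0, contractible_distinguished X⟩, hX.mono ?_,
    Slicing.in_of_isZero _ (isZero_zero C), fun S _ => ⟨INN_orth_zero_left S, INN_orth_zero_right S⟩⟩
  intro x hx
  have h1 : ψ ≤ x := hx.1
  show ψ + ((0 : ℕ) : ℝ) ≤ x
  push_cast
  linarith

end

variable (C : Type u) [Category.{v} C] [Preadditive C] [HasZeroObject C] [HasShift C ℤ]
  [∀ n : ℤ, (shiftFunctor C n).Additive] [Pretriangulated C] [IsTriangulated C] [Linear ℂ C]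
  [∀ n : ℤ, (shiftFunctor C n).Linear ℂ]

theorem p_INN : Stmt_SPT C → Stmt_RLB C → Stmt_STP C → Stmt_INN C := by
  intro hSPT hRLB hSTP h σ ψ N J X hG hN hJ hpos
  have key : ∀ (m k : ℕ), k + m = N → ∀ (σ : StabCond C) (J : C → Prop), IsBlock σ ψ J →
      Pos h σ ψ N X → LowOrth σ ψ J X k → Prog h σ ψ N X ∨ ∃ σ', Rem h ψ N X σ J σ' := by
    intro m
    induction m with
    | zero =>
      intro k hk σ J hJ hpos hlow
      have hk' : k = N := by omega
      subst hk'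
      by_cases hT : ∃ T, J T ∧ ∃ f : T⟦(k : ℤ)⟧ ⟶ X, f ≠ 0
      · exact Or.inl (Or.inl (hSPT h σ ψ k J X hG hN hJ hpos.mem hlow hT))
      · refine Or.inr ⟨σ, Joined.refl σ, hpos, fun _ => rfl, ?_⟩
        intro T hTs hf
        exact ⟨⟨hTs, fun hJT => hT ⟨T, hJT, hf⟩⟩, fun J₁ hJ₁ _ => hJ₁⟩
    | succ m ih =>
      intro k hk σ J hJ hpos hlow
      rcases hSTP h σ ψ N J X k hG hJ hpos (by omega) hlow with h1 | h1 | ⟨σ', J', hR, hp, hb, hl⟩
      · exact Or.inl h1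
      · exact Or.inr h1
      · rcases ih (k + 1) (by omega) σ' J' hb hp hl with h2 | ⟨τ, h2⟩
        · exact Or.inl (INN_prog hR h2)
        · exact Or.inr ⟨τ, INN_rem (hRLB h ψ σ σ' J J' hJ hb hR) hR h2⟩
  exact key N 0 (by omega) σ J hJ hpos (INN_start hpos.mem)

end Pool.SR
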