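import Mathlib
import Pool.Agent.Work.MP_841263_sr.Lem42

open CategoryTheory CategoryTheory.Limits CategoryTheory.Pretriangulated
open scoped ZeroObject Topology RealInnerProductSpace
open Filter

set_option backward.isDefEq.respectTransparency false
set_option backward.defeqAttrib.useBackward true
set_option linter.unusedSectionVars false

namespace Pool.SR

open Pool.Stab Pool.Tube Pool.Align Pool.Blk

universe v u

variable {C : Type u} [Category.{v} C] [Preadditive C] [HasZeroObject C] [HasShift C ℤ]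
  [∀ n : ℤ, (shiftFunctor C n).Additive] [Pretriangulated C] [IsTriangulated C] [Linear ℂ C]
  [∀ n : ℤ, (shiftFunctor C n).Linear ℂ]

theorem p_LOP : Stmt_OGN C → Stmt_LOP C := by
  intro _ σ ψ J X k H hP hH
  obtain ⟨V, R, Y, hVR, ⟨x, y, z, hHR⟩, hV, hHI, hY, hYJ⟩ := hP
  refine ⟨V, R, hVR, ?_, ?_, OrthG.ext hHR (hH.shift _) hYJ⟩
  · refine hV.mono ?_
    intro x hx
    have hx' : ψ + k + 1 ≤ x := hx
    show ψ + ((k + 1 : ℕ) : ℝ) ≤ x
    push_cast
    linarith
  · have h1 : σ.sl.In (Set.Ici (ψ + k + 1))ᶜ R := by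
      refine Slicing.In.ext_lower (isUpperSet_Ici _) hHR ?_ (hY.mono ?_)
      · obtain ⟨l, hl, hI⟩ := hHI
        refine ⟨_, hl.shift_int (fun φ X n hX => P_shift_int σ hX n) (k : ℤ), ?_⟩
        intro χ hχ
        obtain ⟨ω, hω, rfl⟩ := List.mem_map.1 hχ
        obtain ⟨h1, h2⟩ := hI ω hω
        intro hc
        have hc' : ψ + k + 1 ≤ ω + ((k : ℤ) : ℝ) := hc
        push_cast at hc'
        linarith
      · intro x hx hc
        have h1 : x < ψ + k := hx
        have h2 : ψ + k + 1 ≤ x := hc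
        linarith
    refine h1.mono ?_
    intro x hx
    have hx' : ¬ (ψ + k + 1 ≤ x) := hx
    show x < ψ + ((k + 1 : ℕ) : ℝ)
    push_cast
    linarith [not_le.1 hx']

end Pool.SR
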