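import Mathlib
import Pool.Agent.Work.MP_841263_sr.Lem42

open CategoryTheory CategoryTheory.Limits CategoryTheory.Pretriangulated
open scoped ZeroObject Topology RealInnerProductSpace
open Filter

set_option backward.isDefEq.respectTransparency false
set_option backward.defeqAttrib.useBackward true
set_option linter.unusedSectionVars false

namespace Pool.SR

open Pool.Stab Pool.Tube Pool.Align Pool.Blk

universe v u

variable {C : Type u} [Category.{v} C] [Preadditive C] [HasZeroObject C] [HasShift C ℤ]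
  [∀ n : ℤ, (shiftFunctor C n).Additive] [Pretriangulated C] [IsTriangulated C] [Linear ℂ C]
  [∀ n : ℤ, (shiftFunctor C n).Linear ℂ]

lemma LSC_exists {J : C → Prop} {X : C} (hX : Gen J X) (h0 : ¬ IsZero X) : ∃ S, J S :=
  hX.exists_of h0

lemma LSC_re (h : EllipticSetting C) (σ σ' : StabCond C) (t : ℝ) (S : C)
    (hZ : ∀ x, σ'.Z x = σ.Z x - eulerForm h.k3 x (cls S) * σ.Z (cls S)) (x : K0 C) :
    σ'.re t x = σ.re t x - (eulerForm h.k3 x (cls S) : ℝ) * σ.re t (cls S) := by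
  have key : ∀ (n : ℤ) (z w : ℂ), ((n : ℂ) * z * w).re = n * (z * w).re := by
    intro n z w
    rw [mul_assoc, ← Complex.ofReal_intCast, Complex.re_ofReal_mul]
  rw [StabCond.re_apply, StabCond.re_apply, StabCond.re_apply, hZ x, sub_mul, Complex.sub_re, key]

lemma LSC_im (h : EllipticSetting C) (σ σ' : StabCond C) (t : ℝ) (S : C)
    (hZ : ∀ x, σ'.Z x = σ.Z x - eulerForm h.k3 x (cls S) * σ.Z (cls S)) (x : K0 C) :
    σ'.im t x = σ.im t x - (eulerForm h.k3 x (cls S) : ℝ) * σ.im t (cls S) := by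
  have key : ∀ (n : ℤ) (z w : ℂ), ((n : ℂ) * z * w).im = n * (z * w).im := by
    intro n z w
    rw [mul_assoc, ← Complex.ofReal_intCast, Complex.im_ofReal_mul]
  rw [StabCond.im_apply, StabCond.im_apply, StabCond.im_apply, hZ x, sub_mul, Complex.sub_im, key]

theorem p_LSC : Stmt_BKI C → Stmt_LSC C := by
  intro hBKI h ψ σ₀ i j S hS
  have hsph : Spherical S := i.blk.sph S hS
  have hst : i.σ.Stable ψ S := i.blk.stable S hS
  have h0 : ¬ IsZero S := hst.2.1
  have him0 : i.σ.im ψ (cls S) = 0 := im_P i.σ hst.1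
  constructor
  · intro hm
    have hG : Gen j.J (S⟦(-1 : ℤ)⟧) := by
      refine (hm.down _).2 ⟨0, S, 0, 𝟙 _, 0, contractible_distinguished₁ _,
        Gen.zero (isZero_zero C), fun a => (isZero_zero C).eq_of_tgt _ _, Gen.of ⟨Iso.refl _⟩⟩
    refine ⟨hm.joined, (hBKI h j.σ ψ j.J).2 ⟨j.blk, LSC_exists hG
      (fun hz => h0 ((isZero_shift_iff _ _).1 hz))⟩, ⟨hsph, hst, hm.stable, ?_, hm.stay,
      hm.back⟩, fun x => LSC_re h i.σ j.σ ψ S hm.Z x, hm.down⟩
    intro x
    rw [LSC_im h i.σ j.σ ψ S hm.Z x, him0]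
    simp
  · intro hm
    have hG : Gen j.J (S⟦(1 : ℤ)⟧) := by
      refine (hm.up _).2 ⟨S, 0, 𝟙 _, 0, 0, contractible_distinguished _,
        Gen.zero (isZero_zero C), fun a => (isZero_zero C).eq_of_src _ _, Gen.of ⟨Iso.refl _⟩⟩
    have hψ : ψ - 1 + 1 = ψ := by ring
    refine ⟨hm.joined, (hBKI h j.σ ψ j.J).2 ⟨j.blk, LSC_exists hG
      (fun hz => h0 ((isZero_shift_iff _ _).1 hz))⟩, ⟨hsph, hm.stable, ?_, ?_, ?_, ?_⟩,
      fun x => LSC_re h i.σ j.σ ψ S hm.Z x, hm.up⟩
    · rw [hψ]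
      exact hst
    · intro x
      have h1 : i.σ.im (ψ - 1) (cls S) = 0 := by
        have := (i.σ.polar (ψ - 1) hst.1 h0).2.2
        rw [this]
        have h2 : Real.pi * (ψ - (ψ - 1)) = Real.pi := by ring
        rw [h2, Real.sin_pi, mul_zero]
      rw [LSC_im h i.σ j.σ (ψ - 1) S hm.Z x, h1]
      simp
    · rw [hψ]
      exact hm.back
    · rw [hψ]
      exact hm.stay

end Pool.SR
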