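import Mathlib
import Pool.Agent.Work.MP_841263_sr.Interface

open CategoryTheory CategoryTheory.Limits CategoryTheory.Pretriangulated
open scoped ZeroObject Topology RealInnerProductSpace
open Filter

set_option backward.isDefEq.respectTransparency false
set_option backward.defeqAttrib.useBackward true
set_option linter.unusedSectionVars false

namespace Pool.SR

open Pool.Stab Pool.Tube Pool.Align Pool.Blk

universe v u

variable {C : Type u} [Category.{v} C] [Preadditive C] [HasZeroObject C] [HasShift C ℤ]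
  [∀ n : ℤ, (shiftFunctor C n).Additive] [Pretriangulated C] [IsTriangulated C] [Linear ℂ C]
  [∀ n : ℤ, (shiftFunctor C n).Linear ℂ]

variable {σ : StabCond C} {ψ : ℝ}

/-- An object with phases in `[ψ, ψ + 1)` is in a heart which contains `P(ψ)`. -/
lemma MZ1_heart {H : C} (hH : σ.sl.In (Set.Ico ψ (ψ + 1)) H) :
    ∃ s : ℝ, s < ψ ∧ ψ ≤ s + 1 ∧ σ.sl.Heart s H := by
  obtain ⟨l, hl, hI⟩ := hH
  have key : ∀ l : List ℝ, (∀ φ ∈ l, φ ∈ Set.Ico ψ (ψ + 1)) →
      ∃ s : ℝ, s < ψ ∧ ψ ≤ s + 1 ∧ ∀ φ ∈ l, φ ≤ s + 1 := by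
    intro l
    induction l with
    | nil => exact fun _ => ⟨ψ - 1 / 2, by linarith, by linarith, by simp⟩
    | cons x l ih =>
      intro h
      obtain ⟨s, h1, h2, h3⟩ := ih (fun φ hφ => h φ (List.mem_cons_of_mem _ hφ))
      have hx := h x List.mem_cons_self
      have hx2 : x < ψ + 1 := hx.2
      refine ⟨max s (x - 1), max_lt h1 (by linarith), ?_, ?_⟩
      · have := le_max_left s (x - 1)
        linarith
      · intro φ hφ
        rcases List.mem_cons.1 hφ with rfl | hφ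
        · have := le_max_right s (φ - 1)
          linarith
        · have := le_max_left s (x - 1)
          have := h3 φ hφ
          linarith
  obtain ⟨s, h1, h2, h3⟩ := key l hI
  exact ⟨s, h1, h2, l, hl, fun φ hφ => ⟨lt_of_lt_of_le h1 (hI φ hφ).1, h3 φ hφ⟩⟩

/-- The Euler form for an object with phases in `[ψ, ψ + 1)` and an object of phase `ψ`. -/
lemma MZ1_form (h : EllipticSetting C) {H T : C} (hH : σ.sl.In (Set.Ico ψ (ψ + 1)) H)
    (hT : σ.sl.P ψ T) (h0 : ∀ f : H ⟶ T, f = 0) : eulerForm h.k3 (cls H) (cls T) =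
      (Module.finrank ℂ (T ⟶ H) : ℤ) - (Module.finrank ℂ (H ⟶ T⟦(1 : ℤ)⟧) : ℤ) := by
  obtain ⟨s, hs1, hs2, hHs⟩ := MZ1_heart hH
  rw [(σ.sl.heart_ab s).eulerChar h.k3 hHs (Slicing.heart_of_P hT hs1 hs2),
    finrank_of_forall_zero h0]
  push_cast
  ring

/-- Orthogonality from three degrees. -/
lemma MZ1_orth (h : EllipticSetting C) {H T : C} (hH : σ.sl.In (Set.Ico ψ (ψ + 1)) H)
    (hT : σ.sl.P ψ T) (h0 : ∀ f : H ⟶ T, f = 0) (h1 : ∀ f : H ⟶ T⟦(1 : ℤ)⟧, f = 0)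
    (h2 : ∀ f : T ⟶ H, f = 0) : Orth H T ∧ Orth T H := by
  obtain ⟨s, hs1, hs2, hHs⟩ := MZ1_heart hH
  have hab := σ.sl.heart_ab s
  have hTs := Slicing.heart_of_P hT hs1 hs2
  have h3 : ∀ f : T ⟶ H⟦(1 : ℤ)⟧, f = 0 := by
    refine forall_zero_of_finrank h.k3 ?_
    rw [finrank_ext_symm h.k3]
    exact finrank_of_forall_zero h1
  exact ⟨hab.orth h.k3 hHs hTs h0 h1 h2, hab.orth h.k3 hTs hHs h2 h3 h0⟩

theorem p_MZ1 : Stmt_MZ1 C := by
  intro h σ ψ J H A' B A'' hJ hH h0 hT hA' hA'' hB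
  obtain ⟨a, b, c, hT⟩ := hT
  have h1 : ∀ f : H ⟶ A'⟦(1 : ℤ)⟧, f = 0 := fun f =>
    hom_zero_of_ext₂ (rot_mk (rot_mk hT)) (fun a => h0 _ hA'' a) (fun a => hB a) f
  have h2 := MZ1_form h hH (hJ.gen_P h hA') (h0 _ hA')
  rw [finrank_of_forall_zero h1] at h2
  push_cast at h2
  rw [sub_zero] at h2
  refine ⟨h1, ?_, ?_⟩
  · rw [h2]
    exact Int.natCast_nonneg _
  · intro h3
    rw [h2] at h3
    have h4 : ∀ f : A' ⟶ H, f = 0 := forall_zero_of_finrank h.k3 (by exact_mod_cast h3)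
    exact MZ1_orth h hH (hJ.gen_P h hA') (h0 _ hA') h1 h4

end Pool.SR
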