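import Mathlib
import Pool.Agent.Work.MP_841263_sr.Interface
import Pool.Agent.Work.MP_841263_sr.B_MZ1

open CategoryTheory CategoryTheory.Limits CategoryTheory.Pretriangulated
open scoped ZeroObject Topology RealInnerProductSpace
open Filter

set_option backward.isDefEq.respectTransparency false
set_option backward.defeqAttrib.useBackward true
set_option linter.unusedSectionVars false

namespace Pool.SR

open Pool.Stab Pool.Tube Pool.Align Pool.Blk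

universe v u

variable {C : Type u} [Category.{v} C] [Preadditive C] [HasZeroObject C] [HasShift C ℤ]
  [∀ n : ℤ, (shiftFunctor C n).Additive] [Pretriangulated C] [IsTriangulated C] [Linear ℂ C]
  [∀ n : ℤ, (shiftFunctor C n).Linear ℂ]

variable {σ : StabCond C} {ψ : ℝ} {G : C → Prop}

lemma MZ2_mem (hG : IsBlock σ ψ G) {S : C} (hS : σ.Stable ψ S) (hSG : Gen G S) : G S := by
  by_contra hcon
  exact not_orth_self' hS.2.1 (hG.compl_orth hSG (Gen.of ⟨hS, hcon⟩)).1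

/-- Quotients: `Hom(H, A''[1]) = 0`. -/
lemma MZ2_quot (h : EllipticSetting C) {H A' X A'' : C} {a : A' ⟶ X} {b : X ⟶ A''}
    {c : A'' ⟶ A'⟦(1 : ℤ)⟧} (hT : Triangle.mk a b c ∈ distTriang C)
    (hX1 : ∀ f : H ⟶ X⟦(1 : ℤ)⟧, f = 0) (hA' : ∀ f : A' ⟶ H, f = 0) :
    ∀ f : H ⟶ A''⟦(1 : ℤ)⟧, f = 0 := by
  have h1 : ∀ f : X ⟶ H⟦(1 : ℤ)⟧, f = 0 := by
    refine forall_zero_of_finrank h.k3 ?_
    rw [finrank_ext_symm h.k3]
    exact finrank_of_forall_zero hX1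
  have h2 : ∀ f : A'' ⟶ H⟦(1 : ℤ)⟧, f = 0 := by
    refine fun f => hom_zero_of_ext₁ (rot_mk hT) h1 ?_ f
    refine fun e => Pool.Stab.hom_shift_zero (c := 0) (by ring) ?_ e
    intro f
    have := hA' (f ≫ ((shiftFunctorZero C ℤ).app H).hom)
    rw [← cancel_mono ((shiftFunctorZero C ℤ).app H).hom, this, zero_comp]
  refine forall_zero_of_finrank h.k3 ?_
  rw [finrank_ext_symm h.k3]
  exact finrank_of_forall_zero h2

/-- The factors of an object of the block with `Hom(H, X[1]) = 0`. -/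
lemma MZ2_gen (hMZ1 : Stmt_MZ1 C) (h : EllipticSetting C) (hG : IsBlock σ ψ G) {H : C}
    (hH : σ.sl.In (Set.Ico ψ (ψ + 1)) H) (hM : ∀ T, Gen G T → ∀ f : H ⟶ T, f = 0)
    (hform0 : ∀ E, Gen G E → eulerForm h.k3 (cls H) (cls E) = 0) :
    ∀ X, Gen G X → (∀ f : H ⟶ X⟦(1 : ℤ)⟧, f = 0) →
        Gen (fun S => G S ∧ ∀ f : H ⟶ S⟦(1 : ℤ)⟧, f = 0) X := by
  have hfc := finCat_P h σ ψ
  have hst : ∀ S, G S → SimpleIn (σ.sl.P ψ) S := fun S hS => hG.stable S hS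
  refine (hfc.gen_fin hst).induction ?_
  intro E hE h1 h2 hE1
  by_cases h0 : IsZero E
  · exact Gen.zero h0
  obtain ⟨S, Q, s, q, hsq, hS⟩ := hfc.exists_simple_sub E (hG.gen_P h hE) h0
  obtain ⟨g1, g2⟩ := hfc.toAbSub.serre hst hE _ _ _ _ hsq
  have hGS : G S := MZ2_mem hG hS g1
  have hsq' := hsq
  obtain ⟨-, -, -, c, hT⟩ := hsq
  obtain ⟨g3, -, g5⟩ := hMZ1 h σ ψ G H S E Q hG hH hM ⟨s, q, c, hT⟩ g1 g2 hE1
  have g6 : ∀ f : S ⟶ H, f = 0 := orth_zero (g5 (hform0 S g1)).2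
  have g4 := MZ2_quot h hT hE1 g6
  have g7 := h2 S Q s q (hsq'.of_le g1 hE g2) hS.2.1 g4
  exact Gen.ext hT (Gen.of ⟨hGS, g3⟩) g7

theorem p_MZ2 : Stmt_MZ1 C → Stmt_MZ2 C := by
  intro hMZ1 h σ ψ J H B T₀ hG hH hM hB hB1 hform0 hT₀ hno A' A'' hT hA' hA''
  have hfc := finCat_P h σ ψ
  have hst : ∀ S, J S → SimpleIn (σ.sl.P ψ) S := fun S hS => hG.stable S hS
  have hT1 : ¬ ∀ f : H ⟶ T₀⟦(1 : ℤ)⟧, f = 0 := by
    intro h1
    apply hno
    have h2 := MZ1_form h hH (hst T₀ hT₀).1 (hM T₀ (Gen.of hT₀))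
    rw [hform0 T₀ (Gen.of hT₀), finrank_of_forall_zero h1] at h2
    push_cast at h2
    rw [sub_zero] at h2
    exact MZ1_orth h hH (hst T₀ hT₀).1 (hM T₀ (Gen.of hT₀)) h1
      (forall_zero_of_finrank h.k3 (by exact_mod_cast h2.symm))
  have hiso : ∀ S, J S → (∀ f : H ⟶ S⟦(1 : ℤ)⟧, f = 0) → ¬ Nonempty (T₀ ≅ S) := by
    rintro S hS hS1 ⟨e⟩
    apply hT1
    intro f
    have := hS1 (f ≫ e.hom⟦(1 : ℤ)⟧')
    rw [← cancel_mono (e.hom⟦(1 : ℤ)⟧'), this, zero_comp]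
  obtain ⟨g3, -, -⟩ := hMZ1 h σ ψ J H A' B A'' hG hH hM hT hA' hA'' hB1
  have hc := MZ2_gen hMZ1 h hG hH hM hform0 A' hA' g3
  clear hA' g3 hT
  induction hc with
  | zero h0 => rw [cls_of_isZero h0, map_zero]
  | @of X hX =>
    rw [(hfc.toAbSub.simple_form_le h.k3 (hst T₀ hT₀) (hst _ hX.1) (hiso _ hX.1 hX.2)).1]
    have : (0 : ℤ) ≤ (Module.finrank ℂ (T₀ ⟶ X⟦(1 : ℤ)⟧) : ℤ) := Int.natCast_nonneg _
    exact neg_nonpos.2 this
  | ext hT _ _ h1 h2 =>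
    rw [cls_mk hT, map_add]
    exact add_nonpos h1 h2

end Pool.SR
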