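import Mathlib
import Pool.Agent.Work.MP_841263_sr.Interface
import Pool.Agent.Work.MP_841263_sr.B_MZ2

open CategoryTheory CategoryTheory.Limits CategoryTheory.Pretriangulated
open scoped ZeroObject Topology RealInnerProductSpace
open Filter

set_option backward.isDefEq.respectTransparency false
set_option backward.defeqAttrib.useBackward true
set_option linter.unusedSectionVars false

namespace Pool.SR

open Pool.Stab Pool.Tube Pool.Align Pool.Blk

universe v u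

variable {C : Type u} [Category.{v} C] [Preadditive C] [HasZeroObject C] [HasShift C ℤ]
  [∀ n : ℤ, (shiftFunctor C n).Additive] [Pretriangulated C] [IsTriangulated C] [Linear ℂ C]
  [∀ n : ℤ, (shiftFunctor C n).Linear ℂ]

lemma MZE_norm (h : EllipticSetting C) {σ : StabCond C} {ψ : ℝ} {S : C} (hS : σ.Stable ψ S)
    (hsp : Spherical S) : eulerForm h.k3 (cls S) (cls S) = 2 := by
  rw [(finCat_P h σ ψ).toAbSub.self_le h.k3 hS,
    finrank_of_forall_zero (hsp.2 1 (by norm_num) (by norm_num))]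
  norm_num

theorem p_MZE : Stmt_MZ1 C → Stmt_MZ2 C → Stmt_MZE C := by
  intro hMZ1 hMZ2 h n ρ hρ σ ψ J H B hJ hH hM hB hB1 hno
  have hG := hJ.toIsBlock
  have hfc := finCat_P h σ ψ
  have hst : ∀ S, J S → SimpleIn (σ.sl.P ψ) S := fun S hS => hG.stable S hS
  have hmem : ∀ E, Gen J E → ρ (cls E) ∈ Pool.WS.EW (Gen J) ρ := fun E hE =>
    Submodule.subset_span ⟨E, hE, rfl⟩
  set x := (Pool.WS.EW (Gen J) ρ).starProjection (-(ρ (cls H))) with hx
  have hxmem : x ∈ Pool.WS.EW (Gen J) ρ := Submodule.starProjection_apply_mem _ _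
  have hxE : ∀ E, Gen J E → ⟪x, ρ (cls E)⟫ = -(eulerForm h.k3 (cls H) (cls E) : ℝ) := by
    intro E hE
    have h1 : ⟪-(ρ (cls H)) - x, ρ (cls E)⟫ = (0 : ℝ) := by
      rw [hx]
      exact Submodule.starProjection_inner_eq_zero _ _ (hmem E hE)
    rw [inner_sub_left, inner_neg_left, hρ.gram] at h1
    linarith
  have hsub : ∀ c ∈ Sub (Gen J) B, ∃ A' A'' : C, Tri A' B A'' ∧ Gen J A' ∧ Gen J A'' ∧
      cls A' = c := by
    rintro c ⟨F, Q, f, g, ⟨h1, h2, h3, d, hT⟩, rfl⟩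
    exact ⟨F, Q, ⟨f, g, d, hT⟩, h1, h3, rfl⟩
  by_cases hx0 : x = 0
  · have hform0 : ∀ E, Gen J E → eulerForm h.k3 (cls H) (cls E) = 0 := by
      intro E hE
      have h1 := hxE E hE
      rw [hx0, inner_zero_left] at h1
      have : (eulerForm h.k3 (cls H) (cls E) : ℝ) = 0 := by linarith
      exact_mod_cast this
    obtain ⟨T₀, hT₀, hno'⟩ : ∃ T₀, J T₀ ∧ ¬ (Orth H T₀ ∧ Orth T₀ H) := by
      by_contra hcon
      push Not at hcon
      exact hno (fun S hS => hcon S hS)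
    refine ⟨ρ (cls T₀), hmem T₀ (Gen.of hT₀), ?_, hB, ?_⟩
    · intro h0
      have h1 := hρ.gram (cls T₀) (cls T₀)
      rw [h0, inner_zero_left, MZE_norm h (hst T₀ hT₀) (hJ.sph T₀ hT₀)] at h1
      norm_num at h1
    · intro c hc
      obtain ⟨A', A'', hT, h1, h2, rfl⟩ := hsub c hc
      have h3 := hMZ2 h σ ψ J H B T₀ hG hH hM hB hB1 hform0 hT₀ hno' A' A'' hT h1 h2
      show ⟪ρ (cls T₀), ρ (cls A')⟫ ≤ (0 : ℝ)
      rw [hρ.gram]
      exact_mod_cast h3
  · refine ⟨x, hxmem, hx0, hB, ?_⟩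
    intro c hc
    obtain ⟨A', A'', hT, h1, h2, rfl⟩ := hsub c hc
    obtain ⟨-, h3, -⟩ := hMZ1 h σ ψ J H A' B A'' hG hH hM hT h1 h2 hB1
    show ⟪x, ρ (cls A')⟫ ≤ (0 : ℝ)
    rw [hxE A' h1]
    have : (0 : ℝ) ≤ (eulerForm h.k3 (cls H) (cls A') : ℝ) := by exact_mod_cast h3
    linarith

end Pool.SR
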