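import Mathlib
import Pool.Agent.Work.MP_841263_sr.Interface

open CategoryTheory CategoryTheory.Limits CategoryTheory.Pretriangulated
open scoped ZeroObject Topology RealInnerProductSpace
open Filter

set_option backward.isDefEq.respectTransparency false
set_option backward.defeqAttrib.useBackward true
set_option linter.unusedSectionVars false

namespace Pool.SR

open Pool.Stab Pool.Tube Pool.Align Pool.Blk

universe v u

variable {C : Type u} [Category.{v} C] [Preadditive C] [HasZeroObject C] [HasShift C ℤ]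
  [∀ n : ℤ, (shiftFunctor C n).Additive] [Pretriangulated C] [IsTriangulated C] [Linear ℂ C]
  [∀ n : ℤ, (shiftFunctor C n).Linear ℂ]

theorem p_MZF : Pool.WS.Stmt_GRM.{u} → Stmt_TPX C → Stmt_EXH C → Stmt_LOP C → Stmt_MZE C →
    Stmt_MQX C → Stmt_RRX C → Stmt_MZF C := by
  intro gGRM gTPX gEXH gLOP gMZE gMQX gRRX
  intro h σ ψ N J X k H hX hJ hpos hk hP hH0
  by_cases hO : OrthG J H
  · exact Or.inr (gLOP σ ψ J X k H hP hO)
  left
  have hfin := h.finite
  have hfree := h.free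
  have hJb := hJ.toIsBlock
  have hAb := (hJb.localSetting h
    (fun S hS => (hJ.sph S hS).2 1 (by norm_num) (by norm_num))).toFinCat.toAbSub
  obtain ⟨A, B, hT⟩ := gTPX h σ ψ N J X hJb hpos.mem
  obtain ⟨hB0, hB1⟩ := gEXH h σ ψ N J X A B k H hX hJb hT hk hP
  have hHI : σ.sl.In (Set.Ico ψ (ψ + 1)) H := by
    obtain ⟨V, R, Y, -, -, -, h1, -, -⟩ := hP
    exact h1
  have hGB : Gen J B := by
    obtain ⟨R, -, -, -, -, h1⟩ := hT
    exact h1
  obtain ⟨n, ρ, hρ⟩ := gGRM (K0 C) (eulerForm h.k3) h.psd'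
  have hG : Pool.WS.Gram h.k3 ρ := ⟨h.psd', h.even, h.finite, hρ⟩
  obtain ⟨x, hx, hx0, hFB⟩ := gMZE h n ρ hG σ ψ J H B hJ hHI hH0 hGB hB1 hO
  have hz : Gen J (0 : C) := Gen.zero (isZero_zero C)
  have hMq : Mq J H 0 := ⟨H, ⟨𝟙 H, 0, 0, contractible_distinguished H⟩, hz, hH0⟩
  have hXi : σ.sl.In (Set.Ici ψ) X := hpos.mem.mono (fun y hy => hy.1)
  have hq := gMQX h σ ψ J X k H 0 hJb hXi hP hMq
  have hMqX : Mq J X 0 := by
    rcases Nat.eq_zero_or_pos k with h0 | h0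
    · exact hq.1 h0
    · exact hq.2 h0
  refine gRRX h n ρ hG σ ψ N J X A B 0 hJ hpos hT hMqX x hx hx0 hFB ⟨hz, ?_⟩
  rintro c ⟨F, Q, f, g, hs, rfl⟩
  have hQ := isZero_of_SES_right hAb hs ((isZero_zero C).eq_of_src _ _)
  rw [cls_of_isZero hQ, map_zero]

end Pool.SR
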