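import Mathlib
import Pool.Agent.Work.MP_841263_sr.Lem42

open CategoryTheory CategoryTheory.Limits CategoryTheory.Pretriangulated
open scoped ZeroObject Topology RealInnerProductSpace
open Filter

set_option backward.isDefEq.respectTransparency false
set_option backward.defeqAttrib.useBackward true
set_option linter.unusedSectionVars false

namespace Pool.SR

open Pool.Stab Pool.Tube Pool.Align Pool.Blk

universe v u

variable {C : Type u} [Category.{v} C] [Preadditive C] [HasZeroObject C] [HasShift C ℤ]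
  [∀ n : ℤ, (shiftFunctor C n).Additive] [Pretriangulated C] [IsTriangulated C] [Linear ℂ C]
  [∀ n : ℤ, (shiftFunctor C n).Linear ℂ]

lemma NTP_bound (l : List ℝ) (c : ℝ) (h : ∀ x ∈ l, x < c) : ∃ m, m < c ∧ ∀ x ∈ l, x ≤ m := by
  induction l with
  | nil => exact ⟨c - 1, by linarith, by simp⟩
  | cons a l ih =>
    obtain ⟨m, hm, hl⟩ := ih (fun x hx => h x (by simp [hx]))
    refine ⟨max m a, max_lt hm (h a (by simp)), ?_⟩
    intro x hx
    rcases List.mem_cons.1 hx with rfl | hx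
    · exact le_max_right _ _
    · exact (hl x hx).trans (le_max_left _ _)

theorem p_NTP : Stmt_NTP C := by
  intro h σ ψ N X hX h0
  have hfc := finCat_P h σ ψ
  obtain ⟨U, R, u, r, k, hT, hU, hR⟩ := σ.sl.exists_trunc X (isUpperSet_Ici (ψ + N))
  have hUP : σ.sl.P (ψ + N) U := by
    have h1 : σ.sl.In (Set.Ioi (ψ + N))ᶜ U := by
      obtain ⟨a', c', hinv⟩ := exists_invrot hT
      refine Slicing.In.ext_lower (isUpperSet_Ioi (ψ + N)) hinv ?_ (hX.mono ?_)
      · refine (hR.shift_neg_one).mono ?_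
        rintro _ ⟨x, hx, rfl⟩ hcon
        have hx' : ¬ (ψ + N ≤ x) := hx
        have hc' : ψ + N < x - 1 := hcon
        apply hx'
        linarith
      · intro x hx hcon
        have hc' : ψ + N < x := hcon
        have hx' : x ≤ ψ + N := hx.2
        linarith
    refine Slicing.In.P_of_singleton
      ((Slicing.In.inter (isUpperSet_Ici (ψ + N)) (isUpperSet_Ioi (ψ + N)) hU h1).mono ?_)
    rintro x ⟨hx1, hx2⟩
    have a1 : ψ + N ≤ x := hx1
    have a2 : ¬ ψ + N < x := hx2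
    show x = ψ + N
    linarith [not_lt.1 a2]
  have hLP : σ.sl.P ψ (U⟦(-(N : ℤ))⟧) := by
    have h1 := P_shift_int σ hUP (-(N : ℤ))
    have h2 : ψ + (N : ℝ) + ((-(N : ℤ) : ℤ) : ℝ) = ψ := by push_cast; ring
    rwa [h2] at h1
  have hUz : IsZero U := by
    by_contra hU0
    have hL0 : ¬ IsZero (U⟦(-(N : ℤ))⟧) := fun hz => hU0 ((isZero_shift_iff _ _).1 hz)
    obtain ⟨T, Q, s, q, hs, hTs⟩ := hfc.exists_simple_sub _ hLP hL0
    have hs0 : s ≠ 0 := by
      rintro rfl
      exact hTs.2.1 (isZero_of_SES_left hfc.toAbSub hs rfl)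
    have e1 : (U⟦(-(N : ℤ))⟧)⟦(N : ℤ)⟧ ≅ U :=
      (shiftFunctorCompIsoId C (-(N : ℤ)) (N : ℤ) (by ring)).app U
    have h1 : (s⟦(N : ℤ)⟧' ≫ e1.hom) ≫ u = 0 := h0 T hTs _
    obtain ⟨α, β, hinv⟩ := exists_invrot hT
    obtain ⟨w, hw⟩ := Triangle.coyoneda_exact₂ _ hinv _ h1
    have hw0 : w = 0 := by
      refine (Slicing.in_of_P (I := Set.Ici (ψ + N)) (P_shift_int σ hTs.1 (N : ℤ)) ?_).hom_zero
        (hR.shift_neg_one) ?_ w
      · show ψ + (N : ℝ) ≤ ψ + ((N : ℤ) : ℝ)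
        push_cast
        exact le_rfl
      · rintro x hx _ ⟨y, hy, rfl⟩
        have hx' : ψ + N ≤ x := hx
        have hy' : ¬ (ψ + N ≤ y) := hy
        show y - 1 < x
        linarith [not_le.1 hy']
    rw [hw0, zero_comp] at hw
    apply hs0
    apply (shiftFunctor C (N : ℤ)).map_injective
    rw [← cancel_mono e1.hom, hw]
    simp
  have hiso := iso_of_isZero₁ hT hUz
  have hXl : σ.sl.In (Set.Ici (ψ + N))ᶜ X := hR.iso (asIso r).symm
  have hX2 : σ.sl.In (Set.Ici ψ ∩ (Set.Ici (ψ + N))ᶜ) X :=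
    Slicing.In.inter (isUpperSet_Ici _) (isUpperSet_Ici _) (hX.mono (fun x hx => hx.1)) hXl
  obtain ⟨l, hl, hI⟩ := hX2
  obtain ⟨m, hm, hlm⟩ := NTP_bound l (ψ + N) (fun x hx => by
    have h1 : ¬ (ψ + N ≤ x) := (hI x hx).2
    exact not_le.1 h1)
  refine ⟨σ, m - N, Joined.refl _, l, hl, ?_⟩
  intro x hx
  have h1 : ψ ≤ x := (hI x hx).1
  constructor
  · linarith
  · linarith [hlm x hx]

end Pool.SR
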