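import Mathlib
import Pool.Agent.Work.MP_841263_sr.Interface

/-! # Block NUL: the induction on the rank and on the number of blocks (helper3) -/

open CategoryTheory CategoryTheory.Limits CategoryTheory.Pretriangulated
open scoped ZeroObject Topology RealInnerProductSpace
open Filter

set_option backward.isDefEq.respectTransparency false
set_option backward.defeqAttrib.useBackward true
set_option linter.unusedSectionVars false

namespace Pool.SR

open Pool.Stab Pool.Tube Pool.Align Pool.Blk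

universe v u

section

variable {C : Type u} [Category.{v} C] [Preadditive C] [HasZeroObject C] [HasShift C ℤ]
  [∀ n : ℤ, (shiftFunctor C n).Additive] [Pretriangulated C] [IsTriangulated C] [Linear ℂ C]
  [∀ n : ℤ, (shiftFunctor C n).Linear ℂ]

/-- `Done` goes back along `Joined`. -/
lemma NUL_back {σ σ' : StabCond C} {N : ℕ} {X : C} (h : Joined σ σ') (hd : Done σ' N X) :
    Done σ N X := by
  obtain ⟨τ, φ, h1, h2⟩ := hd
  exact ⟨τ, φ, h.trans h1, h2⟩

/-- One block is removed from the cover. -/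
lemma NUL_cov {h : EllipticSetting C} {ψ : ℝ} {N : ℕ} {X : C} {σ σ' : StabCond C}
    {J : C → Prop} (hR : Rem h ψ N X σ J σ') {n : ℕ} {F : Finset (C → Prop)}
    (hF : F.card ≤ n + 1) (hJ : J ∈ F)
    (hc : ∀ T, σ.Stable ψ T → (∃ f : T⟦(N : ℤ)⟧ ⟶ X, f ≠ 0) →
      ∃ J ∈ F, IsBlock σ ψ J ∧ J T) : Cov σ' ψ N X n := by
  classical
  refine ⟨F.erase J, ?_, ?_⟩
  · rw [Finset.card_erase_of_mem hJ]
    omega
  · intro T hT hf
    obtain ⟨⟨h1, h2⟩, h3⟩ := hR.oth T hT hf
    obtain ⟨J₁, hJ₁, h4, h5⟩ := hc T h1 hf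
    refine ⟨J₁, Finset.mem_erase.2 ⟨?_, hJ₁⟩, h3 J₁ h4 h5, h5⟩
    rintro rfl
    exact h2 h5

/-- NUL. -/
theorem p_NUL : Stmt_NTP C → Stmt_FCV C → Stmt_INN C → Stmt_NUL C := by
  intro hNTP hFCV hINN h ψ N X hX hN
  suffices H : ∀ (r n : ℕ) (σ : StabCond C), Module.finrank ℤ (σ.im ψ).ker < r →
      Cov σ ψ N X n → Pos h σ ψ N X → Done σ N X by
    intro σ hσ
    obtain ⟨n, hn⟩ := hFCV h σ ψ N X hσ.mem
    exact H _ n σ (Nat.lt_succ_self _) hn hσ
  intro r
  induction r with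
  | zero => intro n σ hr; exact absurd hr (Nat.not_lt_zero _)
  | succ r ih =>
    intro n
    induction n with
    | zero =>
      intro σ hr hc hσ
      obtain ⟨F, hF, hc⟩ := hc
      refine hNTP h σ ψ N X hσ.mem ?_
      intro T hT f
      by_contra hf
      obtain ⟨J, hJ, -, -⟩ := hc T hT ⟨f, hf⟩
      have : F = ∅ := Finset.card_eq_zero.1 (by omega)
      rw [this] at hJ
      exact absurd hJ (Finset.notMem_empty _)
    | succ n ihn =>
      intro σ hr hc hσ
      obtain ⟨F, hF, hc⟩ := hc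
      by_cases h0 : ∀ T, σ.Stable ψ T → ∀ f : T⟦(N : ℤ)⟧ ⟶ X, f = 0
      · exact hNTP h σ ψ N X hσ.mem h0
      · push Not at h0
        obtain ⟨T, hT, f, hf⟩ := h0
        obtain ⟨J, hJ, hB, -⟩ := hc T hT ⟨f, hf⟩
        rcases hINN h σ ψ N J X hX hN hB hσ with (hd | ⟨σ', h1, h2, h3⟩) | ⟨σ', hR⟩
        · exact hd
        · obtain ⟨m, hm⟩ := hFCV h σ' ψ N X h2.mem
          exact NUL_back h1 (ih m σ' (by omega) hm h2)
        · have him : σ'.im ψ = σ.im ψ := AddMonoidHom.ext hR.im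
          refine NUL_back hR.joined (ihn σ' ?_ (NUL_cov hR hF hJ hc) hR.pos)
          rw [him]
          exact hr

end

end Pool.SR
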