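import Mathlib
import Pool.Agent.Work.MP_841263_sr.Lem42

open CategoryTheory CategoryTheory.Limits CategoryTheory.Pretriangulated
open scoped ZeroObject Topology RealInnerProductSpace
open Filter

set_option backward.isDefEq.respectTransparency false
set_option backward.defeqAttrib.useBackward true
set_option linter.unusedSectionVars false

namespace Pool.SR

open Pool.Stab Pool.Tube Pool.Align Pool.Blk

universe v u

variable {C : Type u} [Category.{v} C] [Preadditive C] [HasZeroObject C] [HasShift C ℤ]
  [∀ n : ℤ, (shiftFunctor C n).Additive] [Pretriangulated C] [IsTriangulated C] [Linear ℂ C]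
  [∀ n : ℤ, (shiftFunctor C n).Linear ℂ]

theorem p_OGN : Stmt_OGN C := by
  intro J Y hY E hE
  induction hE with
  | zero h0 => exact ⟨Orth.of_isZero h0, orth_of_isZero_left h0⟩
  | of hE => exact hY _ hE
  | ext hT _ _ h1 h2 => exact ⟨Orth.ext hT h1.1 h2.1, orthL_ext hT h1.2 h2.2⟩

end Pool.SR
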