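import Mathlib
import Pool.Agent.Work.MP_841263_sr.Lem42

open CategoryTheory CategoryTheory.Limits CategoryTheory.Pretriangulated
open scoped ZeroObject Topology RealInnerProductSpace
open Filter

set_option backward.isDefEq.respectTransparency false
set_option backward.defeqAttrib.useBackward true
set_option linter.unusedSectionVars false

namespace Pool.SR

open Pool.Stab Pool.Tube Pool.Align Pool.Blk

universe v u

variable {C : Type u} [Category.{v} C] [Preadditive C] [HasZeroObject C] [HasShift C ℤ]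
  [∀ n : ℤ, (shiftFunctor C n).Additive] [Pretriangulated C] [IsTriangulated C] [Linear ℂ C]
  [∀ n : ℤ, (shiftFunctor C n).Linear ℂ]

lemma OTC_dir (h : EllipticSetting C) (σ σ' : StabCond C) (ψ : ℝ)
    (J J' : C → Prop) (hJ : IsBlock σ ψ J) (hJ' : IsBlock σ' ψ J')
    (hO : ∀ Y, OrthG J Y ↔ OrthG J' Y)
    (hP : ∀ Y, OrthG J Y → (σ.sl.P ψ Y ↔ σ'.sl.P ψ Y)) (T : C) (hT : Oth σ ψ J T) :
    Oth σ' ψ J' T := by
  obtain ⟨hTs, hTJ⟩ := hT
  have hA := (finCat_P h σ ψ).toAbSub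
  have hfc' := finCat_P h σ' ψ
  have hA' := hfc'.toAbSub
  have hTO : OrthG J T := fun S hS => ⟨(hJ.orth S T hS hTs hTJ).2, (hJ.orth S T hS hTs hTJ).1⟩
  have hTO' : OrthG J' T := (hO T).1 hTO
  have hTP' : σ'.sl.P ψ T := (hP T hTO).1 hTs.1
  refine ⟨⟨hTP', hTs.2.1, ?_⟩, ?_⟩
  · intro T₁ T₂ f g k hTri h1 h2
    by_contra hcon
    push Not at hcon
    obtain ⟨hz1, hz2⟩ := hcon
    have hs : SES (σ'.sl.P ψ) f g := ⟨h1, hTP', h2, k, hTri⟩
    obtain ⟨V, Q, s, q, hsq, hV⟩ := hfc'.exists_simple_sub T₁ h1 hz1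
    have hsf : s ≫ f ≠ 0 := by
      intro h3
      have h4 : s = 0 := hs.mono hA' hV.1 s h3
      exact hV.2.1 (isZero_of_SES_left hA' hsq h4)
    have hVJ' : ¬ J' V := by
      intro hc
      exact hsf (orth_zero (hTO' V hc).2 (s ≫ f))
    have hVO' : OrthG J' V := fun S hS =>
      ⟨(hJ'.orth S V hS hV hVJ').2, (hJ'.orth S V hS hV hVJ').1⟩
    have hVO : OrthG J V := (hO V).2 hVO'
    have hVP : σ.sl.P ψ V := (hP V hVO).2 hV.1
    obtain ⟨K, κ, hK⟩ := hA.epi_simple hVP hTs (s ≫ f) hsf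
    obtain ⟨hKP, -, -, d, hKT⟩ := hK
    have hKO : OrthG J K := by
      obtain ⟨a', c', hinv⟩ := exists_invrot hKT
      exact fun S hS => ⟨orthL_first hKT (hVO S hS).1 (hTO S hS).1,
        Orth.first hKT (hVO S hS).2 (hTO S hS).2⟩
    have hKP' : σ'.sl.P ψ K := (hP K hKO).1 hKP
    have hK0 : IsZero K := (hV.2.2 K T κ (s ≫ f) d hKT hKP' hTP').resolve_right hTs.2.1
    have hiso : IsIso (s ≫ f) := iso_of_isZero₁ hKT hK0
    have hg : g = 0 := by
      have h5 : (s ≫ f) ≫ g = 0 := by rw [Category.assoc, hs.comp_zero, comp_zero]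
      rw [← cancel_epi (s ≫ f), h5, comp_zero]
    exact hz2 (isZero_of_SES_right hA' hs hg)
  · intro hc
    exact not_orth_self hTs.2.1 (hTO' T hc).1

theorem p_OTC : Stmt_OGN C → Stmt_OTC C := by
  intro _ h σ σ' ψ J J' hJ hJ' hO hP T
  constructor
  · exact OTC_dir h σ' σ ψ J' J hJ' hJ (fun Y => (hO Y).symm)
      (fun Y hY => (hP Y ((hO Y).2 hY)).symm) T
  · exact OTC_dir h σ σ' ψ J J' hJ hJ' hO hP T

end Pool.SR
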