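import Mathlib
import Pool.Agent.Work.MP_841263_sr.Interface
import Pool.Agent.Work.MP_841263_sr.B_MZ2

open CategoryTheory CategoryTheory.Limits CategoryTheory.Pretriangulated
open scoped ZeroObject Topology RealInnerProductSpace
open Filter

set_option backward.isDefEq.respectTransparency false
set_option backward.defeqAttrib.useBackward true
set_option linter.unusedSectionVars false

namespace Pool.SR

open Pool.Stab Pool.Tube Pool.Align Pool.Blk

universe v u

variable {C : Type u} [Category.{v} C] [Preadditive C] [HasZeroObject C] [HasShift C ℤ]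
  [∀ n : ℤ, (shiftFunctor C n).Additive] [Pretriangulated C] [IsTriangulated C] [Linear ℂ C]
  [∀ n : ℤ, (shiftFunctor C n).Linear ℂ]

theorem p_RDB : Stmt_MZ1 C → Stmt_RDB C := by
  intro hMZ1 h σ ψ J S₀ H B hG hS₀ hrad hall hH hB hB0 hHB hHB1
  have hfc := finCat_P h σ ψ
  have hst : ∀ S, J S → SimpleIn (σ.sl.P ψ) S := fun S hS => hG.stable S hS
  obtain ⟨S, Q, s, q, hsq, hS⟩ := hfc.exists_simple_sub B (hG.gen_P h hB) hB0
  obtain ⟨g1, g2⟩ := hfc.toAbSub.serre hst hB _ _ _ _ hsq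
  have hGS : J S := MZ2_mem hG hS g1
  obtain ⟨-, -, -, c, hT⟩ := hsq
  obtain ⟨e⟩ := hall S hGS
  -- `Hom(H, S) = 0`
  have hHS : ∀ f : H ⟶ S, f = 0 := by
    intro f
    have h1 := hHB (f ≫ s)
    obtain ⟨a, b, hT'⟩ := exists_invrot hT
    obtain ⟨g, hg⟩ := Triangle.coyoneda_exact₂ _ hT' f h1
    have h2 : g = 0 := by
      refine Slicing.In.hom_zero (I := Set.Ico ψ (ψ + 1)) (J := Set.Iio ψ) hH ?_ ?_ g
      · refine ((Slicing.in_of_P (hG.gen_P h g2) (Set.mem_singleton ψ)).shift_neg_one).mono ?_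
        rintro _ ⟨φ, hφ, rfl⟩
        have : φ = ψ := hφ
        show φ - 1 < ψ
        linarith
      · intro φ hφ χ hχ
        exact lt_of_lt_of_le hχ hφ.1
    rw [hg, h2]
    exact zero_comp
  have hH0 : ∀ f : H ⟶ S₀, f = 0 := by
    intro f
    have := hHS (f ≫ e.inv)
    rw [← cancel_mono e.inv, this, zero_comp]
  have hHJ : ∀ T, J T → ∀ f : H ⟶ T, f = 0 := by
    intro T hT f
    obtain ⟨e'⟩ := hall T hT
    have := hH0 (f ≫ e'.hom)
    rw [← cancel_mono e'.hom, this, zero_comp]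
  have hM : ∀ T, Gen J T → ∀ f : H ⟶ T, f = 0 := by
    intro T hT
    induction hT with
    | zero h0 => exact fun f => h0.eq_of_tgt _ _
    | of hX => exact hHJ _ hX
    | ext hT _ _ h1 h2 => exact fun f => hom_zero_of_ext₂ hT h1 h2 f
  obtain ⟨-, -, g5⟩ := hMZ1 h σ ψ J H S B Q hG hH hM ⟨s, q, c, hT⟩ g1 g2 hHB1
  have hc : eulerForm h.k3 (cls H) (cls S) = 0 := by
    rw [eulerForm_symm, cls_iso e]
    exact mem_radical.1 hrad _
  obtain ⟨o1, o2⟩ := g5 hc
  intro T hT
  obtain ⟨e'⟩ := hall T hT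
  have e'' : S ≅ T := e ≪≫ e'.symm
  refine ⟨?_, ?_⟩
  · intro n f
    have := o1 n (f ≫ (shiftFunctor C n).map e''.inv)
    rw [← cancel_mono ((shiftFunctor C n).map e''.inv), this, zero_comp]
  · intro n f
    have := o2 n (e''.hom ≫ f)
    rw [← cancel_epi e''.hom, this, comp_zero]

end Pool.SR
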