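import Mathlib
import Pool.Agent.Work.MP_841263_sr.Lem42

open CategoryTheory CategoryTheory.Limits CategoryTheory.Pretriangulated
open scoped ZeroObject Topology RealInnerProductSpace
open Filter

set_option backward.isDefEq.respectTransparency false
set_option backward.defeqAttrib.useBackward true
set_option linter.unusedSectionVars false

namespace Pool.SR

open Pool.Stab Pool.Tube Pool.Align Pool.Blk

universe v u

variable {C : Type u} [Category.{v} C] [Preadditive C] [HasZeroObject C] [HasShift C ℤ]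
  [∀ n : ℤ, (shiftFunctor C n).Additive] [Pretriangulated C] [IsTriangulated C] [Linear ℂ C]
  [∀ n : ℤ, (shiftFunctor C n).Linear ℂ]

theorem p_RLB : Stmt_RLB C := by
  intro h ψ σ σ' J J' hJ hJ' hR J₁ T hJ₁ hT hTO
  have hdis : ∀ S, J₁ S → ¬ J S := fun S hS hc =>
    hTO.2 ((block_eq h hJ₁ hJ hS hc T).1 hT)
  have hO : ∀ S, J₁ S → Oth σ' ψ J' S := fun S hS =>
    (hR.oth S).2 ⟨hJ₁.stable S hS, hdis S hS⟩
  refine ⟨hJ₁.ne, fun S hS => (hO S hS).1, hJ₁.iso, ?_, hJ₁.conn⟩
  intro S T' hS hT' hnT'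
  by_cases hJT : J' T'
  · have h1 : OrthG J S := fun S' hS' => by
      have := hJ.orth S' S hS' (hJ₁.stable S hS) (hdis S hS)
      exact ⟨this.2, this.1⟩
    exact hR.orth S h1 T' hJT
  · have h2 : Oth σ ψ J T' := (hR.oth T').1 ⟨hT', hJT⟩
    exact hJ₁.orth S T' hS h2.1 hnT'

end Pool.SR
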