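import Mathlib
import Pool.Agent.Work.MP_841263_sr.Lem42

/-! # Block RLO: the relation of a lowering step -/

open CategoryTheory CategoryTheory.Limits CategoryTheory.Pretriangulated
open scoped ZeroObject Topology RealInnerProductSpace
open Filter

set_option backward.isDefEq.respectTransparency false
set_option backward.defeqAttrib.useBackward true
set_option linter.unusedSectionVars false

namespace Pool.SR

open Pool.Stab Pool.Tube Pool.Align Pool.Blk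

universe v u

variable {C : Type u} [Category.{v} C] [Preadditive C] [HasZeroObject C] [HasShift C ℤ]
  [∀ n : ℤ, (shiftFunctor C n).Additive] [Pretriangulated C] [IsTriangulated C] [Linear ℂ C]
  [∀ n : ℤ, (shiftFunctor C n).Linear ℂ]

lemma RLO_shift_iso (X : C) : Nonempty ((X⟦(-1 : ℤ)⟧)⟦(1 : ℤ)⟧ ≅ X) :=
  ⟨(shiftFunctorCompIsoId C (-1 : ℤ) 1 (by simp)).app X⟩

/-- Objects orthogonal to `J` are orthogonal to `J'`. -/
lemma RLO_fwd (hOGN : Stmt_OGN C) {J J' : C → Prop} {S : C}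
    (hiso : ∀ X Y, Nonempty (X ≅ Y) → J X → J Y) (hS : J S)
    (hdown : Pool.WS.Down (Gen J) S (Gen J')) {Y : C} (hY : OrthG J Y) : OrthG J' Y := by
  intro S' hS'
  obtain ⟨F, T, f, g, k, hT, hF, -, hTS⟩ := (hdown S').1 (Gen.of hS')
  have hTJ : Gen J T := hTS.mono fun X ⟨e⟩ => hiso S X ⟨e.symm⟩ hS
  have h1 := hOGN J Y hY F hF
  have h2 := hOGN J Y hY T hTJ
  exact ⟨h1.1.ext hT (h2.1.shift (-1)), orthL_ext hT h1.2 (orthL_shift h2.2 (-1))⟩

/-- Objects orthogonal to `J'` are orthogonal to `J`. -/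
lemma RLO_bwd (hOGN : Stmt_OGN C) (h : EllipticSetting C) {ψ : ℝ} {σ : StabCond C}
    {J J' : C → Prop} {S : C} (hJ : IsBlock σ ψ J) (hS : J S)
    (hdown : Pool.WS.Down (Gen J) S (Gen J')) {Y : C} (hY : OrthG J' Y) : OrthG J Y := by
  intro S₁ hS₁
  by_cases he : Nonempty (S ≅ S₁)
  · obtain ⟨e⟩ := he
    have h1 : Gen J' (S⟦(-1 : ℤ)⟧) := by
      refine (hdown _).2 ⟨0, S, 0, 𝟙 _, 0, contractible_distinguished₁ _,
        Gen.zero (isZero_zero C), fun a => (isZero_zero C).eq_of_tgt _ _,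
        Gen.of ⟨Iso.refl _⟩⟩
    obtain ⟨h2, h3⟩ := hOGN J' Y hY _ h1
    obtain ⟨e'⟩ := RLO_shift_iso S
    exact ⟨((h2.shift 1).iso e').iso e, orthL_iso (orthL_iso (orthL_shift h3 1) e') e⟩
  · have h1 : Gen J' S₁ := by
      have hz : IsZero ((0 : C)⟦(-1 : ℤ)⟧) := (isZero_shift_iff _ _).2 (isZero_zero C)
      have hT : Triangle.mk (𝟙 S₁) (0 : S₁ ⟶ (0 : C)⟦(-1 : ℤ)⟧) 0 ∈ distTriang C := by
        refine isomorphic_distinguished _ (contractible_distinguished S₁) _ ?_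
        exact Triangle.isoMk _ _ (Iso.refl _) (Iso.refl _) (hz.iso (isZero_zero C))
          (by simp) (by simp) (hz.eq_of_src _ _)
      refine (hdown _).2 ⟨S₁, 0, 𝟙 _, 0, 0, hT, Gen.of hS₁, ?_, Gen.zero (isZero_zero C)⟩
      intro a
      by_contra ha
      have := (finCat_P h σ ψ).toAbSub.schur (hJ.stable S hS) (hJ.stable S₁ hS₁) a ha
      exact he ⟨asIso a⟩
    exact hOGN J' Y hY _ h1

/-- RLO. -/
theorem p_RLO : Pool.Move.Stmt_SLI C → Stmt_OGN C → Stmt_OTC C → Stmt_RLO C := by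
  intro hSLI hOGN hOTC h ψ σ σ' J J' S hJ hS hL
  have hO : ∀ Y, OrthG J Y ↔ OrthG J' Y := fun Y =>
    ⟨RLO_fwd hOGN hJ.iso hS hL.down, RLO_bwd hOGN h hJ.toIsBlock hS hL.down⟩
  have hP : ∀ Y, OrthG J Y → (σ.sl.P ψ Y ↔ σ'.sl.P ψ Y) := by
    intro Y hY
    constructor
    · intro hYP
      have h1 : σ.sl.In (Set.Ico ψ (ψ + 1)) Y :=
        Slicing.in_of_P hYP ⟨le_refl _, by linarith⟩
      have h2 := hL.tn.lo Y h1 (fun f => orth_zero (hY S hS).2 f)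
      have h3 : σ'.im ψ (cls Y) = 0 := by
        rw [hL.tn.im]
        exact (hSLI σ ψ Y).2.2.2.2.1 hYP
      exact (hSLI σ' ψ Y).2.2.2.1 h2 h3
    · intro hYP
      have h0 : σ'.sl.P (ψ + 1) (Y⟦(1 : ℤ)⟧) := (σ'.sl.shift_mem ψ Y).1 hYP
      have h1 : σ'.sl.In (Set.Ioc ψ (ψ + 1)) (Y⟦(1 : ℤ)⟧) :=
        Slicing.in_of_P h0 ⟨by linarith, le_refl _⟩
      have h2 := hL.tn.hi _ h1 (fun f => orth_zero (orthL_shift (hY S hS).1 1) f)
      have h3 : σ.im ψ (cls (Y⟦(1 : ℤ)⟧)) = 0 := by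
        rw [cls_shift_one, map_neg, ← hL.tn.im, (hSLI σ' ψ Y).2.2.2.2.1 hYP, neg_zero]
      exact (σ.sl.shift_mem ψ Y).2 ((hSLI σ ψ _).2.1 h2 h3)
  exact
    { joined := hL.joined
      im := hL.tn.im
      oth := hOTC h σ σ' ψ J J' hJ.toIsBlock hL.blk.toIsBlock hO hP
      orth := fun Y hY => (hO Y).1 hY }

end Pool.SR
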