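import Mathlib
import Pool.Agent.Work.MP_841263_sr.Lem42

open CategoryTheory CategoryTheory.Limits CategoryTheory.Pretriangulated
open scoped ZeroObject Topology RealInnerProductSpace
open Filter

set_option backward.isDefEq.respectTransparency false
set_option backward.defeqAttrib.useBackward true
set_option linter.unusedSectionVars false

namespace Pool.SR

open Pool.Stab Pool.Tube Pool.Align Pool.Blk

universe v u

variable {C : Type u} [Category.{v} C] [Preadditive C] [HasZeroObject C] [HasShift C ℤ]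
  [∀ n : ℤ, (shiftFunctor C n).Additive] [Pretriangulated C] [IsTriangulated C] [Linear ℂ C]
  [∀ n : ℤ, (shiftFunctor C n).Linear ℂ]

theorem p_RMR : Stmt_OGN C → Stmt_RLB C → Stmt_RMR C := by
  intro hOGN hRLB h ψ N X A B σ σ' J J' hJ hJ' hR hPos hTop hB1 hup
  refine ⟨hR.joined, hPos, hR.im, ?_⟩
  rintro T hT ⟨f, hf⟩
  have key : ¬ J' T := by
    intro hJT
    apply hf
    obtain ⟨R, ⟨a, r, c, hTri⟩, hRI, hA, hAJ, hB⟩ := hTop
    have hTI : σ.sl.In (Set.Ici ψ) T :=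
      hup T (Slicing.in_of_P hT.1 (Set.mem_Ici.2 le_rfl))
    have h1 : f ≫ r = 0 := by
      obtain ⟨l, hl, hI⟩ := hTI
      refine Slicing.In.hom_zero (I := Set.Ici (ψ + N)) (J := Set.Iio (ψ + N))
        ⟨_, hl.shift_int (fun φ X n hX => P_shift_int σ hX n) (N : ℤ), ?_⟩ hRI ?_ _
      · intro χ hχ
        obtain ⟨ω, hω, rfl⟩ := List.mem_map.1 hχ
        have h2 : ψ ≤ ω := hI ω hω
        show ψ + (N : ℝ) ≤ ω + ((N : ℤ) : ℝ)
        push_cast
        linarith
      · intro x hx y hy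
        have hx' : ψ + N ≤ x := hx
        have hy' : y < ψ + N := hy
        linarith
    obtain ⟨g, hg⟩ := Triangle.coyoneda_exact₂ _ hTri f h1
    obtain ⟨g₀, hg₀⟩ : ∃ g₀ : T ⟶ A ⊞ B, g₀⟦(N : ℤ)⟧' = g :=
      ⟨(shiftFunctor C (N : ℤ)).preimage g, Functor.map_preimage _ _⟩
    have h2 : g₀ = 0 := by
      apply biprod.hom_ext
      · rw [zero_comp]
        exact orth_zero (hR.orth A hAJ T hJT).2 _
      · rw [zero_comp]
        have e : (B⟦(1 : ℤ)⟧)⟦(-1 : ℤ)⟧ ≅ B :=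
          (shiftFunctorCompIsoId C (1 : ℤ) (-1 : ℤ) (by ring)).app B
        have h3 : σ'.sl.P (ψ - 1) B := σ'.sl.iso_mem _ e
          (Slicing.P_shift_neg_one _ _ (hJ'.gen_P h hB1))
        exact σ'.sl.hom_zero (by linarith) hT.1 h3 _
    rw [hg, ← hg₀, h2]
    simp
  have hO : Oth σ ψ J T := (hR.oth T).1 ⟨hT, key⟩
  exact ⟨hO, fun J₁ hJ₁ hJ₁T => hRLB h ψ σ σ' J J' hJ hJ' hR J₁ T hJ₁ hJ₁T hO⟩

end Pool.SR
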