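import Mathlib
import Pool.Agent.Work.MP_841263_sr.Interface

open CategoryTheory CategoryTheory.Limits CategoryTheory.Pretriangulated
open scoped ZeroObject Topology RealInnerProductSpace
open Filter

set_option backward.isDefEq.respectTransparency false
set_option backward.defeqAttrib.useBackward true
set_option linter.unusedSectionVars false

namespace Pool.SR

open Pool.Stab Pool.Tube Pool.Align Pool.Blk

universe v u

variable {C : Type u} [Category.{v} C] [Preadditive C] [HasZeroObject C] [HasShift C ℤ]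
  [∀ n : ℤ, (shiftFunctor C n).Additive] [Pretriangulated C] [IsTriangulated C] [Linear ℂ C]
  [∀ n : ℤ, (shiftFunctor C n).Linear ℂ]

theorem p_RRX : Pool.Align.Stmt_RR2 C → Pool.Align.Stmt_PRK.{u} → Stmt_TCX C → Stmt_BCX C →
    Stmt_RRX C := by
  intro hRR2 hPRK hTCX hBCX h n ρ hG σ ψ N J X A B M hJ hPos hTop hMq x hx hx0 hFB hTB
  have hfin : Module.Finite ℤ (K0 C) := h.finite
  have hfree : Module.Free ℤ (K0 C) := h.free
  have hXi : σ.sl.In (Set.Ici ψ) X := hPos.mem.mono (fun y hy => hy.1)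
  obtain ⟨σ', hj, hmem, hiff, -, -⟩ := hRR2 h σ ψ N 1 (Pool.WS.fn ρ x) (fun _ => X)
    (fun _ => hTCX h n ρ hG σ ψ N J X A B hJ hTop x hx hFB)
    (fun _ => hBCX h n ρ hG σ ψ J X M hJ hXi hMq x hx hTB)
  refine Or.inr ⟨σ', hj, ⟨?_, hmem 0⟩, ?_⟩
  · obtain ⟨r, hr, hr0, him⟩ := hPos.rat
    refine ⟨r, hr, hr0, (hiff r).2 ⟨him, ?_⟩⟩
    have h1 : ρ r = 0 := by
      have h2 : ⟪ρ r, ρ r⟫ = (0 : ℝ) := by
        rw [hG.gram, mem_radical.1 hr r]
        simp
      exact inner_self_eq_zero.1 h2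
    change ⟪x, ρ r⟫ = (0 : ℝ)
    rw [h1, inner_zero_right]
  · refine hPRK (K0 C) (σ.im ψ) (σ'.im ψ) (Pool.WS.fn ρ x) hiff ?_
    by_contra hcon
    push Not at hcon
    apply hx0
    have h1 : ∀ v ∈ Pool.WS.EW (Gen J) ρ, ⟪x, v⟫ = (0 : ℝ) := by
      intro v hv
      unfold Pool.WS.EW at hv
      induction hv using Submodule.span_induction with
      | mem v hv =>
        obtain ⟨E, hE, rfl⟩ := hv
        exact hcon _ (im_P σ (hJ.toIsBlock.gen_P h hE))
      | zero => simp
      | add a b _ _ ha hb => rw [inner_add_right, ha, hb, add_zero]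
      | smul c a _ ha => rw [real_inner_smul_right, ha, mul_zero]
    exact inner_self_eq_zero.1 (h1 x hx)

end Pool.SR
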