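import Mathlib
import Pool.Agent.Work.MP_841263_sr.Lem42

open CategoryTheory CategoryTheory.Limits CategoryTheory.Pretriangulated
open scoped ZeroObject Topology RealInnerProductSpace
open Filter

set_option backward.isDefEq.respectTransparency false
set_option backward.defeqAttrib.useBackward true
set_option linter.unusedSectionVars false

namespace Pool.SR

open Pool.Stab Pool.Tube Pool.Align Pool.Blk

universe v u

variable {C : Type u} [Category.{v} C] [Preadditive C] [HasZeroObject C] [HasShift C ℤ]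
  [∀ n : ℤ, (shiftFunctor C n).Additive] [Pretriangulated C] [IsTriangulated C] [Linear ℂ C]
  [∀ n : ℤ, (shiftFunctor C n).Linear ℂ]

theorem p_SPT : Stmt_OGN C → Stmt_TPX C → Stmt_HNX C → Stmt_SPT C := by
  intro hOGN hTPX hHNX h σ ψ N J X hX hN hJ hI hL hT
  obtain ⟨T, hTJ, φ, hφ⟩ := hT
  obtain ⟨U, Y, ⟨u, y, k, hUY⟩, hU, hY, hYJ⟩ := hL
  obtain ⟨A, B, hTop⟩ := hTPX h σ ψ N J X hJ hI
  have hHN := hHNX h σ ψ N J X A B hJ hTop T (Gen.of hTJ)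
  obtain ⟨R, ⟨a, r, c, hTri⟩, hR, hA, hAJ, hB⟩ := hTop
  have hBP : σ.sl.P ψ B := hJ.gen_P h hB
  have hAB : σ.sl.In (Set.Ici (ψ + N)) ((A ⊞ B)⟦(N : ℤ)⟧) := by
    have h1 : σ.sl.In (Set.Ici ψ) (A ⊞ B) :=
      Slicing.In.ext_upper (isUpperSet_Ici _) (binaryBiproductTriangle_distinguished A B)
        (Slicing.in_of_P hA (Set.mem_Ici.2 le_rfl)) (Slicing.in_of_P hBP (Set.mem_Ici.2 le_rfl))
    obtain ⟨l, hl, hI⟩ := h1
    refine ⟨_, hl.shift_int (fun φ X n hX => P_shift_int σ hX n) N, ?_⟩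
    intro χ hχ
    obtain ⟨ω, hω, rfl⟩ := List.mem_map.1 hχ
    have h2 : ψ ≤ ω := hI ω hω
    show ψ + N ≤ ω + ((N : ℤ) : ℝ)
    push_cast
    linarith
  obtain ⟨e, -⟩ := trunc_iso σ hUY hTri hU hY hAB hR
  have hRJ : OrthG J R := hYJ.iso e
  have hRB : Orth R B := (hOGN J R hRJ B hB).1
  -- the retraction
  set i : B⟦(N : ℤ)⟧ ⟶ (A ⊞ B)⟦(N : ℤ)⟧ :=
    (N : ℤ).negOnePow • ((biprod.inr : B ⟶ A ⊞ B)⟦(N : ℤ)⟧') with hi
  set p : (A ⊞ B)⟦(N : ℤ)⟧ ⟶ B⟦(N : ℤ)⟧ :=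
    (N : ℤ).negOnePow • ((biprod.snd : A ⊞ B ⟶ B)⟦(N : ℤ)⟧') with hp
  have hip : i ≫ p = 𝟙 _ := by
    rw [hi, hp, Linear.units_smul_comp, Linear.comp_units_smul, smul_smul, Int.units_mul_self,
      one_smul, ← Functor.map_comp, biprod.inr_snd, CategoryTheory.Functor.map_id]
  obtain ⟨ρ, hρ⟩ : ∃ ρ : X ⟶ B⟦(N : ℤ)⟧, p = a ≫ ρ := by
    obtain ⟨α, β, hinv⟩ := exists_invrot hTri
    have h1 : α ≫ p = 0 := orth_shift hRB (-1) N _
    exact Triangle.yoneda_exact₂ _ hinv _ h1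
  have hret : (i ≫ a) ≫ ρ = 𝟙 _ := by rw [Category.assoc, ← hρ, hip]
  obtain ⟨X', q, s, hX'⟩ := distinguished_cocone_triangle (i ≫ a)
  have hs : s = 0 := by
    have h1 : s ≫ (i ≫ a)⟦(1 : ℤ)⟧' = 0 := comp_distTriang_mor_zero₃₁ _ hX'
    have h2 : s ≫ ((i ≫ a) ≫ ρ)⟦(1 : ℤ)⟧' = 0 := by
      rw [Functor.map_comp, ← Category.assoc, h1, zero_comp]
    rw [hret, CategoryTheory.Functor.map_id, Category.comp_id] at h2
    exact h2
  obtain ⟨e', -, -⟩ := exists_iso_binaryBiproduct_of_distTriang _ hX' hs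
  -- `X'` is orthogonal to `J`
  have hX'J : OrthG J X' := by
    have t1 : Triangle.mk ((biprod.inr : B ⟶ A ⊞ B)) (biprod.fst : A ⊞ B ⟶ A)
        (0 : A ⟶ B⟦(1 : ℤ)⟧) ∈ distTriang C := by
      refine isomorphic_distinguished _ (binaryBiproductTriangle_distinguished B A) _ ?_
      refine Triangle.isoMk _ _ (Iso.refl _) (biprod.braiding A B) (Iso.refl _) ?_ ?_ ?_
      · apply biprod.hom_ext <;> simp
      · simp
      · simp
    obtain ⟨m, n, r', hmn, -⟩ := exists_octa (Triangle.shift_distinguished _ t1 N) hTri hX'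
    exact OrthG.ext hmn (hAJ.shift N) hRJ
  rcases hX.con _ _ ⟨e'⟩ ((fun n f => orth_shift (hOGN J X' hX'J B hB).2 N n f))
      ((hOGN J X' hX'J B hB).1.shift N) with h0 | h0
  · exfalso
    have hB0 : IsZero B := (isZero_shift_iff _ _).1 h0
    exact hφ (hHN.2 (fun f => hB0.eq_of_tgt _ _) φ)
  · have hiso : IsIso (biprod.inl : B⟦(N : ℤ)⟧ ⟶ B⟦(N : ℤ)⟧ ⊞ X') :=
      (Biprod.isIso_inl_iff_isZero _ _).2 h0
    have e2 : B⟦(N : ℤ)⟧ ≅ X :=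
      (asIso (biprod.inl : B⟦(N : ℤ)⟧ ⟶ B⟦(N : ℤ)⟧ ⊞ X')) ≪≫ e'.symm
    refine ⟨σ, ψ, Joined.refl _, ?_⟩
    have h1 := P_shift_int σ hBP N
    refine Slicing.in_of_P (φ := ψ + N) (σ.sl.iso_mem _ e2 (by simpa using h1)) ?_
    have h2 : (1 : ℝ) ≤ N := by exact_mod_cast hN
    exact ⟨by linarith, le_rfl⟩

end Pool.SR
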