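import Pool.Agent.Work.MP_841263_sr.Interface

/-! # From the closed to the half open interval, block STL (helper70): a lowering step -/

open CategoryTheory CategoryTheory.Limits CategoryTheory.Pretriangulated
open scoped ZeroObject Topology RealInnerProductSpace
open Filter

set_option backward.isDefEq.respectTransparency false
set_option backward.defeqAttrib.useBackward true
set_option linter.unusedSectionVars false

namespace Pool.SR

open Pool.Stab Pool.Tube Pool.Align Pool.Blk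

universe v u

variable {C : Type u} [Category.{v} C] [Preadditive C] [HasZeroObject C] [HasShift C ℤ]
  [∀ n : ℤ, (shiftFunctor C n).Additive] [Pretriangulated C] [IsTriangulated C] [Linear ℂ C]
  [∀ n : ℤ, (shiftFunctor C n).Linear ℂ]

lemma STL_hom {S X : C} (n : ℤ) (h : ∀ f : S⟦n⟧ ⟶ X, f = 0) (g : S ⟶ X⟦-n⟧) : g = 0 := by
  have h1 := h (g⟦n⟧' ≫ ((shiftFunctorCompIsoId C (-n) n (by simp)).app X).hom)
  have h2 : g⟦n⟧' = 0 := by
    rw [← cancel_mono ((shiftFunctorCompIsoId C (-n) n (by simp)).app X).hom, h1, zero_comp]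
  exact (shiftFunctor C n).map_injective (by rw [h2, Functor.map_zero])

lemma STL_shift {S : Slicing C} {I I' : Set ℝ} {X : C} (n : ℤ) (h : S.In I X)
    (hI : ∀ x ∈ I, x + (n : ℝ) ∈ I') : S.In I' (X⟦n⟧) := by
  refine (h.shift n).mono ?_
  rintro _ ⟨x, hx, rfl⟩
  exact hI x hx

lemma STL_unshift {S : Slicing C} {I I' : Set ℝ} {X : C} (n : ℤ) (h : S.In I (X⟦-n⟧))
    (hI : ∀ x ∈ I, x + (n : ℝ) ∈ I') : S.In I' X := by
  have h1 := (h.shift n).iso ((shiftFunctorCompIsoId C (-n) n (by simp)).app X)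
  refine h1.mono ?_
  rintro _ ⟨x, hx, rfl⟩
  exact hI x hx

theorem p_STL : Stmt_TRL C → Stmt_RLO C → Stmt_STL C := by
  intro hTRL hRLO h ψ N X k σ σ' J J' S hsb hS hs hp hlow hf
  obtain ⟨hL1, hL2, hL3⟩ := hTRL h σ σ' ψ S hs.tn
  have hR := hRLO h ψ σ σ' J J' S hsb hS hs
  refine ⟨⟨?_, ?_⟩, ?_⟩
  · obtain ⟨r, hr, hr0, him⟩ := hp.rat
    exact ⟨r, hr, hr0, by rw [hs.tn.im]; exact him⟩
  · have h1 : σ'.sl.In (Set.Ici ψ) X := hL1 X (hp.mem.mono (fun x hx => hx.1))
    have h2 : σ.sl.In (Set.Iic ψ) (X⟦(-(N : ℤ))⟧) := by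
      refine STL_shift (-(N : ℤ)) hp.mem ?_
      intro x hx
      have h3 : x ≤ ψ + N := hx.2
      show x + ((-(N : ℤ) : ℤ) : ℝ) ≤ ψ
      push_cast
      linarith
    have h3 := hL2 _ h2 (STL_hom (N : ℤ) hf)
    have h4 : σ'.sl.In (Set.Iic (ψ + N)) X := by
      refine STL_unshift (N : ℤ) h3 ?_
      intro x hx
      have h6 : x ≤ ψ := hx
      show x + (((N : ℤ) : ℤ) : ℝ) ≤ ψ + N
      push_cast
      linarith
    have h6 := Slicing.In.inter (U := Set.Ici ψ) (V := Set.Ioi (ψ + N)) (isUpperSet_Ici _)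
      (isUpperSet_Ioi _) h1 (by rwa [Set.compl_Ioi])
    refine h6.mono ?_
    rintro x ⟨hx1, hx2⟩
    exact ⟨hx1, not_lt.1 hx2⟩
  · obtain ⟨U, Y, hT, hU, hY, hYJ⟩ := hlow
    refine ⟨U, Y, hT, ?_, ?_, hR.orth Y hYJ⟩
    · have h1 : σ.sl.In (Set.Ici ψ) (U⟦(-(k : ℤ))⟧) := by
        refine STL_shift (-(k : ℤ)) hU ?_
        intro x hx
        have h3 : ψ + k ≤ x := hx
        show ψ ≤ x + ((-(k : ℤ) : ℤ) : ℝ)
        push_cast
        linarith
      refine STL_unshift (k : ℤ) (hL1 _ h1) ?_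
      intro x hx
      have h3 : ψ ≤ x := hx
      show ψ + k ≤ x + (((k : ℤ) : ℤ) : ℝ)
      push_cast
      linarith
    · have h1 : σ.sl.In (Set.Iio ψ) (Y⟦(-(k : ℤ))⟧) := by
        refine STL_shift (-(k : ℤ)) hY ?_
        intro x hx
        have h3 : x < ψ + k := hx
        show x + ((-(k : ℤ) : ℤ) : ℝ) < ψ
        push_cast
        linarith
      refine STL_unshift (k : ℤ) (hL3 _ h1 (fun f => orth_shift (hYJ S hS).2 (-1)
        (-(k : ℤ)) f)) ?_
      intro x hx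
      have h3 : x < ψ := hx
      show x + (((k : ℤ) : ℤ) : ℝ) < ψ + k
      push_cast
      linarith

end Pool.SR
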