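import Mathlib
import Pool.Agent.Work.MP_841263_sr.Interface

open CategoryTheory CategoryTheory.Limits CategoryTheory.Pretriangulated
open scoped ZeroObject Topology RealInnerProductSpace
open Filter

set_option backward.isDefEq.respectTransparency false
set_option backward.defeqAttrib.useBackward true
set_option linter.unusedSectionVars false

namespace Pool.SR

open Pool.Stab Pool.Tube Pool.Align Pool.Blk

universe v u

variable {C : Type u} [Category.{v} C] [Preadditive C] [HasZeroObject C] [HasShift C ℤ]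
  [∀ n : ℤ, (shiftFunctor C n).Additive] [Pretriangulated C] [IsTriangulated C] [Linear ℂ C]
  [∀ n : ℤ, (shiftFunctor C n).Linear ℂ]

theorem p_STP : Stmt_HKP C → Stmt_LOP C → Stmt_TPX C → Stmt_HNX C → Stmt_EXH C → Stmt_RDB C →
    Stmt_STS C → Stmt_STP C := by
  intro gHKP gLOP gTPX gHNX gEXH gRDB gSTS
  intro h σ ψ N J X k hX hJ hpos hk hlow
  have hfin := h.finite
  have hfree := h.free
  rcases hJ.dich h with hr | ⟨S₀, hS₀, hrad, huniq⟩
  · refine gSTS h σ ψ N J X k hX ⟨hJ, fun S hS => ?_⟩ hpos hk hlow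
    exact spherical_of_rigid (finCat_P h σ ψ).toAbSub h.k3 (hJ.stable S hS).1 (hr S hS).1
      (hr S hS).2
  · obtain ⟨H, hP⟩ := gHKP σ ψ J X k hlow
    obtain ⟨A, B, hT⟩ := gTPX h σ ψ N J X hJ hpos.mem
    have hHI : σ.sl.In (Set.Ico ψ (ψ + 1)) H := by
      obtain ⟨V, R, Y, -, -, -, h1, -, -⟩ := hP
      exact h1
    have hGB : Gen J B := by
      obtain ⟨R, -, -, -, -, h1⟩ := hT
      exact h1
    obtain ⟨hB0, hB1⟩ := gEXH h σ ψ N J X A B k H hX hJ hT hk hP
    right
    by_cases hB : IsZero B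
    · left
      refine ⟨σ, Joined.refl σ, hpos, fun x => rfl, ?_⟩
      rintro T hTs ⟨f, hf⟩
      refine ⟨⟨hTs, fun hJT => hf ?_⟩, fun J₁ h1 _ => h1⟩
      exact (gHNX h σ ψ N J X A B hJ hT T (Gen.of hJT)).2
        (fun g => hB.eq_of_tgt _ _) f
    · right
      have hO := gRDB h σ ψ J S₀ H B hJ hS₀ hrad huniq hHI hGB hB hB0 hB1
      exact ⟨σ, J, ⟨Joined.refl σ, fun x => rfl, fun T => Iff.rfl, fun Y hY => hY⟩, hpos, hJ,
        gLOP σ ψ J X k H hP hO⟩

end Pool.SR
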