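import Pool.Agent.Work.MP_841263_sr.Interface

/-! # From the closed to the half open interval, block STR (helper36): a raising step -/

open CategoryTheory CategoryTheory.Limits CategoryTheory.Pretriangulated
open scoped ZeroObject Topology RealInnerProductSpace
open Filter

set_option backward.isDefEq.respectTransparency false
set_option backward.defeqAttrib.useBackward true
set_option linter.unusedSectionVars false

namespace Pool.SR

open Pool.Stab Pool.Tube Pool.Align Pool.Blk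

universe v u

variable {C : Type u} [Category.{v} C] [Preadditive C] [HasZeroObject C] [HasShift C ℤ]
  [∀ n : ℤ, (shiftFunctor C n).Additive] [Pretriangulated C] [IsTriangulated C] [Linear ℂ C]
  [∀ n : ℤ, (shiftFunctor C n).Linear ℂ]

lemma STR_im (σ : StabCond C) (t : ℝ) (x : K0 C) : σ.im (t - 1) x = - σ.im t x := by
  have h1 : Complex.exp (-(Real.pi * ((t - 1 : ℝ) : ℂ) * Complex.I)) =
      - Complex.exp (-(Real.pi * t * Complex.I)) := by
    have h2 : (-(Real.pi * ((t - 1 : ℝ) : ℂ) * Complex.I) : ℂ) =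
        -(Real.pi * t * Complex.I) + Real.pi * Complex.I := by push_cast; ring
    rw [h2, Complex.exp_add, Complex.exp_pi_mul_I]
    ring
  rw [StabCond.im_apply, StabCond.im_apply, h1, mul_neg, Complex.neg_im]

theorem p_STR : Stmt_TRL C → Stmt_TRR C → Stmt_STR C := by
  intro hTRL hTRR h ψ N X σ σ' J J' S hs hp hf
  have ht : ψ - 1 + 1 = ψ := by ring
  obtain ⟨hL1, -, -⟩ := hTRL h σ' σ (ψ - 1) S hs.tn
  obtain ⟨hR1, hR2⟩ := hTRR h σ' σ (ψ - 1) S hs.tn
  rw [ht] at hR1 hR2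
  refine ⟨⟨?_, ?_⟩, ?_⟩
  · obtain ⟨r, hr, hr0, him⟩ := hp.rat
    refine ⟨r, hr, hr0, ?_⟩
    have h1 := hs.tn.im r
    rw [STR_im, STR_im, him] at h1
    linarith
  · have h1 : σ'.sl.In (Set.Ici ψ) X := hR2 X (hp.mem.mono (fun x hx => hx.1)) hf
    have h2 : σ.sl.In (Set.Iic ψ) (X⟦(-(N : ℤ))⟧) := by
      refine (hp.mem.shift (-(N : ℤ))).mono ?_
      rintro _ ⟨x, hx, rfl⟩
      have h3 : x ≤ ψ + N := hx.2
      show x + ((-(N : ℤ) : ℤ) : ℝ) ≤ ψ
      push_cast
      linarith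
    have h3 := hR1 _ h2
    have h4 : σ'.sl.In (Set.Iic (ψ + N)) X := by
      have h5 := (h3.shift (N : ℤ)).iso
        ((shiftFunctorCompIsoId C (-(N : ℤ)) (N : ℤ) (by simp)).app X)
      refine h5.mono ?_
      rintro _ ⟨x, hx, rfl⟩
      have h6 : x ≤ ψ := hx
      show x + (((N : ℤ) : ℤ) : ℝ) ≤ ψ + N
      push_cast
      linarith
    have h6 := Slicing.In.inter (U := Set.Ici ψ) (V := Set.Ioi (ψ + N)) (isUpperSet_Ici _)
      (isUpperSet_Ioi _) h1 (by rwa [Set.compl_Ioi])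
    refine h6.mono ?_
    rintro x ⟨hx1, hx2⟩
    exact ⟨hx1, not_lt.1 hx2⟩
  · intro E hE
    have h1 : σ'.sl.In (Set.Ici (ψ - 1)) (E⟦(-1 : ℤ)⟧) := by
      refine hE.shift_neg_one.mono ?_
      rintro _ ⟨x, hx, rfl⟩
      have h2 : ψ ≤ x := hx
      show ψ - 1 ≤ x - 1
      linarith
    have h2 := (hL1 _ h1).shift_one.iso
      ((shiftFunctorCompIsoId C (-1 : ℤ) (1 : ℤ) (by norm_num)).app E)
    refine h2.mono ?_
    rintro _ ⟨x, hx, rfl⟩
    have h3 : ψ - 1 ≤ x := hx
    show ψ ≤ x + 1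
    linarith

end Pool.SR
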