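import Mathlib
import Pool.Agent.Work.MP_841263_sr.Interface

open CategoryTheory CategoryTheory.Limits CategoryTheory.Pretriangulated
open scoped ZeroObject Topology RealInnerProductSpace
open Filter

set_option backward.isDefEq.respectTransparency false
set_option backward.defeqAttrib.useBackward true
set_option linter.unusedSectionVars false

namespace Pool.SR

open Pool.Stab Pool.Tube Pool.Align Pool.Blk

universe v u

variable (C : Type u) [Category.{v} C] [Preadditive C] [HasZeroObject C] [HasShift C ℤ]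
  [∀ n : ℤ, (shiftFunctor C n).Additive] [Pretriangulated C] [IsTriangulated C] [Linear ℂ C]
  [∀ n : ℤ, (shiftFunctor C n).Linear ℂ]

theorem p_STS : Pool.WS.Stmt_GRM.{u} → Pool.WS.Stmt_WSF.{u, v, u} C → Pool.Move.Stmt_MVS C →
    Stmt_BKI C → Stmt_HKP C → Stmt_TPX C → Stmt_HNX C → Stmt_EXH C → Stmt_CHL C → Stmt_CHR C →
    Stmt_RMR C → Stmt_HZR C → Stmt_RRX C → Stmt_MQX C → Stmt_MZF C → Stmt_STS C := by
  intro gGRM gWSF gMVS gBKI gHKP gTPX gHNX gEXH gCHL gCHR gRMR gHZR gRRX gMQX gMZF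
  intro h σ ψ N J X k hX hJ hpos hk hlow
  have hfin := h.finite
  have hfree := h.free
  have hJb := hJ.toIsBlock
  obtain ⟨H, hH⟩ := gHKP σ ψ J X k hlow
  obtain ⟨A, B, hT⟩ := gTPX h σ ψ N J X hJb hpos.mem
  obtain ⟨e0, e1⟩ := gEXH h σ ψ N J X A B k H hX hJb hT hk hH
  have hHI : σ.sl.In (Set.Ico ψ (ψ + 1)) H := by
    obtain ⟨V, R, Y, -, -, -, h1, -⟩ := hH
    exact h1
  have hB : Gen J B := by
    obtain ⟨R, -, -, -, -, h1⟩ := hT
    exact h1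
  have hBP := hJb.gen_P h hB
  obtain ⟨K, M, kk, m, w, hKM, hM, hKI, hK0, hKI'⟩ := hJb.quot h
    (hHI.mono (fun x hx => hx.1))
  have hKI2 := hKI' hHI
  have hMq : Mq J H M := ⟨K, ⟨kk, m, w, hKM⟩, hM, hK0⟩
  have hMB : ∀ f : M ⟶ B, f = 0 := by
    intro f
    obtain ⟨g, hg⟩ := Triangle.yoneda_exact₂ _ (rot_mk hKM) f (e0 _)
    have hg0 : g = 0 := by
      refine Slicing.In.hom_zero hKI2.shift_one (Slicing.in_of_P (I := {ψ}) hBP rfl) ?_ g
      rintro _ ⟨x, hx, rfl⟩ y hy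
      have hy' : y = ψ := hy
      rw [hy']
      have := hx.1
      linarith
    rw [hg, hg0]
    exact comp_zero
  obtain ⟨δ, hδ, hδ0, hδim⟩ := hpos.rat
  obtain ⟨D, c, hD, hDz, hc, hDc⟩ := hJb.affine h (fun S hS => (hJ.sph S hS).2 1 (by norm_num)
    (by norm_num)) hδ hδ0 hδim
  have hDr : ∀ y, eulerForm h.k3 (cls D) y = 0 := by
    intro y
    have h1 : eulerForm h.k3 δ y = 0 := mem_radical.1 hδ y
    rw [hDc, map_zsmul, AddMonoidHom.zsmul_apply, h1, smul_zero]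
  let i₀ : Pool.Move.Idx h σ ψ :=
    { σ := σ, J := J, joined := Joined.refl σ, rad := fun _ _ => rfl,
      blk := ((gBKI h σ ψ J).1 hJ).1, aff := ⟨D, hD, hDz, hDr⟩ }
  obtain ⟨n, ρ, hρ⟩ := gGRM (K0 C) (eulerForm h.k3) h.psd'
  have hG : Pool.WS.Gram h.k3 ρ := ⟨h.psd', h.even, h.finite, hρ⟩
  have hmq := gMQX h σ ψ J X k H M hJb (hpos.mem.mono (fun x hx => hx.1)) hH hMq
  rcases gWSF h.k3 n ρ hG _ _ _ _ _ _ (gMVS h σ ψ δ hδ hδ0 hδim) i₀ B M hB hM hMB with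
    ⟨j, hch, hjB, hjM⟩ | ⟨j, hch, hjM, hjB⟩ | ⟨x, hx, hx0, hFB, hTB⟩
  · obtain ⟨hpj, hlj, hbj, hrel, hlowd⟩ := gCHL h ψ N X k σ i₀ j _ hch
      (fun S hS => ⟨hS.1, (gHNX h σ ψ N J X A B hJb hT S hS.1).2 hS.2⟩) hJb.ne hpos hlow
    obtain ⟨H', hH'⟩ := gHKP j.σ ψ j.J X k hlj
    have hz := gHZR h ψ X k H M H' σ j.σ J j.J hJb hbj.toIsBlock hH hMq hlowd hjM hH'
    rcases gMZF h j.σ ψ N j.J X k H' hX hbj hpj hk hH' hz with hp | hl
    · left
      rcases hp with ⟨σ', φ, h1, h2⟩ | ⟨σ', h1, h2, h3⟩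
      · exact Or.inl ⟨σ', φ, hrel.joined.trans h1, h2⟩
      · refine Or.inr ⟨σ', hrel.joined.trans h1, h2, ?_⟩
        have h4 : j.σ.im ψ = σ.im ψ := by
          ext y
          exact hrel.im y
        rw [h4] at h3
        exact h3
    · exact Or.inr (Or.inr ⟨j.σ, j.J, hrel, hpj, hbj.toIsBlock, hl⟩)
  · have hF : ∀ S, (Gen J S ∧ ∀ E, (Gen J E ∧ ∀ f : E ⟶ B, f = 0) → ∀ f : E ⟶ S, f = 0) →
        ∀ f : X ⟶ S, f = 0 := by
      rintro S ⟨hS, hS'⟩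
      rcases Nat.eq_zero_or_pos k with hk0 | hk0
      · obtain ⟨K', ⟨a, b, d, hTr⟩, -, h2⟩ := hmq.1 hk0
        exact hom_zero_of_ext₁ hTr (fun f => h2 S hS f) (fun f => hS' M ⟨hM, hMB⟩ f)
      · obtain ⟨K', ⟨a, b, d, hTr⟩, -, h2⟩ := hmq.2 hk0
        exact hom_zero_of_ext₁ hTr (fun f => h2 S hS f)
          (fun f => (isZero_zero C).eq_of_src _ _)
    obtain ⟨hpj, hbj, hrel, hge⟩ := gCHR h ψ N X σ i₀ j _ hch hF hJb.ne hpos
    exact Or.inr (Or.inl ⟨j.σ, gRMR h ψ N X A B σ j.σ J j.J hJb hbj.toIsBlock hrel hpj hT hjB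
      hge⟩)
  · left
    rcases Nat.eq_zero_or_pos k with hk0 | hk0
    · exact gRRX h n ρ hG σ ψ N J X A B M hJ hpos hT (hmq.1 hk0) x hx hx0 hFB hTB
    · refine gRRX h n ρ hG σ ψ N J X A B 0 hJ hpos hT (hmq.2 hk0) x hx hx0 hFB ⟨?_, ?_⟩
      · exact Gen.zero (isZero_zero C)
      · rintro _ ⟨F, Q, f, g, hs, rfl⟩
        have hA : AbSub (Gen J) := (hJb.localSetting h (fun S hS => (hJ.sph S hS).2 1
          (by norm_num) (by norm_num))).toAbSub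
        have hQ : IsZero Q := isZero_of_SES_right hA hs ((isZero_zero C).eq_of_src _ _)
        rw [cls_of_isZero hQ, map_zero]

end Pool.SR
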