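import Pool.Agent.Work.MP_841263_sr.Interface
import Pool.Agent.Work.MP_841263_al.B_CLO
import Pool.Agent.Work.MP_841263_al.B_GAT

/-!
# Block SUM: the direct sum of a semi-configuration
-/

open CategoryTheory CategoryTheory.Limits CategoryTheory.Pretriangulated
open scoped ZeroObject Topology RealInnerProductSpace
open Filter

set_option backward.isDefEq.respectTransparency false
set_option backward.defeqAttrib.useBackward true
set_option linter.unusedSectionVars false

namespace Pool.SR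

open Pool.Stab Pool.Tube Pool.Align Pool.Blk

universe v u

section Aux

variable {C : Type u} [Category.{v} C] [Preadditive C] [HasZeroObject C] [HasShift C ℤ]
  [∀ n : ℤ, (shiftFunctor C n).Additive] [Pretriangulated C]

/-- Maps into a shift of the sum. -/
lemma SUM_hom_shift {n : ℕ} {S : Fin n → C} {W : C} {p : ℤ} (f : W ⟶ (⨁ S)⟦p⟧)
    (h : ∀ j, f ≫ (biproduct.π S j)⟦p⟧' = 0) : f = 0 := by
  have h1 : (𝟙 ((⨁ S)⟦p⟧)) = ∑ j, (biproduct.π S j)⟦p⟧' ≫ (biproduct.ι S j)⟦p⟧' := by
    rw [← CategoryTheory.Functor.map_id, ← biproduct.total, Functor.map_sum]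
    exact Finset.sum_congr rfl fun j _ => by rw [Functor.map_comp]
  rw [← Category.comp_id f, h1, Preadditive.comp_sum]
  refine Finset.sum_eq_zero fun j _ => ?_
  rw [← Category.assoc, h j, zero_comp]

lemma SUM_zero {n : ℕ} {S : Fin n → C} (e : ⨁ S ⟶ ⨁ S)
    (h : ∀ i j, biproduct.ι S i ≫ e ≫ biproduct.π S j = 0) : e = 0 := by
  refine biproduct.hom_ext' _ _ fun i => ?_
  refine biproduct.hom_ext _ _ fun j => ?_
  rw [Category.assoc, h i j, comp_zero, zero_comp]

variable [IsTriangulated C] {Q : Slicing C}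

lemma SUM_upper {U : Set ℝ} (hU : IsUpperSet U) {n : ℕ} {S : Fin n → C}
    (h : ∀ l, Q.In U (S l)) : Q.In U (⨁ S) := by
  obtain ⟨X', X'', f, g, k, hT, h1, h2⟩ := Q.exists_trunc (⨁ S) hU
  have hg : g = 0 := by
    refine biproduct.hom_ext' _ _ fun i => ?_
    rw [comp_zero]
    exact (h i).hom_zero h2 (IsUpperSet.sep hU) _
  have hz : IsZero X'' := isZero₃_of_mor₂ hT hg
    (fun r => (h1.shift_upper hU).hom_zero h2 (IsUpperSet.sep hU) r)
  have := iso_of_isZero₃ hT hz
  exact h1.iso (asIso f)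

lemma SUM_lower {U : Set ℝ} (hU : IsUpperSet U) {n : ℕ} {S : Fin n → C}
    (h : ∀ l, Q.In Uᶜ (S l)) : Q.In Uᶜ (⨁ S) := by
  obtain ⟨X', X'', f, g, k, hT, h1, h2⟩ := Q.exists_trunc (⨁ S) hU
  have hf : f = 0 := by
    refine biproduct.hom_ext _ _ fun i => ?_
    rw [zero_comp]
    exact h1.hom_zero (h i) (IsUpperSet.sep hU) _
  have hz : IsZero X' := isZero₁_of_mor₁ hT hf
    (fun r => (h1.shift_upper hU).hom_zero h2 (IsUpperSet.sep hU) r)
  have := iso_of_isZero₁ hT hz
  exact h2.iso (asIso g).symm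

lemma SUM_In {U V : Set ℝ} (hU : IsUpperSet U) (hV : IsUpperSet V) {n : ℕ} (S : Fin n → C) :
    Q.In (U ∩ Vᶜ) (⨁ S) ↔ ∀ l, Q.In (U ∩ Vᶜ) (S l) := by
  constructor
  · intro h l
    have hip : biproduct.ι S l ≫ biproduct.π S l = 𝟙 (S l) := biproduct.ι_π_self S l
    exact (CLO_upper hU hip (h.mono Set.inter_subset_left)).inter hU hV
      (CLO_lower hV hip (h.mono Set.inter_subset_right))
  · intro h
    exact (SUM_upper hU fun l => (h l).mono Set.inter_subset_left).inter hU hV
      (SUM_lower hV fun l => (h l).mono Set.inter_subset_right)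

end Aux

section Main

variable {C : Type u} [Category.{v} C] [Preadditive C] [HasZeroObject C] [HasShift C ℤ]
  [∀ n : ℤ, (shiftFunctor C n).Additive] [Pretriangulated C] [IsTriangulated C] [Linear ℂ C]
  [∀ n : ℤ, (shiftFunctor C n).Linear ℂ]

lemma SUM_diag {n : ℕ} {S : Fin n → C} (hS : Semi S) (e : ⨁ S ⟶ ⨁ S) :
    ∃ c : Fin n → ℂ, (∀ i, biproduct.ι S i ≫ e ≫ biproduct.π S i = c i • 𝟙 (S i)) ∧
      ∀ i, biproduct.ι S i ≫ e = c i • biproduct.ι S i := by
  have h1 : ∀ i, ∃ c : ℂ, biproduct.ι S i ≫ e ≫ biproduct.π S i = c • 𝟙 (S i) := by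
    intro i
    have h0 : 𝟙 (S i) ≠ 0 := by
      intro h0
      have h2 := (hS.sph i).1
      have : ∀ f : S i ⟶ S i, f = 0 := fun f => by rw [← Category.id_comp f, h0, zero_comp]
      have hs : Subsingleton (S i ⟶ S i) := ⟨fun a b => by rw [this a, this b]⟩
      rw [Module.finrank_zero_of_subsingleton] at h2
      exact zero_ne_one h2
    obtain ⟨c, hc⟩ := (finrank_eq_one_iff_of_nonzero' (𝟙 (S i)) h0).1 (hS.sph i).1
      (biproduct.ι S i ≫ e ≫ biproduct.π S i)
    exact ⟨c, hc.symm⟩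
  choose c hc using h1
  refine ⟨c, hc, fun i => ?_⟩
  refine biproduct.hom_ext _ _ fun j => ?_
  by_cases hij : i = j
  · subst hij
    rw [Category.assoc, hc, Linear.smul_comp, biproduct.ι_π_self]
  · rw [Category.assoc, hS.orth i j hij (biproduct.ι S i ≫ e ≫ biproduct.π S j), Linear.smul_comp, biproduct.ι_π_ne S hij, smul_zero]

lemma SUM_orth {X₁ X₂ A B : C} (h : Orth X₁ X₂) {a : A ⟶ X₁} {a' : X₁ ⟶ A} (ha : a ≫ a' = 𝟙 A)
    {b : B ⟶ X₂} {b' : X₂ ⟶ B} (hb : b ≫ b' = 𝟙 B) : Orth A B := by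
  intro m f
  have h1 : b⟦m⟧' ≫ b'⟦m⟧' = 𝟙 (B⟦m⟧) := by
    rw [← Functor.map_comp, hb, CategoryTheory.Functor.map_id]
  have h2 : a' ≫ f ≫ b⟦m⟧' = 0 := h m _
  calc f = (a ≫ a') ≫ f ≫ (b⟦m⟧' ≫ b'⟦m⟧') := by rw [ha, h1, Category.id_comp, Category.comp_id]
    _ = a ≫ (a' ≫ f ≫ b⟦m⟧') ≫ b'⟦m⟧' := by simp only [Category.assoc]
    _ = 0 := by rw [h2, zero_comp, comp_zero]

theorem SUM_good {n : ℕ} {S : Fin n → C} (hS : Semi S) : Good (⨁ S) where
  neg := by
    intro p hp f
    refine SUM_hom_shift f fun j => ?_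
    refine biproduct.hom_ext' _ _ fun i => ?_
    rw [comp_zero]
    exact hS.neg i j p hp _
  red := by
    intro e he
    obtain ⟨c, h1, h2⟩ := SUM_diag hS e
    have hc : ∀ i, c i = 0 := by
      intro i
      have h3 : biproduct.ι S i ≫ e ≫ e = 0 := by rw [he, comp_zero]
      rw [← Category.assoc, h2 i, Linear.smul_comp, h2 i, smul_smul] at h3
      have h4 : (c i * c i) • 𝟙 (S i) = 0 := by
        rw [← biproduct.ι_π_self S i, ← Linear.smul_comp, h3, zero_comp]
      have h0 : 𝟙 (S i) ≠ 0 := by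
        intro h0
        have h5 := (hS.sph i).1
        have : ∀ f : S i ⟶ S i, f = 0 := fun f => by rw [← Category.id_comp f, h0, zero_comp]
        have hs : Subsingleton (S i ⟶ S i) := ⟨fun a b => by rw [this a, this b]⟩
        rw [Module.finrank_zero_of_subsingleton] at h5
        exact zero_ne_one h5
      rcases smul_eq_zero.1 h4 with h6 | h6
      · exact mul_self_eq_zero.1 h6
      · exact absurd h6 h0
    refine biproduct.hom_ext' _ _ fun i => ?_
    rw [h2 i, hc i, zero_smul, comp_zero]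
  con := by
    intro X₁ X₂ ⟨e⟩ h12 h21
    set p : ⨁ S ⟶ ⨁ S := (e.hom ≫ biprod.fst) ≫ (biprod.inl ≫ e.inv) with hp
    set q : ⨁ S ⟶ ⨁ S := (e.hom ≫ biprod.snd) ≫ (biprod.inr ≫ e.inv) with hq
    have hpq : p + q = 𝟙 (⨁ S) := by
      have h1 : biprod.fst ≫ biprod.inl + biprod.snd ≫ biprod.inr = 𝟙 (X₁ ⊞ X₂) := biprod.total
      calc p + q = e.hom ≫ (biprod.fst ≫ biprod.inl + biprod.snd ≫ biprod.inr) ≫ e.inv := by
            simp only [hp, hq, Preadditive.add_comp, Preadditive.comp_add, Category.assoc]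
        _ = 𝟙 (⨁ S) := by rw [h1, Category.id_comp, e.hom_inv_id]
    have hpp : p ≫ p = p := by simp [hp]
    obtain ⟨c, h1, h2⟩ := SUM_diag hS p
    have h0 : ∀ i, 𝟙 (S i) ≠ 0 := by
      intro i h0
      have h5 := (hS.sph i).1
      have : ∀ f : S i ⟶ S i, f = 0 := fun f => by rw [← Category.id_comp f, h0, zero_comp]
      have hs : Subsingleton (S i ⟶ S i) := ⟨fun a b => by rw [this a, this b]⟩
      rw [Module.finrank_zero_of_subsingleton] at h5
      exact zero_ne_one h5
    have hc : ∀ i, c i = 0 ∨ c i = 1 := by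
      intro i
      have h3 : biproduct.ι S i ≫ p ≫ p = biproduct.ι S i ≫ p := by rw [hpp]
      rw [← Category.assoc, h2 i, Linear.smul_comp, h2 i, smul_smul] at h3
      have h4 : (c i * c i - c i) • 𝟙 (S i) = 0 := by
        rw [← biproduct.ι_π_self S i, ← Linear.smul_comp, sub_smul, h3, sub_self, zero_comp]
      rcases smul_eq_zero.1 h4 with h6 | h6
      · have h7 : c i * (c i - 1) = 0 := by linear_combination h6
        rcases mul_eq_zero.1 h7 with h8 | h8
        · exact Or.inl h8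
        · exact Or.inr (sub_eq_zero.1 h8)
      · exact absurd h6 (h0 i)
    have hI := hS.conn {i | c i = 1} (by
      intro i hi j hj
      have hi' : c i = 1 := hi
      have hj' : c j = 0 := (hc j).resolve_right hj
      have ha : (biproduct.ι S i ≫ e.hom ≫ biprod.fst) ≫ (biprod.inl ≫ e.inv ≫ biproduct.π S i) =
          𝟙 (S i) := by
        have h5 := h1 i
        rw [hi', one_smul] at h5
        rw [← h5, hp]
        simp only [Category.assoc]
      have hb : (biproduct.ι S j ≫ e.hom ≫ biprod.snd) ≫ (biprod.inr ≫ e.inv ≫ biproduct.π S j) =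
          𝟙 (S j) := by
        have h5 : biproduct.ι S j ≫ q ≫ biproduct.π S j = 𝟙 (S j) := by
          have h6 : q = 𝟙 _ - p := by rw [← hpq]; abel
          rw [h6, Preadditive.sub_comp, Preadditive.comp_sub, h1 j, hj', zero_smul, sub_zero,
            Category.id_comp, biproduct.ι_π_self]
        rw [← h5, hq]
        simp only [Category.assoc]
      exact SUM_orth h12 ha hb)
    rcases hI with hI | hI
    · left
      have hp0 : p = 0 := by
        refine biproduct.hom_ext' _ _ fun i => ?_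
        have : c i = 0 := (hc i).resolve_right (fun h => by
          have : i ∈ ({i | c i = 1} : Set (Fin n)) := h
          rw [hI] at this
          exact this)
        rw [h2 i, this, zero_smul, comp_zero]
      rw [IsZero.iff_id_eq_zero]
      have h3 : (biprod.inl ≫ e.inv) ≫ p ≫ (e.hom ≫ biprod.fst) = 𝟙 X₁ := by simp [hp]
      rw [← h3, hp0, zero_comp, comp_zero]
    · right
      have hq0 : q = 0 := by
        have h6 : q = 𝟙 _ - p := by rw [← hpq]; abel
        refine biproduct.hom_ext' _ _ fun i => ?_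
        have : c i = 1 := by
          have : i ∈ ({i | c i = 1} : Set (Fin n)) := by rw [hI]; trivial
          exact this
        rw [h6, Preadditive.comp_sub, h2 i, this, one_smul, Category.comp_id, sub_self, comp_zero]
      rw [IsZero.iff_id_eq_zero]
      have h3 : (biprod.inr ≫ e.inv) ≫ q ≫ (e.hom ≫ biprod.snd) = 𝟙 X₂ := by simp [hq]
      rw [← h3, hq0, zero_comp, comp_zero]

end Main

variable (C : Type u) [Category.{v} C] [Preadditive C] [HasZeroObject C] [HasShift C ℤ]
  [∀ n : ℤ, (shiftFunctor C n).Additive] [Pretriangulated C] [IsTriangulated C] [Linear ℂ C]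
  [∀ n : ℤ, (shiftFunctor C n).Linear ℂ]

theorem p_SUM : Stmt_SUM C := by
  intro _ n S hS
  refine ⟨⨁ S, SUM_good hS, fun σ a b => ⟨?_, ?_⟩⟩
  · have h1 : Set.Icc a b = Set.Ici a ∩ (Set.Ioi b)ᶜ := by
      ext x
      simp
    rw [h1]
    exact SUM_In (isUpperSet_Ici a) (isUpperSet_Ioi b) S
  · have h1 : Set.Ioc a b = Set.Ioi a ∩ (Set.Ioi b)ᶜ := by
      ext x
      simp
    rw [h1]
    exact SUM_In (isUpperSet_Ioi a) (isUpperSet_Ioi b) S

end Pool.SR
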