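import Pool.Agent.Work.MP_841263_sr.Interface
import Pool.Agent.Work.MP_841263_mv.B_LCO

/-! # MP_841263, block TPL: the torsion pair of a spherical object (typed by helper92) -/

open CategoryTheory CategoryTheory.Limits CategoryTheory.Pretriangulated
open scoped ZeroObject Topology RealInnerProductSpace
open Filter

set_option backward.isDefEq.respectTransparency false
set_option backward.defeqAttrib.useBackward true
set_option linter.unusedSectionVars false

namespace Pool.SR

open Pool.Stab Pool.Tube Pool.Align Pool.Blk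

universe v u

variable {C : Type u} [Category.{v} C] [Preadditive C] [HasZeroObject C] [HasShift C ℤ]
  [∀ n : ℤ, (shiftFunctor C n).Additive] [Pretriangulated C] [IsTriangulated C] [Linear ℂ C]
  [∀ n : ℤ, (shiftFunctor C n).Linear ℂ]

theorem p_TPL : Stmt_TPL C := by
  intro h σ t S hsp hst
  have hSS : ∀ a : S ⟶ S⟦(1 : ℤ)⟧, a = 0 := hsp.2 1 (by norm_num) (by norm_num)
  have main : ∀ (n : ℕ) (E : C), Module.finrank ℂ (S ⟶ E) ≤ n → σ.sl.In (Set.Ico t (t + 1)) E →
      ∃ T F, Tri T E F ∧ Gen (Iso1 S) T ∧ σ.sl.In (Set.Ico t (t + 1)) F ∧ ∀ f : S ⟶ F, f = 0 := by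
    intro n
    induction n with
    | zero =>
      intro E hn hE
      refine ⟨0, E, ⟨0, 𝟙 E, 0, contractible_distinguished₁ E⟩, Gen.zero (isZero_zero C), hE, ?_⟩
      exact fun f => forall_zero_of_finrank h.k3 (by omega) f
    | succ n ih =>
      intro E hn hE
      by_cases hz : ∀ f : S ⟶ E, f = 0
      · exact ⟨0, E, ⟨0, 𝟙 E, 0, contractible_distinguished₁ E⟩, Gen.zero (isZero_zero C), hE, hz⟩
      push Not at hz
      obtain ⟨f, hf⟩ := hz
      obtain ⟨Q, g, d, hT⟩ := distinguished_cocone_triangle f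
      have hQ := Pool.Move.LCO_cone h hT hst hE hf
      have hlt := Pool.Move.LCO_drop h.k3 hT hf hSS
      obtain ⟨T, F, ⟨a, b, c, hT'⟩, hTG, hF, hSF⟩ := ih Q (by omega) hQ
      obtain ⟨W, p, q, hW⟩ := distinguished_cocone_triangle₁ (g ≫ b)
      obtain ⟨m, n', r, hm, -⟩ := exists_octa_cocone hT hT' hW
      exact ⟨W, F, ⟨_, _, _, hW⟩, Gen.ext hm (Gen.of ⟨Iso.refl _⟩) hTG, hF, hSF⟩
  intro E hE
  exact main _ E le_rfl hE

end Pool.SR
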