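import Pool.Agent.Work.MP_841263_sr.Interface

/-!
# TPR: the torsion pair of a spherical object, dual form
-/

open CategoryTheory CategoryTheory.Limits CategoryTheory.Pretriangulated
open scoped ZeroObject Topology RealInnerProductSpace
open Filter

set_option backward.isDefEq.respectTransparency false
set_option backward.defeqAttrib.useBackward true
set_option linter.unusedSectionVars false

namespace Pool.SR

open Pool.Stab Pool.Tube Pool.Align Pool.Blk

universe v u

section Category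

variable (C : Type u) [Category.{v} C] [Preadditive C] [HasZeroObject C] [HasShift C ℤ]
  [∀ n : ℤ, (shiftFunctor C n).Additive] [Pretriangulated C] [IsTriangulated C] [Linear ℂ C]
  [∀ n : ℤ, (shiftFunctor C n).Linear ℂ]

variable {C} in
/-- The fibre of a nonzero map `E ⟶ S` stays in `P(t, t + 1]`. -/
lemma TPR_fibre (h : EllipticSetting C) (σ : StabCond C) (t : ℝ) {S E K : C}
    (hst : σ.Stable (t + 1) S) (hE : σ.sl.In (Set.Ioc t (t + 1)) E)
    {u : K ⟶ E} {f : E ⟶ S} {k : S ⟶ K⟦(1 : ℤ)⟧} (hT : Triangle.mk u f k ∈ distTriang C)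
    (hf : f ≠ 0) : σ.sl.In (Set.Ioc t (t + 1)) K := by
  have hA := (finCat_P h σ (t + 1)).toAbSub
  have hEi : σ.sl.In (Set.Ici t) E := hE.mono fun x hx => hx.1.le
  have hEu : σ.sl.In (Set.Ioi (t + 1))ᶜ E := hE.mono fun x hx => not_lt.2 hx.2
  have hS : σ.sl.In {t + 1} S := Slicing.in_of_P hst.1 rfl
  obtain ⟨a, c, hinv⟩ := exists_invrot hT
  have hSn : σ.sl.In {t} (S⟦(-1 : ℤ)⟧) := hS.shift_neg_one.mono (by
    rintro _ ⟨x, hx, rfl⟩
    simp only [Set.mem_singleton_iff] at hx ⊢
    rw [hx]; ring)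
  have hKi : σ.sl.In (Set.Ici t) K := Slicing.In.ext_upper (isUpperSet_Ici t) hinv
    (hSn.mono (by rintro x hx; simp only [Set.mem_singleton_iff] at hx; exact hx.ge)) hEi
  have hKu : σ.sl.In (Set.Ioi (t + 1))ᶜ K := Slicing.In.ext_lower (isUpperSet_Ioi (t + 1)) hinv
    (hSn.mono (by
      rintro x hx
      simp only [Set.mem_singleton_iff] at hx
      simp only [Set.mem_compl_iff, Set.mem_Ioi, not_lt]
      linarith)) hEu
  -- no maps to objects of phase `t + 1` after a shift
  have key : ∀ V, σ.sl.P (t + 1) V → ∀ y : K⟦(1 : ℤ)⟧ ⟶ V, y = 0 := by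
    intro V hV y
    have hc : k ≫ y = 0 := by
      by_contra hne
      obtain ⟨K', I, Q, k', p, i, q, h1, h2, hpi⟩ := hA.kiq hst.1 hV (k ≫ y)
      have hI0 : ¬ IsZero I := by
        intro h0
        apply hne
        rw [← hpi, h0.eq_of_tgt p 0, zero_comp]
      obtain ⟨hK'A, -, hIA, d1, hT1⟩ := h1
      have hK'0 : IsZero K' := by
        rcases hst.2.2 _ _ _ _ _ hT1 hK'A hIA with h3 | h3
        · exact h3
        · exact absurd h3 hI0
      have hiso : IsIso p := iso_of_isZero₁ hT1 hK'0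
      obtain ⟨-, -, hQA, d2, hT2⟩ := h2
      obtain ⟨a2, c2, hinv2⟩ := exists_invrot hT2
      have h3 : (f ≫ p) ≫ i = 0 := by
        rw [Category.assoc, hpi, ← Category.assoc]
        have : f ≫ k = 0 := comp_distTriang_mor_zero₂₃ _ hT
        rw [this, zero_comp]
      obtain ⟨b, hb⟩ := Triangle.coyoneda_exact₂ _ hinv2 (f ≫ p) h3
      have h4 : σ.sl.In {t} (Q⟦(-1 : ℤ)⟧) := (Slicing.in_of_P hQA rfl : σ.sl.In {t + 1} Q).shift_neg_one.mono (by
        rintro _ ⟨x, hx, rfl⟩
        simp only [Set.mem_singleton_iff] at hx ⊢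
        rw [hx]; ring)
      have h5 : b = 0 := hE.hom_zero h4 (by
        intro φ hφ ψ hψ
        simp only [Set.mem_singleton_iff] at hψ
        rw [hψ]
        exact hφ.1) b
      rw [h5, zero_comp] at hb
      apply hf
      rw [← cancel_mono p, hb, zero_comp]
    obtain ⟨z, hz⟩ := Triangle.yoneda_exact₂ _ (rot_mk (rot_mk hT)) y hc
    have h6 : z = 0 := hE.shift_one.hom_zero (Slicing.in_of_P hV rfl : σ.sl.In {t + 1} V) (by
      rintro _ ⟨x, hx, rfl⟩ ψ hψ
      simp only [Set.mem_singleton_iff] at hψ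
      rw [hψ]
      have := hx.1
      simp only
      linarith) z
    rw [hz, h6, comp_zero]
  obtain ⟨K₁, K₂, a1, b1, c1, hT1, h1, h2⟩ := σ.sl.exists_trunc K (isUpperSet_Ioi t)
  have hK₂i : σ.sl.In (Set.Ici t) K₂ := Slicing.In.ext_upper (isUpperSet_Ici t) (rot_mk hT1) hKi
    (h1.shift_one.mono (by
      rintro _ ⟨x, hx, rfl⟩
      have : t < x := hx
      simp only [Set.mem_Ici]
      linarith))
  have hK₂ : σ.sl.P t K₂ := by
    apply Slicing.In.P_of_singleton
    refine (Slicing.In.inter (isUpperSet_Ici t) (isUpperSet_Ioi t) hK₂i h2).mono ?_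
    rintro x ⟨hx1, hx2⟩
    exact le_antisymm (not_lt.1 hx2) hx1
  have hK₂' : σ.sl.P (t + 1) (K₂⟦(1 : ℤ)⟧) := by
    apply Slicing.In.P_of_singleton
    refine (Slicing.in_of_P hK₂ rfl : σ.sl.In {t} K₂).shift_one.mono ?_
    rintro _ ⟨x, hx, rfl⟩
    simp only [Set.mem_singleton_iff] at hx ⊢
    rw [hx]
  have hb1 : b1 = 0 := by
    have h3 := key _ hK₂' (b1⟦(1 : ℤ)⟧')
    exact (Functor.map_eq_zero_iff (shiftFunctor C (1 : ℤ))).1 h3
  have hz : IsZero K₂ := isZero₃_of_mor₂ hT1 hb1 (fun r => h1.shift_one.hom_zero h2 (by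
    rintro _ ⟨x, hx, rfl⟩ ψ hψ
    have h3 : t < x := hx
    have h4 : ψ ≤ t := not_lt.1 hψ
    simp only
    linarith) r)
  have := iso_of_isZero₃ hT1 hz
  have hK1 : σ.sl.In (Set.Ioi t) K := h1.iso (asIso a1)
  refine (Slicing.In.inter (isUpperSet_Ioi t) (isUpperSet_Ioi (t + 1)) hK1 hKu).mono ?_
  rintro x ⟨hx1, hx2⟩
  exact ⟨hx1, not_lt.1 hx2⟩

theorem p_TPR : Stmt_TPR C := by
  intro h σ t S hsph hst
  have hfin : ∀ X Y : C, Module.Finite ℂ (X ⟶ Y) := h.k3.homFinite
  have main : ∀ (n : ℕ) (E : C), Module.finrank ℂ (E ⟶ S) ≤ n → σ.sl.In (Set.Ioc t (t + 1)) E →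
      ∃ F T, Tri F E T ∧ Gen (Iso1 S) T ∧ σ.sl.In (Set.Ioc t (t + 1)) F ∧ ∀ f : F ⟶ S, f = 0 := by
    intro n
    induction n with
    | zero =>
      intro E hn hE
      refine ⟨E, 0, ⟨𝟙 E, 0, 0, contractible_distinguished E⟩, Gen.zero (isZero_zero C), hE, ?_⟩
      exact fun f => forall_zero_of_finrank h.k3 (by omega) f
    | succ n ih =>
      intro E hn hE
      by_cases hz : ∀ f : E ⟶ S, f = 0
      · exact ⟨E, 0, ⟨𝟙 E, 0, 0, contractible_distinguished E⟩, Gen.zero (isZero_zero C), hE, hz⟩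
      push Not at hz
      obtain ⟨f, hf⟩ := hz
      obtain ⟨K, u, k, hT⟩ := distinguished_cocone_triangle₁ f
      have hK := TPR_fibre h σ t hst hE hT hf
      have hlt : Module.finrank ℂ (K ⟶ S) < Module.finrank ℂ (E ⟶ S) := by
        have hfE := hfin E S
        have hfK := hfin K S
        obtain ⟨a, c, hinv⟩ := exists_invrot hT
        have hsurj : Function.Surjective (Linear.leftComp ℂ S u) := by
          intro g
          have h1 : a ≫ g = 0 := by
            have h2 : ∀ x : S⟦(-1 : ℤ)⟧ ⟶ S, x = 0 := by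
              intro x
              have h3 := hsph.2 1 (by norm_num) (by norm_num)
              have h4 := hom_shift_zero (X := S) (Y := S) (a := -1) (b := 0) (c := 1) (by norm_num) h3
                (x ≫ ((shiftFunctorZero C ℤ).app S).inv)
              rw [← cancel_mono ((shiftFunctorZero C ℤ).app S).inv, h4, zero_comp]
            exact h2 _
          obtain ⟨g', hg'⟩ := Triangle.yoneda_exact₂ _ hinv g h1
          exact ⟨g', hg'.symm⟩
        have h5 := (Linear.leftComp ℂ S u).finrank_range_add_finrank_ker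
        have h6 : Module.finrank ℂ (LinearMap.range (Linear.leftComp ℂ S u)) =
            Module.finrank ℂ (K ⟶ S) := by
          rw [LinearMap.range_eq_top.2 hsurj]
          exact finrank_top ℂ _
        have h7 : 0 < Module.finrank ℂ (LinearMap.ker (Linear.leftComp ℂ S u)) := by
          rw [Module.finrank_pos_iff_exists_ne_zero]
          refine ⟨⟨f, ?_⟩, ?_⟩
          · have : u ≫ f = 0 := comp_distTriang_mor_zero₁₂ _ hT
            exact this
          · intro h8
            exact hf (congrArg Subtype.val h8)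
        omega
      obtain ⟨F, T, ⟨a, b, c, hT'⟩, hTG, hF, hFS⟩ := ih K (by omega) hK
      obtain ⟨W, p, q, hW⟩ := distinguished_cocone_triangle (a ≫ u)
      obtain ⟨m, n', r, hm, -⟩ := exists_octa hT' hT hW
      exact ⟨F, W, ⟨_, _, _, hW⟩, Gen.ext hm hTG (Gen.of ⟨Iso.refl _⟩), hF, hFS⟩
  intro E hE
  exact main _ E le_rfl hE

end Category

end Pool.SR
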