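import Pool.Agent.Work.MP_841263_sr.Interface
import Pool.Agent.Work.MP_841263_mv.B_LBD
import Pool.Agent.Work.MP_841263_mv.B_SLI

/-! # MP_841263, block TRL (typed by helper92) -/

open CategoryTheory CategoryTheory.Limits CategoryTheory.Pretriangulated
open scoped ZeroObject Topology RealInnerProductSpace
open Filter

set_option backward.isDefEq.respectTransparency false
set_option backward.defeqAttrib.useBackward true
set_option linter.unusedSectionVars false

namespace Pool.SR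

open Pool.Stab Pool.Tube Pool.Align Pool.Blk

universe v u

variable {C : Type u} [Category.{v} C] [Preadditive C] [HasZeroObject C] [HasShift C ℤ]
  [∀ n : ℤ, (shiftFunctor C n).Additive] [Pretriangulated C] [IsTriangulated C] [Linear ℂ C]
  [∀ n : ℤ, (shiftFunctor C n).Linear ℂ]

theorem TRL_a {t x : ℝ} : x ∈ (Set.Ioi t)ᶜ ↔ x ≤ t := by
  rw [Set.mem_compl_iff, Set.mem_Ioi, not_lt]

theorem TRL_b {t x : ℝ} : x ∈ (Set.Ici t)ᶜ ↔ x < t := by
  rw [Set.mem_compl_iff, Set.mem_Ici, not_le]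

/-- The objects generated by an object of phase `φ` have phase `φ`. -/
theorem TRL_gen {S : Slicing C} {φ : ℝ} {A : C} (hA : S.P φ A) {T : C}
    (hT : Gen (Iso1 A) T) : S.In {φ} T := by
  induction hT with
  | zero hX => exact Slicing.in_of_isZero _ hX
  | of hX =>
    obtain ⟨e⟩ := hX
    exact (Slicing.in_of_P hA (Set.mem_singleton φ)).iso e.symm
  | ext hT _ _ h1 h2 =>
    refine (Slicing.In.inter (isUpperSet_Ici φ) (isUpperSet_Ioi φ)
      (Slicing.In.ext_upper (isUpperSet_Ici φ) hT (h1.mono ?_) (h2.mono ?_))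
      (Slicing.In.ext_lower (isUpperSet_Ioi φ) hT (h1.mono ?_) (h2.mono ?_))).mono ?_
    · rintro x rfl
      exact Set.mem_Ici.2 le_rfl
    · rintro x rfl
      exact Set.mem_Ici.2 le_rfl
    · rintro x rfl
      exact TRL_a.2 (le_refl x)
    · rintro x rfl
      exact TRL_a.2 (le_refl x)
    · rintro x ⟨hx1, hx2⟩
      exact le_antisymm (TRL_a.1 hx2) hx1

/-- `P₀[t, t + 1) ⊆ P₁[t, t + 1]`. -/
theorem TRL_co (hTPL : Stmt_TPL C) (h : EllipticSetting C) {σ₀ σ₁ : StabCond C} {t : ℝ} {S : C}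
    (hn : Tn σ₀ σ₁ t S) (E : C) (hE : σ₀.sl.In (Set.Ico t (t + 1)) E) :
    σ₁.sl.In (Set.Icc t (t + 1)) E := by
  obtain ⟨T, F, ⟨f, g, k, hT⟩, hg, hF, h0⟩ := hTPL h σ₀ t S hn.sph hn.s₀ E hE
  have h1 := TRL_gen hn.s₁.1 hg
  have h2 := hn.lo F hF h0
  refine (Slicing.In.inter (isUpperSet_Ici t) (isUpperSet_Ioi (t + 1))
    (Slicing.In.ext_upper (isUpperSet_Ici t) hT (h1.mono ?_) (h2.mono ?_))
    (Slicing.In.ext_lower (isUpperSet_Ioi (t + 1)) hT (h1.mono ?_) (h2.mono ?_))).mono ?_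
  · rintro x rfl
    exact Set.mem_Ici.2 (by linarith)
  · rintro x hx
    exact hx.1
  · rintro x rfl
    exact TRL_a.2 (le_refl (t + 1))
  · rintro x hx
    exact TRL_a.2 hx.2.le
  · rintro x ⟨hx1, hx2⟩
    exact ⟨hx1, TRL_a.1 hx2⟩

theorem p_TRL : Pool.Move.Stmt_SLI C → Stmt_TPL C → Stmt_TRL C := by
  classical
  intro hSLI hTPL h σ₀ σ₁ t S hn
  have hco := TRL_co hTPL h hn
  refine ⟨fun E hE => ?_, fun E hE h0 => ?_, fun E hE h0 => ?_⟩
  · have h1 := Pool.Move.LBD_up hco 0 (X := E) (hE.mono (fun x hx => by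
      have : t ≤ x := hx
      show t + ((0 : ℤ) : ℝ) ≤ x
      push_cast
      linarith))
    refine h1.mono ?_
    intro x hx
    have : t + ((0 : ℤ) : ℝ) ≤ x := hx
    push_cast at this
    exact Set.mem_Ici.2 (by linarith)
  · have hSP : σ₀.sl.P t S := hn.s₀.1
    obtain ⟨E', E'', a, b, c, hT, hE', hE''⟩ := σ₀.sl.exists_trunc E (isUpperSet_Ici t)
    have hE1 : σ₀.sl.In (Set.Iio t) E'' := hE''.mono (fun x hx => by
      have h1 : ¬ t ≤ x := hx
      exact not_le.1 h1)
    obtain ⟨p, q, hinv⟩ := exists_invrot hT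
    have hE2 : σ₀.sl.In (Set.Iic t) E' := by
      have h1 : σ₀.sl.In (Set.Ioi t)ᶜ E' := by
        refine Slicing.In.ext_lower (isUpperSet_Ioi t) hinv ?_ (hE.mono (fun x hx => TRL_a.2 hx))
        refine hE1.shift_neg_one.mono ?_
        rintro _ ⟨x, hx, rfl⟩
        have : x < t := hx
        exact TRL_a.2 (by linarith : x - 1 ≤ t)
      exact h1.mono (fun x hx => TRL_a.1 hx)
    have hE3 : σ₀.sl.In {t} E' := by
      refine (Slicing.In.inter (isUpperSet_Ici t) (isUpperSet_Ioi t) hE'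
        (hE2.mono (fun x hx => TRL_a.2 hx))).mono ?_
      rintro x ⟨hx1, hx2⟩
      exact le_antisymm (TRL_a.1 hx2) hx1
    have hSE : ∀ f : S ⟶ E', f = 0 := by
      intro f
      refine hom_zero_of_ext₂ hinv (fun u => ?_) h0 f
      refine (Slicing.in_of_P hSP (Set.mem_singleton t)).hom_zero hE1.shift_neg_one ?_ u
      rintro φ hφ _ ⟨x, hx, rfl⟩
      obtain rfl : φ = t := hφ
      have : x < φ := hx
      show x - 1 < φ
      linarith
    have hP : σ₀.sl.P t E' := hE3.P_of_singleton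
    have hstay := hn.lo E' (hE3.mono (by
      rintro x rfl
      exact ⟨le_rfl, by linarith⟩)) hSE
    have him : σ₁.im t (cls E') = 0 := by
      rw [hn.im]
      exact (hSLI σ₀ t E').2.2.2.2.1 hP
    have hP' : σ₁.sl.P t E' := (hSLI σ₁ t E').2.2.2.1 hstay him
    have h1 := Pool.Move.LBD_low hco 0 (X := E'') (hE1.mono (fun x hx => by
      have : x < t := hx
      show x < t + ((0 : ℤ) : ℝ)
      push_cast
      linarith))
    have h2 : σ₁.sl.In (Set.Ioi t)ᶜ E := by
      refine Slicing.In.ext_lower (isUpperSet_Ioi t) hT ?_ (h1.mono ?_)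
      · exact Slicing.in_of_P hP' (TRL_a.2 (le_refl t))
      · intro x hx
        have h3 := TRL_a.1 hx
        push_cast at h3
        exact TRL_a.2 (by linarith)
    exact h2.mono (fun x hx => TRL_a.1 hx)
  · have hSP : σ₀.sl.P t S := hn.s₀.1
    have hSP1 : σ₀.sl.P (t - 1) (S⟦(-1 : ℤ)⟧) := Slicing.P_shift_neg_one t S hSP
    obtain ⟨E', E'', a, b, c, hT, hE', hE''⟩ := σ₀.sl.exists_trunc E (isUpperSet_Ici (t - 1))
    have hE1 : σ₀.sl.In (Set.Iio (t - 1)) E'' := hE''.mono (fun x hx => by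
      have h1 : ¬ t - 1 ≤ x := hx
      exact not_le.1 h1)
    obtain ⟨p, q, hinv⟩ := exists_invrot hT
    have hE3 : σ₀.sl.In (Set.Ico (t - 1) t) E' := by
      have h1 : σ₀.sl.In (Set.Ici t)ᶜ E' := by
        refine Slicing.In.ext_lower (isUpperSet_Ici t) hinv ?_ (hE.mono (fun x hx => TRL_b.2 hx))
        refine hE1.shift_neg_one.mono ?_
        rintro _ ⟨x, hx, rfl⟩
        have : x < t - 1 := hx
        exact TRL_b.2 (by linarith : x - 1 < t)
      refine (Slicing.In.inter (isUpperSet_Ici (t - 1)) (isUpperSet_Ici t) hE' h1).mono ?_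
      rintro x ⟨hx1, hx2⟩
      exact ⟨hx1, TRL_b.1 hx2⟩
    have hSE : ∀ f : S⟦(-1 : ℤ)⟧ ⟶ E', f = 0 := by
      intro f
      refine hom_zero_of_ext₂ hinv (fun u => ?_) h0 f
      refine (Slicing.in_of_P hSP1 (Set.mem_singleton (t - 1))).hom_zero hE1.shift_neg_one ?_ u
      rintro φ hφ _ ⟨x, hx, rfl⟩
      obtain rfl : φ = t - 1 := hφ
      have : x < t - 1 := hx
      show x - 1 < t - 1
      linarith
    have hE4 : σ₀.sl.In (Set.Ico t (t + 1)) (E'⟦(1 : ℤ)⟧) := by
      refine (hE3.shift 1).mono ?_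
      rintro _ ⟨x, hx, rfl⟩
      have h1 := hx.1
      have h2 := hx.2
      constructor
      · push_cast
        linarith
      · push_cast
        linarith
    have hSE1 : ∀ f : S ⟶ E'⟦(1 : ℤ)⟧, f = 0 := by
      intro f
      let e := (shiftFunctorCompIsoId C (1 : ℤ) (-1) (by ring)).app E'
      have h1 := hSE ((shiftFunctor C (-1 : ℤ)).map f ≫ e.hom)
      have h2 : (shiftFunctor C (-1 : ℤ)).map f = 0 := by
        rw [← cancel_mono e.hom, h1, zero_comp]
      exact (shiftFunctor C (-1 : ℤ)).map_injective (by rw [h2, Functor.map_zero])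
    have h5 := hn.lo _ hE4 hSE1
    have h6 : σ₁.sl.In (Set.Ici t)ᶜ E' := by
      refine Pool.Move.LBD_unshift (-1) ?_ ?_ (I := Set.Ico t (t + 1))
      · simpa using h5
      · rintro x ⟨hx1, hx2⟩
        refine TRL_b.2 ?_
        push_cast
        linarith
    have h1 := Pool.Move.LBD_low hco (-1) (X := E'') (hE1.mono (fun x hx => by
      have : x < t - 1 := hx
      show x < t + ((-1 : ℤ) : ℝ)
      push_cast
      linarith))
    have h2 : σ₁.sl.In (Set.Ici t)ᶜ E := by
      refine Slicing.In.ext_lower (isUpperSet_Ici t) hT h6 (h1.mono ?_)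
      intro x hx
      have h3 := TRL_a.1 hx
      push_cast at h3
      exact TRL_b.2 (by linarith : x < t)
    exact h2.mono (fun x hx => TRL_b.1 hx)

end Pool.SR
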