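import Pool.Agent.Work.MP_841263_sr.Interface

/-!
# Block TRR: half lines of phases under a turn, right side
-/

open CategoryTheory CategoryTheory.Limits CategoryTheory.Pretriangulated
open scoped ZeroObject Topology RealInnerProductSpace
open Filter

set_option backward.isDefEq.respectTransparency false
set_option backward.defeqAttrib.useBackward true
set_option linter.unusedSectionVars false

namespace Pool.SR

open Pool.Stab Pool.Tube Pool.Align Pool.Blk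

universe v u

variable {C : Type u} [Category.{v} C] [Preadditive C] [HasZeroObject C] [HasShift C ℤ]
  [∀ n : ℤ, (shiftFunctor C n).Additive] [Pretriangulated C] [IsTriangulated C] [Linear ℂ C]
  [∀ n : ℤ, (shiftFunctor C n).Linear ℂ]

lemma TRR_upper {S : Slicing C} {U : Set ℝ} (hU : IsUpperSet U) {A T : C} (hA : S.In U A)
    (hT : Gen (Iso1 A) T) : S.In U T := by
  induction hT with
  | zero h0 => exact Slicing.in_of_isZero _ h0
  | of hX =>
    obtain ⟨e⟩ := hX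
    exact hA.iso e.symm
  | ext hT _ _ h1 h2 => exact Slicing.In.ext_upper hU hT h1 h2

lemma TRR_lower {S : Slicing C} {U : Set ℝ} (hU : IsUpperSet U) {A T : C} (hA : S.In Uᶜ A)
    (hT : Gen (Iso1 A) T) : S.In Uᶜ T := by
  induction hT with
  | zero h0 => exact Slicing.in_of_isZero _ h0
  | of hX =>
    obtain ⟨e⟩ := hX
    exact hA.iso e.symm
  | ext hT _ _ h1 h2 => exact Slicing.In.ext_lower hU hT h1 h2

/-- `P₁(t, t + 1]` is contained in `P₀[t, t + 1]`. -/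
lemma TRR_half (hTPR : Stmt_TPR C) (h : EllipticSetting C) {σ₀ σ₁ : StabCond C} {t : ℝ} {S : C}
    (hTn : Tn σ₀ σ₁ t S) {E : C} (hE : σ₁.sl.In (Set.Ioc t (t + 1)) E) :
    σ₀.sl.In (Set.Icc t (t + 1)) E := by
  obtain ⟨F, T, ⟨f, g, k, hT⟩, hTg, hF, hFS⟩ := hTPR h σ₁ t S hTn.sph hTn.s₁ E hE
  have hF0 : σ₀.sl.In (Set.Ioc t (t + 1)) F := hTn.hi F hF hFS
  have h1 : σ₀.sl.In (Set.Ici t) E := by
    refine Slicing.In.ext_upper (isUpperSet_Ici t) hT (hF0.mono (fun x hx => hx.1.le)) ?_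
    exact TRR_upper (isUpperSet_Ici t) (Slicing.in_of_P hTn.s₀.1 Set.self_mem_Ici) hTg
  have h2 : σ₀.sl.In (Set.Ioi (t + 1))ᶜ E := by
    refine Slicing.In.ext_lower (isUpperSet_Ioi (t + 1)) hT
      (hF0.mono (fun x hx => not_lt.2 hx.2)) ?_
    refine TRR_lower (isUpperSet_Ioi (t + 1)) (Slicing.in_of_P hTn.s₀.1 ?_) hTg
    intro hx
    have hx' : t + 1 < t := hx
    linarith
  refine (Slicing.In.inter (isUpperSet_Ici t) (isUpperSet_Ioi (t + 1)) h1 h2).mono ?_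
  rintro x ⟨hx1, hx2⟩
  exact ⟨hx1, not_lt.1 hx2⟩

/-- A semistable object of phase `θ` for `σ₁`. -/
lemma TRR_factor (hTPR : Stmt_TPR C) (h : EllipticSetting C) {σ₀ σ₁ : StabCond C} {t : ℝ}
    {S : C} (hTn : Tn σ₀ σ₁ t S) {θ : ℝ} {A : C} (hA : σ₁.sl.P θ A) :
    ∃ m : ℤ, t + m < θ ∧ θ ≤ t + m + 1 ∧ σ₀.sl.In (Set.Icc (t + m) (t + m + 1)) A := by
  obtain ⟨m, hm1, hm2⟩ : ∃ m : ℤ, t + m < θ ∧ θ ≤ t + m + 1 := by
    refine ⟨⌈θ - t⌉ - 1, ?_, ?_⟩
    · have h1 := Int.ceil_lt_add_one (θ - t)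
      push_cast
      linarith
    · have h1 := Int.le_ceil (θ - t)
      push_cast
      linarith
  refine ⟨m, hm1, hm2, ?_⟩
  have h1 : σ₁.sl.In (Set.Ioc t (t + 1)) (A⟦(-m)⟧) := by
    refine ((Slicing.in_of_P hA (Set.mem_singleton θ)).shift (-m)).mono ?_
    rintro _ ⟨x, hx, rfl⟩
    rw [Set.mem_singleton_iff] at hx
    subst hx
    constructor
    · show t < x + ((-m : ℤ) : ℝ)
      push_cast
      linarith
    · show x + ((-m : ℤ) : ℝ) ≤ t + 1
      push_cast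
      linarith
  have h2 := (TRR_half hTPR h hTn h1).shift m
  have e : (A⟦(-m)⟧)⟦m⟧ ≅ A := (shiftFunctorCompIsoId C (-m) m (by simp)).app A
  refine (h2.iso e).mono ?_
  rintro _ ⟨x, hx, rfl⟩
  constructor
  · show t + (m : ℝ) ≤ x + (m : ℝ)
    linarith [hx.1]
  · show x + (m : ℝ) ≤ t + (m : ℝ) + 1
    linarith [hx.2]

lemma TRR_low (hTPR : Stmt_TPR C) (h : EllipticSetting C) {σ₀ σ₁ : StabCond C} {t : ℝ} {S : C}
    (hTn : Tn σ₀ σ₁ t S) {E : C} {l : List ℝ} (hE : HN σ₁.sl.P E l)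
    (hl : ∀ φ ∈ l, φ ≤ t + 1) : σ₀.sl.In (Set.Ioi (t + 1))ᶜ E := by
  induction hE with
  | zero h0 => exact Slicing.in_of_isZero _ h0
  | @step X Y A φ l hX hφ hA hA0 f g k hT ih =>
    refine Slicing.In.ext_lower (isUpperSet_Ioi (t + 1)) hT
      (ih (fun ψ hψ => hl ψ (by simp [hψ]))) ?_
    obtain ⟨m, hm1, hm2, hm⟩ := TRR_factor hTPR h hTn hA
    have h1 := hl φ (by simp)
    have h2 : (m : ℝ) < 1 := by linarith
    have h3 : m < 1 := by exact_mod_cast h2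
    have h4 : (m : ℝ) ≤ 0 := by exact_mod_cast (by omega : m ≤ 0)
    refine hm.mono ?_
    rintro x ⟨hx1, hx2⟩ hx
    have hx' : t + 1 < x := hx
    linarith

lemma TRR_high (hTPR : Stmt_TPR C) (h : EllipticSetting C) {σ₀ σ₁ : StabCond C} {t : ℝ} {S : C}
    (hTn : Tn σ₀ σ₁ t S) {E : C} {l : List ℝ} (hE : HN σ₁.sl.P E l)
    (hl : ∀ φ ∈ l, t + 1 < φ) : σ₀.sl.In (Set.Ici (t + 1)) E := by
  induction hE with
  | zero h0 => exact Slicing.in_of_isZero _ h0
  | @step X Y A φ l hX hφ hA hA0 f g k hT ih =>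
    refine Slicing.In.ext_upper (isUpperSet_Ici (t + 1)) hT
      (ih (fun ψ hψ => hl ψ (by simp [hψ]))) ?_
    obtain ⟨m, hm1, hm2, hm⟩ := TRR_factor hTPR h hTn hA
    have h1 := hl φ (by simp)
    have h2 : (0 : ℝ) < m := by linarith
    have h3 : 0 < m := by exact_mod_cast h2
    have h4 : (1 : ℝ) ≤ m := by exact_mod_cast (by omega : 1 ≤ m)
    refine hm.mono ?_
    rintro x ⟨hx1, hx2⟩
    show t + 1 ≤ x
    linarith

/-- **Block TRR.** -/
theorem p_TRR : Pool.Move.Stmt_SLI C → Stmt_TPR C → Stmt_TRR C := by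
  intro hSLI hTPR h σ₀ σ₁ t S hTn
  refine ⟨?_, ?_⟩
  · rintro E ⟨l, hl, hlI⟩
    refine (TRR_low hTPR h hTn hl hlI).mono ?_
    intro x hx
    have hx' : ¬ (t + 1 < x) := hx
    exact not_lt.1 hx'
  · intro E hE hES
    obtain ⟨E', E'', f, g, k, hT, h1, h2⟩ := σ₁.sl.exists_trunc E (isUpperSet_Ioi (t + 1))
    have h3 : σ₁.sl.In (Set.Ici (t + 1)) E'' := by
      refine Slicing.In.ext_upper (isUpperSet_Ici (t + 1)) (rot_mk hT) hE ?_
      refine (h1.shift_upper (isUpperSet_Ioi (t + 1))).mono ?_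
      intro x hx
      have hx' : t + 1 < x := hx
      exact hx'.le
    have hP : σ₁.sl.P (t + 1) E'' := by
      refine Slicing.In.P_of_singleton ?_
      refine (Slicing.In.inter (isUpperSet_Ici (t + 1)) (isUpperSet_Ioi (t + 1)) h3 h2).mono ?_
      rintro x ⟨hx1, hx2⟩
      exact le_antisymm (not_lt.1 hx2) hx1
    have hES' : ∀ a : E'' ⟶ S, a = 0 := by
      intro a
      refine hom_zero_of_ext₁ (rot_mk hT) hES ?_ a
      intro b
      refine Slicing.In.hom_zero h1.shift_one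
        (Slicing.in_of_P hTn.s₁.1 (Set.mem_singleton (t + 1))) ?_ b
      rintro _ ⟨x, hx, rfl⟩ ψ hψ
      rw [Set.mem_singleton_iff] at hψ
      have hx' : t + 1 < x := hx
      show ψ < x + 1
      linarith
    have h4 : σ₀.sl.In (Set.Ioc t (t + 1)) E'' :=
      hTn.hi E'' (Slicing.in_of_P hP ⟨by linarith, le_rfl⟩) hES'
    have him : σ₀.im t (cls E'') = 0 := by
      rw [← hTn.im]
      exact σ₁.im_of_P hP
    have hP0 : σ₀.sl.P (t + 1) E'' := (hSLI σ₀ t E'').2.1 h4 him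
    obtain ⟨l, hl, hlI⟩ := h1
    exact Slicing.In.ext_upper (isUpperSet_Ici (t + 1)) hT
      (TRR_high hTPR h hTn hl hlI) (Slicing.in_of_P hP0 Set.self_mem_Ici)

end Pool.SR
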