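import Mathlib
import Pool.Agent.Work.MP_841263_sr.B_OGN
import Pool.Agent.Work.MP_841263_sr.B_BCX
import Pool.Agent.Work.MP_841263_sr.B_BKI
import Pool.Agent.Work.MP_841263_sr.B_LSC
import Pool.Agent.Work.MP_841263_sr.B_OTC
import Pool.Agent.Work.MP_841263_sr.B_RLO
import Pool.Agent.Work.MP_841263_sr.B_TPL
import Pool.Agent.Work.MP_841263_sr.B_TRL
import Pool.Agent.Work.MP_841263_sr.B_STL
import Pool.Agent.Work.MP_841263_sr.B_CHL
import Pool.Agent.Work.MP_841263_sr.B_RHI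
import Pool.Agent.Work.MP_841263_sr.B_TPR
import Pool.Agent.Work.MP_841263_sr.B_TRR
import Pool.Agent.Work.MP_841263_sr.B_STR
import Pool.Agent.Work.MP_841263_sr.B_CHR
import Pool.Agent.Work.MP_841263_sr.B_EXH
import Pool.Agent.Work.MP_841263_sr.B_FCV
import Pool.Agent.Work.MP_841263_sr.B_HFM
import Pool.Agent.Work.MP_841263_sr.B_HKP
import Pool.Agent.Work.MP_841263_sr.B_SUM
import Pool.Agent.Work.MP_841263_sr.B_NTP
import Pool.Agent.Work.MP_841263_sr.B_TPX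
import Pool.Agent.Work.MP_841263_sr.B_HNX
import Pool.Agent.Work.MP_841263_sr.B_SPT
import Pool.Agent.Work.MP_841263_sr.B_RLB
import Pool.Agent.Work.MP_841263_sr.B_LOP
import Pool.Agent.Work.MP_841263_sr.B_MZ1
import Pool.Agent.Work.MP_841263_sr.B_RDB
import Pool.Agent.Work.MP_841263_sr.B_RMR
import Pool.Agent.Work.MP_841263_sr.B_HZR
import Pool.Agent.Work.MP_841263_sr.B_TCX
import Pool.Agent.Work.MP_841263_sr.B_RRX
import Pool.Agent.Work.MP_841263_sr.B_MQX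
import Pool.Agent.Work.MP_841263_sr.B_MZ2
import Pool.Agent.Work.MP_841263_sr.B_MZE
import Pool.Agent.Work.MP_841263_sr.B_MZF
import Pool.Agent.Work.MP_841263_sr.B_STS
import Pool.Agent.Work.MP_841263_sr.B_STP
import Pool.Agent.Work.MP_841263_sr.B_INN
import Pool.Agent.Work.MP_841263_sr.B_NUL
import Pool.Agent.Work.MP_841263_sr.B_HLF
import Pool.Agent.Work.MP_841263_ws.All
import Pool.Agent.Work.MP_841263_mv.All
import Pool.Agent.Work.MP_841263_pt.All

/-!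
# From the closed to the half open interval: assembly (helper51)
-/

open CategoryTheory CategoryTheory.Limits CategoryTheory.Pretriangulated
open scoped ZeroObject Topology RealInnerProductSpace
open Filter

set_option backward.isDefEq.respectTransparency false
set_option backward.defeqAttrib.useBackward true
set_option linter.unusedSectionVars false

namespace Pool.SR

open Pool.Stab Pool.Tube Pool.Align Pool.Blk

universe v u

variable (C : Type u) [Category.{v} C] [Preadditive C] [HasZeroObject C] [HasShift C ℤ]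
  [∀ n : ℤ, (shiftFunctor C n).Additive] [Pretriangulated C] [IsTriangulated C] [Linear ℂ C]
  [∀ n : ℤ, (shiftFunctor C n).Linear ℂ]

theorem c_OGN : Stmt_OGN C := p_OGN (C := C) 

theorem c_BCX : Stmt_BCX C := p_BCX (C := C) (c_OGN C)

theorem c_BKI : Stmt_BKI C := p_BKI (C := C) 

theorem c_LSC : Stmt_LSC C := p_LSC (C := C) (c_BKI C)

theorem c_OTC : Stmt_OTC C := p_OTC (C := C) (c_OGN C)

theorem c_RLO : Stmt_RLO C := p_RLO (C := C) (Pool.Move.c_SLI C) (c_OGN C) (c_OTC C)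

theorem c_TPL : Stmt_TPL C := p_TPL (C := C) 

theorem c_TRL : Stmt_TRL C := p_TRL (C := C) (Pool.Move.c_SLI C) (c_TPL C)

theorem c_STL : Stmt_STL C := p_STL (C := C) (c_TRL C) (c_RLO C)

theorem c_CHL : Stmt_CHL C := p_CHL (C := C) (Pool.WS.c_LWS C) (c_BKI C) (c_LSC C) (c_RLO C) (c_STL C)

theorem c_RHI : Stmt_RHI C := p_RHI (C := C) (Pool.Move.c_SLI C) (c_OGN C) (c_OTC C)

theorem c_TPR : Stmt_TPR C := p_TPR (C := C) 

theorem c_TRR : Stmt_TRR C := p_TRR (C := C) (Pool.Move.c_SLI C) (c_TPR C)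

theorem c_STR : Stmt_STR C := p_STR (C := C) (c_TRL C) (c_TRR C)

theorem c_CHR : Stmt_CHR C := p_CHR (C := C) (c_BKI C) (c_LSC C) (c_RHI C) (c_STR C)

theorem c_EXH : Stmt_EXH C := p_EXH (C := C) (c_OGN C)

theorem c_FCV : Stmt_FCV C := p_FCV (C := C) 

theorem c_HFM : Stmt_HFM C := p_HFM (C := C) (c_OGN C)

theorem c_HKP : Stmt_HKP C := p_HKP (C := C) 

theorem c_SUM : Stmt_SUM C := p_SUM (C := C) 

theorem c_NTP : Stmt_NTP C := p_NTP (C := C) 

theorem c_TPX : Stmt_TPX C := p_TPX (C := C) (c_OGN C)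

theorem c_HNX : Stmt_HNX C := p_HNX (C := C) (c_OGN C)

theorem c_SPT : Stmt_SPT C := p_SPT (C := C) (c_OGN C) (c_TPX C) (c_HNX C)

theorem c_RLB : Stmt_RLB C := p_RLB (C := C) 

theorem c_LOP : Stmt_LOP C := p_LOP (C := C) (c_OGN C)

theorem c_MZ1 : Stmt_MZ1 C := p_MZ1 (C := C) 

theorem c_RDB : Stmt_RDB C := p_RDB (C := C) (c_MZ1 C)

theorem c_RMR : Stmt_RMR C := p_RMR (C := C) (c_OGN C) (c_RLB C)

theorem c_HZR : Stmt_HZR C := p_HZR (C := C) (c_OGN C) (c_HFM C)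

theorem c_TCX : Stmt_TCX C := p_TCX (C := C) (c_OGN C)

theorem c_RRX : Stmt_RRX C := p_RRX (C := C) (Pool.Align.q_RR2 C) Pool.Align.q_PRK (c_TCX C) (c_BCX C)

theorem c_MQX : Stmt_MQX C := p_MQX (C := C) (c_OGN C) (c_HFM C)

theorem c_MZ2 : Stmt_MZ2 C := p_MZ2 (C := C) (c_MZ1 C)

theorem c_MZE : Stmt_MZE C := p_MZE (C := C) (c_MZ1 C) (c_MZ2 C)

theorem c_MZF : Stmt_MZF C := p_MZF (C := C) Pool.WS.c_GRM (c_TPX C) (c_EXH C) (c_LOP C) (c_MZE C) (c_MQX C) (c_RRX C)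

theorem c_STS : Stmt_STS C := p_STS (C := C) Pool.WS.c_GRM (Pool.WS.c_WSF C) (Pool.Move.c_MVS C) (c_BKI C) (c_HKP C) (c_TPX C) (c_HNX C) (c_EXH C) (c_CHL C) (c_CHR C) (c_RMR C) (c_HZR C) (c_RRX C) (c_MQX C) (c_MZF C)

theorem c_STP : Stmt_STP C := p_STP (C := C) (c_HKP C) (c_LOP C) (c_TPX C) (c_HNX C) (c_EXH C) (c_RDB C) (c_STS C)

theorem c_INN : Stmt_INN C := p_INN (C := C) (c_SPT C) (c_RLB C) (c_STP C)

theorem c_NUL : Stmt_NUL C := p_NUL (C := C) (c_NTP C) (c_FCV C) (c_INN C)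

theorem c_HLF : Stmt_HLF C := p_HLF (C := C) (c_SUM C) (c_NUL C)

end Pool.SR
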