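import Mathlib
import Pool.Agent.Work.MP_841263_sr.Lem42

open CategoryTheory CategoryTheory.Limits CategoryTheory.Pretriangulated
open scoped ZeroObject Topology RealInnerProductSpace
open Filter

set_option backward.isDefEq.respectTransparency false
set_option backward.defeqAttrib.useBackward true
set_option linter.unusedSectionVars false

namespace Pool.SR

open Pool.Stab Pool.Tube Pool.Align Pool.Blk

universe v u

variable {C : Type u} [Category.{v} C] [Preadditive C] [HasZeroObject C] [HasShift C ℤ]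
  [∀ n : ℤ, (shiftFunctor C n).Additive] [Pretriangulated C] [IsTriangulated C] [Linear ℂ C]
  [∀ n : ℤ, (shiftFunctor C n).Linear ℂ]

theorem p_MQX : Stmt_OGN C → Stmt_HFM C → Stmt_MQX C := by
  intro _ hHFM h σ ψ J X k H M hJ hX hP hM
  constructor
  · rintro rfl
    obtain ⟨V, R, Y, ⟨v, r, w, hVR⟩, ⟨x, y, z, hHR⟩, hV, hH, hY, hYJ⟩ := hP
    obtain ⟨K, ⟨κ, μ, δ, hK⟩, hGM, hK0⟩ := hM
    have hV' : σ.sl.In (Set.Ici (ψ + 1)) V := by
      refine hV.mono ?_
      intro x hx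
      have hx' : ψ + ((0 : ℕ) : ℝ) + 1 ≤ x := hx
      show ψ + 1 ≤ x
      simpa using hx'
    have hR : σ.sl.In (Set.Ici ψ) R := by
      refine Slicing.In.ext_upper (isUpperSet_Ici _) (rot_mk hVR) hX ((hV'.shift_one).mono ?_)
      rintro _ ⟨x, hx, rfl⟩
      have hx' : ψ + 1 ≤ x := hx
      show ψ ≤ x + 1
      linarith
    have hH0 : σ.sl.In (Set.Ici ψ) (H⟦((0 : ℕ) : ℤ)⟧) := by
      obtain ⟨l, hl, hI⟩ := hH
      refine ⟨_, hl.shift_int (fun φ X n hX => P_shift_int σ hX n) ((0 : ℕ) : ℤ), ?_⟩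
      intro χ hχ
      obtain ⟨ω, hω, rfl⟩ := List.mem_map.1 hχ
      have h2 : ψ ≤ ω := (hI ω hω).1
      show ψ ≤ ω + (((0 : ℕ) : ℤ) : ℝ)
      push_cast
      linarith
    have hYI : σ.sl.In (Set.Ici ψ) Y :=
      Slicing.In.ext_upper (isUpperSet_Ici _) (rot_mk hHR) hR
        (hH0.shift_upper (isUpperSet_Ici _))
    have hYz : IsZero Y := by
      rw [IsZero.iff_id_eq_zero]
      refine hYI.hom_zero hY ?_ _
      intro x hx y hy
      have hx' : ψ ≤ x := hx
      have hy' : y < ψ + ((0 : ℕ) : ℝ) := hy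
      push_cast at hy'
      linarith
    have hiso := iso_of_isZero₃ hHR hYz
    have e : R ≅ H := (asIso x).symm ≪≫ (shiftFunctorZero C ℤ).app H
    -- the triangle `V → X → H`
    have hVH : Triangle.mk v (r ≫ e.hom) (e.inv ≫ w) ∈ distTriang C := by
      refine isomorphic_distinguished _ hVR _ ?_
      exact Triangle.isoMk _ _ (Iso.refl _) (Iso.refl _) e.symm (by simp) (by simp) (by simp)
    obtain ⟨K', κ', δ', hK'⟩ := distinguished_cocone_triangle₁ ((r ≫ e.hom) ≫ μ)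
    obtain ⟨m, n, s, hmn, -⟩ := exists_octa_cocone hVH hK hK'
    refine ⟨K', ⟨κ', _, δ', hK'⟩, hGM, ?_⟩
    intro T hT f
    refine hom_zero_of_ext₁ hmn (fun a => ?_) (fun a => hK0 T hT a) f
    refine hV'.hom_zero (Slicing.in_of_P (I := Set.Iic ψ) (hJ.gen_P h hT) (Set.mem_Iic.2 le_rfl))
      ?_ a
    intro x hx y hy
    have hx' : ψ + 1 ≤ x := hx
    have hy' : y ≤ ψ := hy
    linarith
  · intro hk
    refine ⟨X, ⟨𝟙 X, 0, 0, contractible_distinguished X⟩, Gen.zero (isZero_zero C), ?_⟩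
    intro T hT f
    have h1 := (hHFM h σ ψ J X k H hJ hP T hT).2 0 (by exact_mod_cast hk)
      (f ≫ ((shiftFunctorZero C ℤ).app T).inv)
    rw [← cancel_mono ((shiftFunctorZero C ℤ).app T).inv, h1, zero_comp]

end Pool.SR
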