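import Mathlib
import Pool.Agent.Work.MP_841263_sr.Lem42
import Pool.Agent.Work.MP_841263_mv.B_HBD

/-! # Block RHI: the relation of a raising step (typed by helper92, dual to RLO of helper67) -/

open CategoryTheory CategoryTheory.Limits CategoryTheory.Pretriangulated
open scoped ZeroObject Topology RealInnerProductSpace
open Filter

set_option backward.isDefEq.respectTransparency false
set_option backward.defeqAttrib.useBackward true
set_option linter.unusedSectionVars false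

namespace Pool.SR

open Pool.Stab Pool.Tube Pool.Align Pool.Blk

universe v u

variable {C : Type u} [Category.{v} C] [Preadditive C] [HasZeroObject C] [HasShift C ℤ]
  [∀ n : ℤ, (shiftFunctor C n).Additive] [Pretriangulated C] [IsTriangulated C] [Linear ℂ C]
  [∀ n : ℤ, (shiftFunctor C n).Linear ℂ]

lemma RHI_shift_iso (X : C) : Nonempty ((X⟦(1 : ℤ)⟧)⟦(-1 : ℤ)⟧ ≅ X) :=
  ⟨(shiftFunctorCompIsoId C (1 : ℤ) (-1) (by simp)).app X⟩

/-- Objects orthogonal to `J` are orthogonal to `J'`. -/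
lemma RHI_fwd (hOGN : Stmt_OGN C) {J J' : C → Prop} {S : C}
    (hiso : ∀ X Y, Nonempty (X ≅ Y) → J X → J Y) (hS : J S)
    (hup : Pool.WS.Up (Gen J) S (Gen J')) {Y : C} (hY : OrthG J Y) : OrthG J' Y := by
  intro S' hS'
  obtain ⟨T, F, f, g, k, hT, hF, -, hTS⟩ := (hup S').1 (Gen.of hS')
  have hTJ : Gen J T := hTS.mono fun X ⟨e⟩ => hiso S X ⟨e.symm⟩ hS
  have h1 := hOGN J Y hY F hF
  have h2 := hOGN J Y hY T hTJ
  exact ⟨(h2.1.shift 1).ext hT h1.1, orthL_ext hT (orthL_shift h2.2 1) h1.2⟩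

/-- Objects orthogonal to `J'` are orthogonal to `J`. -/
lemma RHI_bwd (hOGN : Stmt_OGN C) (h : EllipticSetting C) {ψ : ℝ} {σ : StabCond C}
    {J J' : C → Prop} {S : C} (hJ : IsBlock σ ψ J) (hS : J S)
    (hup : Pool.WS.Up (Gen J) S (Gen J')) {Y : C} (hY : OrthG J' Y) : OrthG J Y := by
  intro S₁ hS₁
  by_cases he : Nonempty (S₁ ≅ S)
  · obtain ⟨e⟩ := he
    have h1 : Gen J' (S⟦(1 : ℤ)⟧) := by
      refine (hup _).2 ⟨S, 0, 𝟙 _, 0, 0, contractible_distinguished _,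
        Gen.zero (isZero_zero C), fun a => (isZero_zero C).eq_of_src _ _,
        Gen.of ⟨Iso.refl _⟩⟩
    obtain ⟨h2, h3⟩ := hOGN J' Y hY _ h1
    obtain ⟨e'⟩ := RHI_shift_iso S
    exact ⟨((h2.shift (-1)).iso e').iso e.symm,
      orthL_iso (orthL_iso (orthL_shift h3 (-1)) e') e.symm⟩
  · have h1 : Gen J' S₁ := by
      have hz : IsZero ((0 : C)⟦(1 : ℤ)⟧) := (isZero_shift_iff _ _).2 (isZero_zero C)
      have hT : Triangle.mk (0 : (0 : C)⟦(1 : ℤ)⟧ ⟶ S₁) (𝟙 S₁) 0 ∈ distTriang C := by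
        refine isomorphic_distinguished _ (contractible_distinguished₁ S₁) _ ?_
        exact Triangle.isoMk _ _ (hz.iso (isZero_zero C)) (Iso.refl _) (Iso.refl _)
          (hz.eq_of_src _ _) (by simp) (by simp)
      refine (hup _).2 ⟨0, S₁, 0, 𝟙 _, 0, hT, Gen.of hS₁, ?_, Gen.zero (isZero_zero C)⟩
      intro a
      by_contra ha
      have := (finCat_P h σ ψ).toAbSub.schur (hJ.stable S₁ hS₁) (hJ.stable S hS) a ha
      exact he ⟨asIso a⟩
    exact hOGN J' Y hY _ h1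

/-- RHI. -/
theorem p_RHI : Pool.Move.Stmt_SLI C → Stmt_OGN C → Stmt_OTC C → Stmt_RHI C := by
  intro hSLI hOGN hOTC h ψ σ σ' J J' S hJ hS hL
  have hO : ∀ Y, OrthG J Y ↔ OrthG J' Y := fun Y =>
    ⟨RHI_fwd hOGN hJ.iso hS hL.up, RHI_bwd hOGN h hJ.toIsBlock hS hL.up⟩
  have him : ∀ x, σ'.im ψ x = σ.im ψ x := by
    intro x
    have h1 := hL.tn.im x
    rw [Pool.Move.HBD_im, Pool.Move.HBD_im] at h1
    linarith
  have e1 : ψ - 1 + 1 = ψ := by ring
  have hP : ∀ Y, OrthG J Y → (σ.sl.P ψ Y ↔ σ'.sl.P ψ Y) := by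
    intro Y hY
    constructor
    · intro hYP
      have h1 : σ.sl.In (Set.Ioc (ψ - 1) (ψ - 1 + 1)) Y :=
        Slicing.in_of_P hYP ⟨by linarith, by linarith⟩
      have h2 := hL.tn.hi Y h1 (fun f => orth_zero (hY S hS).1 f)
      have h3 : σ'.im (ψ - 1) (cls Y) = 0 := by
        rw [Pool.Move.HBD_im, him, (hSLI σ ψ Y).2.2.2.2.1 hYP, neg_zero]
      have h4 := (hSLI σ' (ψ - 1) Y).2.1 h2 h3
      rwa [e1] at h4
    · intro hYP
      have h0 : σ'.sl.P (ψ - 1) (Y⟦(-1 : ℤ)⟧) := Slicing.P_shift_neg_one ψ Y hYP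
      have h1 : σ'.sl.In (Set.Ico (ψ - 1) (ψ - 1 + 1)) (Y⟦(-1 : ℤ)⟧) :=
        Slicing.in_of_P h0 ⟨le_refl _, by linarith⟩
      have h2 := hL.tn.lo _ h1 (fun f => orth_zero ((hY S hS).2.shift (-1)) f)
      have h3 : σ.im (ψ - 1) (cls (Y⟦(-1 : ℤ)⟧)) = 0 := by
        rw [hL.tn.im]
        exact (hSLI σ' (ψ - 1) _).2.2.2.2.1 h0
      have h4 := (hSLI σ (ψ - 1) _).2.2.2.1 h2 h3
      have h5 := (σ.sl.shift_mem (ψ - 1) _).1 h4
      rw [e1] at h5
      exact σ.sl.iso_mem ψ ((shiftFunctorCompIsoId C (-1 : ℤ) 1 (by simp)).app Y) h5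
  exact
    { joined := hL.joined
      im := him
      oth := hOTC h σ σ' ψ J J' hJ.toIsBlock hL.blk.toIsBlock hO hP
      orth := fun Y hY => (hO Y).1 hY }

end Pool.SR
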