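import Mathlib
import Pool.Agent.Work.MP_841263_sr.Lem42

open CategoryTheory CategoryTheory.Limits CategoryTheory.Pretriangulated
open scoped ZeroObject Topology RealInnerProductSpace
open Filter

set_option backward.isDefEq.respectTransparency false
set_option backward.defeqAttrib.useBackward true
set_option linter.unusedSectionVars false

namespace Pool.SR

open Pool.Stab Pool.Tube Pool.Align Pool.Blk

universe v u

variable {C : Type u} [Category.{v} C] [Preadditive C] [HasZeroObject C] [HasShift C ℤ]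
  [∀ n : ℤ, (shiftFunctor C n).Additive] [Pretriangulated C] [IsTriangulated C] [Linear ℂ C]
  [∀ n : ℤ, (shiftFunctor C n).Linear ℂ]

lemma TPX_top (σ : StabCond C) {s : ℝ} {a : ℝ} {X U R : C} {u : U ⟶ X} {r : X ⟶ R}
    {k : R ⟶ U⟦(1 : ℤ)⟧} (hX : σ.sl.In (Set.Icc a s) X) (hT : Triangle.mk u r k ∈ distTriang C)
    (hU : σ.sl.In (Set.Ici s) U) (hR : σ.sl.In (Set.Ici s)ᶜ R) : σ.sl.P s U := by
  have h1 : σ.sl.In (Set.Ioi s)ᶜ U := by
    obtain ⟨a', c', hinv⟩ := exists_invrot hT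
    refine Slicing.In.ext_lower (isUpperSet_Ioi s) hinv ?_ (hX.mono ?_)
    · refine (hR.shift_neg_one).mono ?_
      rintro _ ⟨x, hx, rfl⟩ hcon
      have hx' : ¬ (s ≤ x) := hx
      have hc' : s < x - 1 := hcon
      apply hx'
      linarith
    · intro x hx hcon
      have hc' : s < x := hcon
      have hx' : x ≤ s := hx.2
      linarith
  refine Slicing.In.P_of_singleton
    ((Slicing.In.inter (isUpperSet_Ici s) (isUpperSet_Ioi s) hU h1).mono ?_)
  rintro x ⟨hx1, hx2⟩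
  have a1 : s ≤ x := hx1
  have a2 : ¬ s < x := hx2
  show x = s
  linarith [not_lt.1 a2]

theorem p_TPX : Stmt_OGN C → Stmt_TPX C := by
  intro _ h σ ψ N J X hJ hX
  obtain ⟨U, R, u, r, k, hT, hU, hR⟩ := σ.sl.exists_trunc X (isUpperSet_Ici (ψ + N))
  have hUP : σ.sl.P (ψ + N) U := TPX_top σ hX hT hU hR
  have hLP : σ.sl.P ψ (U⟦(-(N : ℤ))⟧) := by
    have h1 := P_shift_int σ hUP (-(N : ℤ))
    have h2 : ψ + (N : ℝ) + ((-(N : ℤ) : ℤ) : ℝ) = ψ := by push_cast; ring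
    rwa [h2] at h1
  obtain ⟨B, A, hB, hA, ⟨e⟩⟩ := hJ.split h hLP
  have hfc := finCat_P h σ ψ
  have e1 : (A ⊞ B)⟦(N : ℤ)⟧ ≅ U :=
    (shiftFunctor C (N : ℤ)).mapIso (biprod.braiding A B ≪≫ e.symm) ≪≫
      (shiftFunctorCompIsoId C (-(N : ℤ)) (N : ℤ) (by ring)).app U
  refine ⟨A, B, R, ⟨e1.hom ≫ u, r, k ≫ e1.inv⟦(1 : ℤ)⟧', ?_⟩, ?_,
    hfc.toAbSub.gen_mem (fun S hS => hS.1) hA, ?_, hB⟩
  · refine isomorphic_distinguished _ hT _ ?_
    refine Triangle.isoMk _ _ e1 (Iso.refl _) (Iso.refl _) ?_ ?_ ?_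
    · simp
    · simp
    · simp only [Triangle.mk_mor₃, Category.assoc, ← Functor.map_comp, Iso.inv_hom_id,
        CategoryTheory.Functor.map_id, Category.comp_id, Iso.refl_hom, Category.id_comp]
  · refine hR.mono ?_
    intro x hx
    have hx' : ¬ (ψ + N ≤ x) := hx
    exact not_le.1 hx'
  · intro S hS
    have h1 := hJ.compl_orth (Gen.of hS) hA
    exact ⟨h1.2, h1.1⟩

end Pool.SR
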